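import Pool.Agent.Mg.F7504ef.Ga64163

section

/-!
The inequality of Kato at the smooth part of the boundary.
-/

set_option autoImplicit false

open MeasureTheory Filter Set Topology Bornology Metric
open scoped ContDiff

namespace Pool.Agent.MP_7504ef_an

theorem eta_k0 (N : ℕ) : ∃ η : ℝ → ℝ, ContDiff ℝ ∞ η ∧ Antitone η ∧ (∀ s, 0 ≤ η s) ∧
    (∀ s, 1 ≤ s → η s = 0) ∧ Integrable (fun x : E N => η (‖x‖ ^ 2)) ∧
    ∫ x : E N, η (‖x‖ ^ 2) = 1 := by
  have s : ContDiff ℝ ∞ fun s : ℝ => expNegInvGlue (1 - s) :=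
    expNegInvGlue.contDiff.comp (contDiff_const.sub contDiff_id)
  have c : Continuous fun x : E N => expNegInvGlue (1 - ‖x‖ ^ 2) :=
    s.continuous.comp (continuous_norm.pow 2)
  have k : HasCompactSupport fun x : E N => expNegInvGlue (1 - ‖x‖ ^ 2) :=
    HasCompactSupport.intro (isCompact_closedBall 0 1) fun x hx => by
      rw [mem_closedBall_zero_iff, not_le] at hx
      exact expNegInvGlue.zero_of_nonpos (by nlinarith)
  have p : 0 < ∫ x : E N, expNegInvGlue (1 - ‖x‖ ^ 2) :=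
    c.integral_pos_of_hasCompactSupport_nonneg_nonzero k (fun x => expNegInvGlue.nonneg _)
      (x := 0) (expNegInvGlue.pos_of_pos (by simp)).ne'
  refine ⟨fun s => (∫ x : E N, expNegInvGlue (1 - ‖x‖ ^ 2))⁻¹ * expNegInvGlue (1 - s),
    contDiff_const.mul s, fun a b h => mul_le_mul_of_nonneg_left
      (expNegInvGlue.monotone (by linarith)) (inv_pos.2 p).le,
    fun s => mul_nonneg (inv_pos.2 p).le (expNegInvGlue.nonneg _), fun s hs => ?_,
    (c.integrable_of_hasCompactSupport k).const_mul _, ?_⟩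
  · simp [expNegInvGlue.zero_of_nonpos (sub_nonpos.2 hs)]
  · rw [integral_const_mul, inv_mul_cancel₀ p.ne']

theorem phi_k0 (hψ : PSI_st) {τ : ℝ} (hτ : 0 < τ) : ∃ Φ : ℝ → ℝ, ContDiff ℝ ∞ Φ ∧
    (∀ t ≤ τ, Φ t = 0) ∧ (∀ t, 0 ≤ deriv Φ t ∧ deriv Φ t ≤ 1 ∧ 0 ≤ deriv (deriv Φ) t) ∧
    ∀ s t, |Φ s - max t 0| ≤ |s - t| + 2 * τ := by
  obtain ⟨Ψ, s, z, h, -, l⟩ := hψ
  have s' := (contDiff_infty_iff_deriv.1 s).2
  have a : ∀ t, HasDerivAt (fun t => τ⁻¹ * t) τ⁻¹ t := fun t => by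
    simpa using (hasDerivAt_id t).const_mul τ⁻¹
  have d : deriv (fun t => τ * Ψ (τ⁻¹ * t)) = fun t => deriv Ψ (τ⁻¹ * t) := funext fun t => by
    have := (((s.differentiable (by simp) _).hasDerivAt.comp t (a t)).const_mul τ).deriv
    rw [show (fun t => τ * Ψ (τ⁻¹ * t)) = fun y => τ * (Ψ ∘ fun t => τ⁻¹ * t) y from rfl, this]
    field_simp
  refine ⟨fun t => τ * Ψ (τ⁻¹ * t), contDiff_const.mul (s.comp (contDiff_const.mul contDiff_id)),
    fun t ht => ?_, fun t => ?_, fun s t => ?_⟩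
  · simp only []
    rw [z _ (by rwa [inv_mul_le_iff₀ hτ, mul_one]), mul_zero]
  · rw [d]
    refine ⟨(h _).1, (h _).2.1, ?_⟩
    have := ((s'.differentiable (by simp) _).hasDerivAt.comp t (a t)).deriv
    rw [show (fun t => deriv Ψ (τ⁻¹ * t)) = deriv Ψ ∘ fun t => τ⁻¹ * t from rfl, this]
    exact mul_nonneg (h _).2.2.1 (inv_pos.2 hτ).le
  · have e1 : |τ * Ψ (τ⁻¹ * s) - τ * Ψ (τ⁻¹ * t)| ≤ |s - t| := by
      rw [← mul_sub, abs_mul, abs_of_pos hτ, ← le_inv_mul_iff₀ hτ]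
      refine (l _ _).trans (le_of_eq ?_)
      rw [← mul_sub, abs_mul, abs_of_pos (inv_pos.2 hτ)]
    obtain ⟨-, -, -, h1, h2, h3⟩ := h (τ⁻¹ * t)
    have e2 : τ * Ψ (τ⁻¹ * t) ≤ max t 0 := by
      refine (mul_le_mul_of_nonneg_left h3 hτ.le).trans (le_of_eq ?_)
      rw [mul_max_of_nonneg _ _ hτ.le, mul_inv_cancel_left₀ hτ.ne', mul_zero]
    have e3 : t - 2 * τ ≤ τ * Ψ (τ⁻¹ * t) := by
      refine le_trans (le_of_eq ?_) (mul_le_mul_of_nonneg_left h1 hτ.le)
      field_simp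
    have e4 := mul_nonneg hτ.le h2
    have e5 : max t 0 ≤ τ * Ψ (τ⁻¹ * t) + 2 * τ := max_le (by linarith) (by linarith)
    obtain ⟨e6, e7⟩ := abs_le.1 e1
    exact abs_le.2 ⟨by linarith, by linarith⟩

theorem step_k0 (hψ : PSI_st) {N : ℕ} {Ω : Set (E N)} {u U ζ B : E N → ℝ} {τ M : ℝ} (hτ : 0 < τ)
    (ho : IsOpen Ω) (hb : IsBounded Ω) (hu : IntegrableOn u Ω) (hU : ContDiff ℝ ∞ U)
    (h0 : ∀ x ∈ frontier Ω, U x = 0) (hζ : ContDiff ℝ ∞ ζ) (hB : IntegrableOn B Ω)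
    (h : ∀ x ∈ Ω, 0 ≤ ζ x ∧ 0 ≤ B x ∧ -(ζ x * lap U x) ≤ B x ∧ |lap ζ x| ≤ M) :
    -∫ x in Ω, max (u x) 0 * lap ζ x ≤
      (∫ x in Ω, B x) + M * ((∫ x in Ω, |U x - u x|) + ∫ _ in Ω, 2 * τ) := by
  obtain ⟨Φ, s, z, d, l⟩ := phi_k0 hψ hτ
  have sf : ContDiff ℝ ∞ fun x => Φ (U x) := s.comp hU
  have g := green (f := fun x => Φ (U x)) (g := ζ) (K := closure Ω ∩ {x | τ ≤ U x}) ho
    (hb.isCompact_closure.inter_right (isClosed_le continuous_const hU.continuous))
    (fun x hx => by_contra fun e => by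
      have := h0 x ⟨hx.1, fun e' => e (interior_subset e')⟩
      exact absurd hx.2 (by simp [this, hτ]))
    (fun x _ => sm_c2 sf x) (fun x _ => sm_c2 hζ x) fun x hx hx' => .inl <|
      ((isOpen_lt hU.continuous continuous_const).eventually_mem
        (show U x < τ from not_le.1 fun e => hx' ⟨subset_closure hx, e⟩)).mono
        fun y hy => z _ (le_of_lt hy)
  have i1 : IntegrableOn (fun x => ζ x * lap (fun x => Φ (U x)) x) Ω :=
    int_cont hb (hζ.continuous.mul (sm_lap sf).continuous)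
  have a : -∫ x in Ω, ζ x * lap (fun x => Φ (U x)) x ≤ ∫ x in Ω, B x := by
    rw [← integral_neg]
    refine setIntegral_mono_on i1.neg hB ho.measurableSet fun x hx => ?_
    obtain ⟨h1, h2, h3, -⟩ := h x hx
    obtain ⟨d1, d2, d3⟩ := d (U x)
    rw [lap_comp' s (sm_c2 hU x)]
    nlinarith [mul_nonneg h1 (mul_nonneg d3 (gam_nonneg U x)), mul_nonneg d1 (sub_nonneg.2 h3),
      mul_nonneg (sub_nonneg.2 d2) h2]
  have i2 : IntegrableOn (fun x => Φ (U x) * lap ζ x) Ω :=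
    int_cont hb (sf.continuous.mul (sm_lap hζ).continuous)
  have i3 : IntegrableOn (fun x => max (u x) 0 * lap ζ x) Ω :=
    int_mul hb ho.measurableSet hu.pos_part (sm_lap hζ).continuous
  have i4 : IntegrableOn (fun x => |U x - u x|) Ω := ((int_cont hb hU.continuous).sub hu).abs
  have i5 : IntegrableOn (fun _ => 2 * τ) Ω := int_cont hb continuous_const
  have b : (∫ x in Ω, Φ (U x) * lap ζ x) - ∫ x in Ω, max (u x) 0 * lap ζ x ≤
      M * ((∫ x in Ω, |U x - u x|) + ∫ _ in Ω, 2 * τ) := by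
    rw [← integral_sub i2 i3, ← integral_add i4 i5, ← integral_const_mul]
    refine setIntegral_mono_on (i2.sub i3) ((i4.add i5).const_mul M) ho.measurableSet
      fun x hx => ?_
    rw [← sub_mul, mul_comm]
    refine (le_abs_self _).trans ?_
    rw [abs_mul]
    exact mul_le_mul (h x hx).2.2.2 (l _ _) (abs_nonneg _) ((abs_nonneg _).trans (h x hx).2.2.2)
  linarith

theorem sm_kern_k0 {N : ℕ} {η : ℝ → ℝ} {r : E N → ℝ} (hη : ContDiff ℝ ∞ η) (hr : ContDiff ℝ ∞ r)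
    (ε : ℝ) : ContDiff ℝ ∞ (Function.uncurry (kern η r ε)) :=
  contDiff_const.mul (hη.comp ((((contDiff_norm_sq ℝ).comp (contDiff_fst.sub contDiff_snd)).add
    ((contDiff_const.mul (hr.comp contDiff_fst)).mul (hr.comp contDiff_snd))).div_const _))

theorem kern0_k0 {N : ℕ} (η : ℝ → ℝ) (ε : ℝ) (x z : E N) :
    kern η (fun _ => 0) ε x z = (ε ^ N)⁻¹ * η (‖ε⁻¹ • (z - x)‖ ^ 2) := by
  rw [kern, norm_smul, mul_pow, norm_sub_rev z x, Real.norm_eq_abs, sq_abs, inv_pow]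
  simp [div_eq_inv_mul]

theorem sx_k0 {N : ℕ} (k : E N → E N → ℝ) (s : ContDiff ℝ ∞ (Function.uncurry k)) (z : E N) :
    ContDiff ℝ ∞ fun y => k y z := s.comp (contDiff_id.prodMk contDiff_const)

theorem sz_k0 {N : ℕ} (k : E N → E N → ℝ) (s : ContDiff ℝ ∞ (Function.uncurry k)) (x : E N) :
    ContDiff ℝ ∞ (k x) := s.comp (contDiff_const.prodMk contDiff_id)

theorem sw_k0 {N : ℕ} (k : E N → E N → ℝ) (s : ContDiff ℝ ∞ (Function.uncurry k)) :
    ContDiff ℝ ∞ (Function.uncurry fun z y => k y z) :=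
  s.comp (contDiff_snd.prodMk contDiff_fst)

theorem sc_k0 (hp : PAR_st) {N : ℕ} (k : E N → E N → ℝ) (s : ContDiff ℝ ∞ (Function.uncurry k))
    {ζ : E N → ℝ} (hζ : ContDiff ℝ ∞ ζ) : ContDiff ℝ ∞ (Function.uncurry fun x z =>
      ζ z * (lap (k x) z - lap (fun y => k y z) x)) :=
  (hζ.comp contDiff_snd).mul ((hp N k s).2.1.sub
    (sw_k0 (fun x z => lap (fun y => k y x) z) (hp N _ (sw_k0 k s)).2.1))

theorem one_k0 (hψ : PSI_st) (hp : PAR_st) {N : ℕ} {Ω : Set (E N)} {μ : Measure (E N)}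
    [IsFiniteMeasure μ] {u ζ : E N → ℝ} (k l : E N → E N → ℝ) {ε M : ℝ} (hε : 0 < ε)
    (ho : IsOpen Ω) (hb : IsBounded Ω) (hs : Sub Ω μ 0 u) (hζ : ContDiff ℝ ∞ ζ)
    (s0 : ContDiff ℝ ∞ (Function.uncurry k)) (s1 : ContDiff ℝ ∞ (Function.uncurry l))
    (h : ∀ x ∈ Ω, 0 ≤ ζ x ∧ |lap ζ x| ≤ M) (hM : 0 ≤ M)
    (p : ∀ x ∈ Ω, ∀ z ∈ Ω, 0 ≤ l x z ∧ l x z ≤ k x z)
    (f : ∀ x ∈ frontier Ω, ∀ z, k x z = l x z ∧ k z x = l z x)
    (c1 : ∀ x z, lap (k x) z = lap (fun y => k y z) x)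
    (hi : IntegrableOn (fun z => ζ z * ∫ x in Ω, k x z ∂μ) Ω) :
    -∫ x in Ω, max (u x) 0 * lap ζ x ≤ (∫ z in Ω, ζ z * ∫ x in Ω, k x z ∂μ) +
      (∫ z in Ω, |∫ x in Ω, u x * (ζ z * (lap (l x) z - lap (fun y => l y z) x))|) +
      M * ((∫ z in Ω, |(∫ x in Ω, u x * k x z) - u z|) + (∫ z in Ω, |∫ x in Ω, u x * l x z|) +
        (∫ _ in Ω, (2 : ℝ)) * ε) := by
  obtain ⟨hu, hs⟩ := hs
  have mΩ := ho.measurableSet
  have sk : ContDiff ℝ ∞ (Function.uncurry fun x z => k x z - l x z) := s0.sub s1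
  have sκ := sc_k0 hp l s1 hζ
  obtain ⟨sU, -, lU⟩ := (hp N _ sk).2.2 Ω u hb mΩ hu
  have j0 := int_cont (μ := volume) hb ((hp N _ s0).2.2 Ω u hb mΩ hu).1.continuous
  have j1 := int_cont (μ := volume) hb ((hp N _ s1).2.2 Ω u hb mΩ hu).1.continuous
  have j2 := (int_cont (μ := volume) hb ((hp N _ sκ).2.2 Ω u hb mΩ hu).1.continuous).abs
  have q := step_k0 hψ (M := M) hε ho hb hu sU (fun z hz => by simp [fun x => (f z hz x).2]) hζ
    (hi.add j2) fun z hz => ⟨(h z hz).1, add_nonneg (mul_nonneg (h z hz).1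
      (setIntegral_nonneg mΩ fun x hx => (p x hx z hz).1.trans (p x hx z hz).2)) (abs_nonneg _),
      ?_, (h z hz).2⟩
  · rw [integral_add' hi j2] at q
    have e : ∫ z in Ω, |(∫ x in Ω, u x * (k x z - l x z)) - u z| ≤
        (∫ z in Ω, |(∫ x in Ω, u x * k x z) - u z|) + ∫ z in Ω, |∫ x in Ω, u x * l x z| := by
      have j3 : IntegrableOn (fun z => |(∫ x in Ω, u x * k x z) - u z|) Ω := (j0.sub hu).abs
      rw [← integral_add j3 j1.abs]
      refine setIntegral_mono_on ((int_cont hb sU.continuous).sub hu).abs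
        (j3.add j1.abs) mΩ fun z _ => ?_
      simp only [mul_sub]
      rw [integral_sub (int_mul hb mΩ hu (sx_k0 k s0 z).continuous)
        (int_mul hb mΩ hu (sx_k0 l s1 z).continuous), sub_right_comm]
      exact abs_sub _ _
    have e' : ∫ _ in Ω, 2 * ε = (∫ _ in Ω, (2 : ℝ)) * ε := integral_mul_const _ _
    rw [e'] at q
    linarith [mul_le_mul_of_nonneg_left e hM]
  · have a := hs _ (sx_k0 _ sk z) (fun x hx => sub_eq_zero.2 (f x hx z).1) fun x hx =>
      sub_nonneg.2 (p x hx z hz).2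
    have b : ∫ x in Ω, (k x z - l x z) ∂μ ≤ ∫ x in Ω, k x z ∂μ :=
      setIntegral_mono_on (int_cont hb (sx_k0 _ sk z).continuous)
        (int_cont hb (sx_k0 k s0 z).continuous) mΩ fun x hx => sub_le_self _ (p x hx z hz).1
    have c : ζ z * ∫ x in Ω, u x * lap (fun z => k x z - l x z) z =
        (ζ z * ∫ x in Ω, u x * lap (fun x => k x z - l x z) x) -
        ∫ x in Ω, u x * (ζ z * (lap (l x) z - lap (fun y => l y z) x)) := by
      rw [← integral_const_mul, ← integral_const_mul, ← integral_sub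
        ((int_mul hb mΩ hu (sm_lap (sx_k0 _ sk z)).continuous).const_mul _)
        (int_mul hb mΩ hu (sx_k0 _ sκ z).continuous)]
      refine integral_congr_ae (.of_forall fun x => ?_)
      simp only []
      rw [lap_sub (sm_c2 (sz_k0 k s0 x) z) (sm_c2 (sz_k0 l s1 x) z),
        lap_sub (sm_c2 (sx_k0 k s0 z) x) (sm_c2 (sx_k0 l s1 z) x), c1]
      ring
    rw [lU, c]
    simp only [Measure.restrict_zero, integral_zero_measure, sub_zero] at a
    have := mul_le_mul_of_nonneg_left (a.trans b) (h z hz).1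
    simp only [Pi.add_apply]
    linarith [le_abs_self (∫ x in Ω, u x * (ζ z * (lap (l x) z - lap (fun y => l y z) x)))]

theorem K0_pf (hψ : PSI_st) (hp : PAR_st) (ha : APX_st) (ht : TAIL_st) (hm : MUF_st)
    (hc : COM_st) : K0_st := by
  intro N Ω μ u r ζ C D hμ hs hζ h
  obtain ⟨η, sη, aη, pη, zη, iη, nη⟩ := eta_k0 N
  obtain ⟨c1, c2, c3⟩ := hc N Ω η r ζ C D sη zη h
  have cφ : Continuous fun x : E N => η (‖x‖ ^ 2) := sη.continuous.comp (continuous_norm.pow 2)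
  obtain ⟨C', hC⟩ := hm N Ω μ ζ _ D.op D.bd hμ hζ (fun x hx => (h x hx).1) cφ (fun x => pη _)
    (fun x hx => zη _ (by nlinarith)) nη
  obtain ⟨M, hM0, hM⟩ := ex_bd D.bd (sm_lap hζ).continuous
  have s0 := sm_kern_k0 (N := N) (r := fun _ => 0) sη contDiff_const
  have s1 := sm_kern_k0 sη D.sm
  have t1 := ha N Ω u _ D.op.measurableSet hs.1 cφ iη (fun x => pη _) nη
  have t2 := ht N Ω u r _ D hs.1 (fun ε => (s1 ε).continuous) c2
  have t3 := ht N Ω u r _ D hs.1 (fun ε => (sc_k0 hp _ (s1 ε) hζ).continuous) c3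
  have t4 : Tendsto (fun ε : ℝ => ε) (𝓝[>] 0) (𝓝 0) := tendsto_nhdsWithin_of_tendsto_nhds tendsto_id
  have T := ((((t4.const_mul C').const_add (∫ x in Ω, ζ x ∂μ))).add t3).add
    (((t1.add t2).add (t4.const_mul (∫ _ in Ω, (2 : ℝ)))).const_mul M)
  simp only [mul_zero, add_zero, ← kern0_k0] at T hC
  refine ge_of_tendsto T (mem_of_superset (Ioo_mem_nhdsGT zero_lt_one) fun ε hε => ?_)
  have pe : 0 ≤ (ε ^ N)⁻¹ := (inv_pos.2 (pow_pos hε.1 N)).le
  have := one_k0 hψ hp _ _ hε.1 D.op D.bd hs hζ (s0 ε) (s1 ε) (fun x hx => ⟨(h x hx).1, hM x hx⟩)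
    hM0.le (fun x hx z hz => ⟨mul_nonneg pe (pη _), mul_le_mul_of_nonneg_left
      (aη (div_le_div_of_nonneg_right (by nlinarith [mul_pos (D.pos x hx) (D.pos z hz)])
      (sq_nonneg _))) pe⟩) (fun x hx z => by simp [kern, D.fr x hx]) (c1 ε) (hC ε hε).1
  simp only [mem_ofPred_eq]
  linarith [(hC ε hε).2]

end Pool.Agent.MP_7504ef_an

end

section

/-!
Gradients of functions whose Laplacian is a finite measure.
-/

set_option autoImplicit false

open MeasureTheory Filter Set Topology Bornology Metric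
open scoped ContDiff

namespace Pool.Agent.MP_7504ef_an

variable {N : ℕ}

/-- the regularised gradient of the Newton kernel -/
noncomputable def K_grd (d : ℝ) (i : Fin N) (v : E N) : ℝ :=
  v i * (‖v‖ ^ 2 + d ^ 2) ^ (-(N : ℝ) / 2)

theorem one_grd {ν : Measure (E N)} [IsFiniteMeasure ν] {R R₁ : ℝ} (hν : ν (ball 0 R)ᶜ = 0)
    {Ω : Set (E N)} (hm : MeasurableSet Ω) (hΩ : Ω ⊆ ball 0 R₁) {H : E N → ℝ}
    (hH : IntegrableOn H (ball 0 (R₁ + R))) :
    IntegrableOn (fun z => ∫ x, H (z - x) ∂ν) Ω ∧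
      (∀ᵐ z ∂(volume.restrict Ω), Integrable (fun x => H (z - x)) ν) ∧
      ∫ z in Ω, |∫ x, H (z - x) ∂ν| ≤ ν.real univ * ∫ v in ball 0 (R₁ + R), |H v| := by
  have hI : Integrable ((ball (0 : E N) (R₁ + R)).indicator H) :=
    (integrable_indicator_iff measurableSet_ball).2 hH
  have hP : Integrable (fun p : E N × E N => (ball (0 : E N) (R₁ + R)).indicator H (p.1 - p.2))
      (volume.prod ν) := by
    simpa using (integrable_const (μ := ν) (1 : ℝ)).convolution_integrand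
      (ContinuousLinearMap.mul ℝ ℝ) hI
  have he : ∀ z ∈ Ω, (fun x => (ball (0 : E N) (R₁ + R)).indicator H (z - x)) =ᵐ[ν]
      fun x => H (z - x) := fun z hz => by
    filter_upwards [mem_ae_iff.2 hν] with x hx
    refine indicator_of_mem ?_ _
    rw [mem_ball_zero_iff] at hx ⊢
    have := mem_ball_zero_iff.1 (hΩ hz)
    linarith [norm_sub_le z x]
  have hc : (fun z => ∫ x, (ball (0 : E N) (R₁ + R)).indicator H (z - x) ∂ν) =ᵐ[volume.restrict Ω]
      fun z => ∫ x, H (z - x) ∂ν :=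
    (ae_restrict_mem hm).mono fun z hz => integral_congr_ae (he z hz)
  refine ⟨hP.integral_prod_left.integrableOn.congr hc, ?_, ?_⟩
  · filter_upwards [ae_restrict_of_ae hP.prod_right_ae, ae_restrict_mem hm] with z h hz
    exact h.congr (he z hz)
  · have a : ∫ z in Ω, |∫ x, H (z - x) ∂ν| =
        ∫ z in Ω, |∫ x, (ball (0 : E N) (R₁ + R)).indicator H (z - x) ∂ν| :=
      integral_congr_ae (hc.mono fun z hz => by simp only [] at hz ⊢; rw [hz])
    have b : ∫ z in Ω, |∫ x, (ball (0 : E N) (R₁ + R)).indicator H (z - x) ∂ν| ≤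
        ∫ z, |∫ x, (ball (0 : E N) (R₁ + R)).indicator H (z - x) ∂ν| :=
      setIntegral_le_integral hP.integral_prod_left.abs (.of_forall fun _ => abs_nonneg _)
    have c : ∫ z, |∫ x, (ball (0 : E N) (R₁ + R)).indicator H (z - x) ∂ν| ≤
        ∫ z, ∫ x, |(ball (0 : E N) (R₁ + R)).indicator H (z - x)| ∂ν :=
      integral_mono hP.integral_prod_left.abs hP.abs.integral_prod_left
        fun z => abs_integral_le_integral_abs
    have e : ∫ z, ∫ x, |(ball (0 : E N) (R₁ + R)).indicator H (z - x)| ∂ν =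
        ν.real univ * ∫ v in ball 0 (R₁ + R), |H v| := by
      rw [integral_integral_swap hP.abs]
      have : ∀ x : E N, ∫ z, |(ball (0 : E N) (R₁ + R)).indicator H (z - x)| =
          ∫ v in ball 0 (R₁ + R), |H v| := fun x => by
        rw [integral_sub_right_eq_self (fun v => |(ball (0 : E N) (R₁ + R)).indicator H v|) x,
          ← integral_indicator measurableSet_ball]
        refine integral_congr_ae (.of_forall fun v => ?_)
        by_cases hv : v ∈ ball (0 : E N) (R₁ + R) <;> simp [hv]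
      simp [this]
    linarith

theorem K_bd_grd (d : ℝ) (i : Fin N) (v : E N) : |K_grd d i v| ≤ ‖v‖ ^ (-((N : ℝ) - 1)) := by
  rcases eq_or_ne v 0 with rfl | hv
  · simp only [K_grd, PiLp.zero_apply, zero_mul, abs_zero]
    positivity
  have h : 0 < ‖v‖ := norm_pos_iff.2 hv
  have h1 : (‖v‖ ^ 2 + d ^ 2) ^ (-(N : ℝ) / 2) ≤ (‖v‖ ^ 2) ^ (-(N : ℝ) / 2) :=
    Real.rpow_le_rpow_of_nonpos (by positivity) (by linarith [sq_nonneg d])
      (by linarith [(Nat.cast_nonneg N : (0 : ℝ) ≤ N)])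
  have h2 : (‖v‖ ^ 2) ^ (-(N : ℝ) / 2) = ‖v‖ ^ (-(N : ℝ)) := by
    rw [← Real.rpow_natCast, ← Real.rpow_mul h.le]
    congr 1
    push_cast
    ring
  have h3 : |v i| ≤ ‖v‖ := by simpa using PiLp.norm_apply_le v i
  rw [K_grd, abs_mul, abs_of_nonneg (Real.rpow_nonneg (by positivity) _),
    show -((N : ℝ) - 1) = 1 + -(N : ℝ) by ring, Real.rpow_add h, Real.rpow_one]
  exact mul_le_mul h3 (h1.trans_eq h2) (Real.rpow_nonneg (by positivity) _) h.le

theorem K_meas_grd (d : ℝ) (i : Fin N) : Measurable (K_grd d i) := by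
  unfold K_grd
  fun_prop

theorem pw_int_grd (hN : 0 < N) (r : ℝ) :
    IntegrableOn (fun v : E N => ‖v‖ ^ (-((N : ℝ) - 1))) (ball 0 r) :=
  integrableOn_ball_of_norm_le_rpow (C := 1) (α := (N : ℝ) - 1) (by simpa using Nat.succ_le_of_lt hN)
    (by simp)
    (.of_forall fun v => by
      rw [Real.norm_eq_abs, abs_of_nonneg (Real.rpow_nonneg (norm_nonneg _) _), one_mul])
    (Measurable.aestronglyMeasurable (by fun_prop))

theorem K_int_grd (hN : 0 < N) (d : ℝ) (i : Fin N) (r : ℝ) : IntegrableOn (K_grd d i) (ball 0 r) :=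
  (pw_int_grd hN r).mono' (K_meas_grd d i).aestronglyMeasurable (.of_forall (K_bd_grd d i))

theorem K_lim_grd (hN : 0 < N) (i : Fin N) (r : ℝ) :
    Tendsto (fun d : ℝ => ∫ v in ball (0 : E N) r, |K_grd d i v - K_grd 0 i v|) (𝓝[>] 0) (𝓝 0) := by
  have := tendsto_integral_filter_of_dominated_convergence (μ := volume.restrict (ball (0 : E N) r))
    (l := 𝓝[>] (0 : ℝ)) (F := fun d v => |K_grd d i v - K_grd 0 i v|) (f := fun _ => (0 : ℝ))
    (fun v : E N => 2 * ‖v‖ ^ (-((N : ℝ) - 1)))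
    (.of_forall fun d => ((K_meas_grd d i).sub (K_meas_grd 0 i)).abs.aestronglyMeasurable)
    (.of_forall fun d => .of_forall fun v => by
      rw [Real.norm_eq_abs, abs_abs]
      linarith [abs_sub (K_grd d i v) (K_grd 0 i v), K_bd_grd d i v, K_bd_grd 0 i v])
    ((pw_int_grd hN r).const_mul 2) (.of_forall fun v => by
      rcases eq_or_ne v 0 with rfl | hv
      · simp [K_grd]
      have h : 0 < ‖v‖ := norm_pos_iff.2 hv
      have c : ContinuousAt (fun d : ℝ => |K_grd d i v - K_grd 0 i v|) 0 := by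
        refine ((continuousAt_const.mul (ContinuousAt.rpow_const (by fun_prop) (.inl ?_))).sub
          continuousAt_const).abs
        positivity
      simpa using c.tendsto.mono_left nhdsWithin_le_nhds)
  simpa using this

theorem two_grd (hN : 0 < N) {ν : Measure (E N)} [IsFiniteMeasure ν] {R R₁ : ℝ}
    (hν : ν (ball 0 R)ᶜ = 0) {Ω : Set (E N)} (hm : MeasurableSet Ω) (hΩ : Ω ⊆ ball 0 R₁)
    (i : Fin N) :
    Tendsto (fun d : ℝ => ∫ z in Ω, |∫ x, K_grd d i (z - x) ∂ν - ∫ x, K_grd 0 i (z - x) ∂ν|)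
      (𝓝[>] 0) (𝓝 0) := by
  have l := (K_lim_grd hN i (R₁ + R)).const_mul (ν.real univ)
  rw [mul_zero] at l
  refine squeeze_zero (fun d => integral_nonneg fun _ => abs_nonneg _) (fun d => ?_) l
  have a := one_grd hν hm hΩ (K_int_grd hN d i _)
  have b := one_grd hν hm hΩ (K_int_grd hN 0 i _)
  refine le_of_eq_of_le (integral_congr_ae ?_)
    (one_grd hν hm hΩ ((K_int_grd hN d i _).sub (K_int_grd hN 0 i _))).2.2
  filter_upwards [a.2.1, b.2.1] with z h h'
  rw [← integral_sub h h']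
  rfl

theorem der_grd {d : ℝ} (hd : 0 < d) (a : ℝ) {t : ℝ} (ht : 0 ≤ t) :
    ∀ᶠ s in 𝓝 t, HasDerivAt (fun s : ℝ => (s + d ^ 2) ^ a) (a * (s + d ^ 2) ^ (a - 1)) s := by
  have : ∀ᶠ s in 𝓝 t, -d ^ 2 < s := lt_mem_nhds (by nlinarith)
  filter_upwards [this] with s hs
  simpa using ((hasDerivAt_id s).add_const (d ^ 2)).rpow_const (p := a)
    (.inl (by simp only [id]; linarith))

theorem sm_K_grd {d : ℝ} (hd : 0 < d) (i : Fin N) (z : E N) :
    ContDiff ℝ ∞ fun x => K_grd d i (z - x) :=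
  ((sm_coord i).mul (((contDiff_norm_sq ℝ).add contDiff_const).rpow_const_of_ne
    fun _ => by positivity)).comp (contDiff_const.sub contDiff_id)

theorem id_grd {d : ℝ} (hd : 0 < d) (i : Fin N) (x z : E N) :
    lap (fun x => K_grd d i (z - x)) x =
      pd i (fun z => N * d ^ 2 * (‖z - x‖ ^ 2 + d ^ 2) ^ (-(N : ℝ) / 2 - 1)) z := by
  have e : (fun x => K_grd d i (z - x)) =
      fun x : E N => (z i - x i) * (‖x - z‖ ^ 2 + d ^ 2) ^ (-(N : ℝ) / 2) := by
    ext x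
    rw [K_grd, norm_sub_rev, PiLp.sub_apply]
  have sf : ContDiff ℝ ∞ fun x : E N => z i - x i := contDiff_const.sub (sm_coord i)
  have sg : ContDiff ℝ ∞ fun x : E N => (‖x - z‖ ^ 2 + d ^ 2) ^ (-(N : ℝ) / 2) :=
    ((sm_nsq z).add contDiff_const).rpow_const_of_ne fun _ => by positivity
  have pf : ∀ j, pd j (fun x : E N => z i - x i) = fun _ => if i = j then -1 else 0 := fun j => by
    ext y
    rw [pd_sub (differentiableAt_const _) (sm_d (sm_coord i) y), pd_const, pd_coord]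
    split_ifs <;> simp
  have lf : lap (fun x : E N => z i - x i) x = 0 := by simp [lap, pf, pd_const]
  have d1 := der_grd hd (-(N : ℝ) / 2) (sq_nonneg ‖x - z‖)
  have d2 := ((der_grd hd (-(N : ℝ) / 2 - 1) (sq_nonneg ‖x - z‖)).self_of_nhds).const_mul
    (-(N : ℝ) / 2)
  have lg := lap_comp (f := fun x : E N => ‖x - z‖ ^ 2) d1 d2 (sm_c2 (sm_nsq z) x)
  have gg := gam_comp (k := fun x : E N => z i - x i) (f := fun x : E N => ‖x - z‖ ^ 2)
    d1.self_of_nhds (sm_d (sm_nsq z) x)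
  have g0 : gam (fun x : E N => z i - x i) (fun x : E N => ‖x - z‖ ^ 2) x = 2 * (z i - x i) := by
    simp only [gam, pf, pd_nsq]
    simp
    ring
  have r := pd_comp (i := i) (f := fun z : E N => ‖z - x‖ ^ 2)
    (((der_grd hd (-(N : ℝ) / 2 - 1) (sq_nonneg ‖z - x‖)).self_of_nhds).const_mul (N * d ^ 2))
    (sm_d (sm_nsq x) z)
  have T : 0 < ‖x - z‖ ^ 2 + d ^ 2 := by positivity
  have s : (‖x - z‖ ^ 2 + d ^ 2) ^ (-(N : ℝ) / 2 - 1) =
      (‖x - z‖ ^ 2 + d ^ 2) ^ (-(N : ℝ) / 2 - 1 - 1) * (‖x - z‖ ^ 2 + d ^ 2) := by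
    rw [← Real.rpow_add_one T.ne']
    congr 1
    ring
  rw [e, lap_mul (sm_c2 sf x) (sm_c2 sg x), lf, lg, gg, g0, r, lap_nsq, gam_nsq, pd_nsq,
    norm_sub_rev z x, s]
  ring

theorem sc_grd {d : ℝ} (hd : 0 < d) (v : E N) :
    (d ^ N)⁻¹ * (1 + ‖d⁻¹ • v‖ ^ 2) ^ (-(N : ℝ) / 2 - 1) =
      d ^ 2 * (‖v‖ ^ 2 + d ^ 2) ^ (-(N : ℝ) / 2 - 1) := by
  have a : 1 + ‖d⁻¹ • v‖ ^ 2 = (‖v‖ ^ 2 + d ^ 2) / d ^ 2 := by
    rw [norm_smul, Real.norm_eq_abs, abs_of_pos (inv_pos.2 hd)]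
    field_simp
    ring
  have b : (d ^ 2) ^ (-(N : ℝ) / 2 - 1) = (d ^ N * d ^ 2)⁻¹ := by
    rw [← pow_add, ← Real.rpow_natCast d 2, ← Real.rpow_mul hd.le, ← Real.rpow_natCast,
      ← Real.rpow_neg hd.le]
    congr 1
    push_cast
    ring
  rw [a, Real.div_rpow (by positivity) (by positivity), b]
  field_simp

theorem GRD_pf (hp : PAR_st) (ha : APX_st) : GRD_st := by
  intro N Ω ν₁ ν₂ w R hN ho hb f₁ f₂ h₁ h₂ hw hl
  have hm := ho.measurableSet
  obtain ⟨R₁, hΩ⟩ := hb.subset_ball 0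
  have pi : Integrable fun v : E N => (1 + ‖v‖ ^ 2) ^ (-(N : ℝ) / 2 - 1) := by
    have := integrable_rpow_neg_one_add_norm_sq (E := E N) (μ := volume) (r := N + 2) (by simp)
    rwa [show -((N : ℝ) + 2) / 2 = -(N : ℝ) / 2 - 1 by ring] at this
  have pc : Continuous fun v : E N => (1 + ‖v‖ ^ 2) ^ (-(N : ℝ) / 2 - 1) :=
    Continuous.rpow_const (by fun_prop) fun _ => .inl (by positivity)
  obtain ⟨c, hc⟩ : ∃ c, c = ∫ v : E N, (1 + ‖v‖ ^ 2) ^ (-(N : ℝ) / 2 - 1) := ⟨_, rfl⟩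
  have c0 : 0 < c := hc ▸ integral_pos_of_integrable_nonneg_nonzero (x := 0) pc pi
    (fun _ => by positivity) (by positivity)
  have N0 : (0 : ℝ) < N := Nat.cast_pos.2 hN
  obtain ⟨b, hb'⟩ : ∃ b, b = (c * N)⁻¹ := ⟨_, rfl⟩
  have b0 : 0 < b := hb' ▸ by positivity
  have I := fun (d : ℝ) (i : Fin N) => And.intro (one_grd h₁ hm hΩ (K_int_grd hN d i _)).1
    (one_grd h₂ hm hΩ (K_int_grd hN d i _)).1
  refine ⟨fun i z => b * (∫ x, K_grd 0 i (z - x) ∂ν₁ - ∫ x, K_grd 0 i (z - x) ∂ν₂),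
    fun i => ((I 0 i).1.sub (I 0 i).2).const_mul b, fun ε hε => ?_⟩
  have A := ha N Ω w (fun v => c⁻¹ * (1 + ‖v‖ ^ 2) ^ (-(N : ℝ) / 2 - 1)) hm hw
    (continuous_const.mul pc) (pi.const_mul _) (fun _ => by positivity)
    (by rw [integral_const_mul, ← hc, inv_mul_cancel₀ c0.ne'])
  have B := fun i => ((two_grd hN h₁ hm hΩ i).add (two_grd hN h₂ hm hΩ i)).const_mul b
  simp only [add_zero, mul_zero] at B
  obtain ⟨d, ⟨hA, hB⟩, hd⟩ := (((A.eventually (gt_mem_nhds hε)).and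
    (eventually_all.2 fun i => (B i).eventually (gt_mem_nhds hε))).and self_mem_nhdsWithin).exists
  replace hd : 0 < d := hd
  have se : ContDiff ℝ ∞ (Function.uncurry fun x z : E N =>
      b * (N * d ^ 2 * (‖z - x‖ ^ 2 + d ^ 2) ^ (-(N : ℝ) / 2 - 1))) :=
    contDiff_const.mul (contDiff_const.mul ((((contDiff_norm_sq ℝ).comp
      (contDiff_snd.sub contDiff_fst)).add contDiff_const).rpow_const_of_ne fun _ =>
        (add_pos_of_nonneg_of_pos (sq_nonneg _) (pow_pos hd 2)).ne'))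
  obtain ⟨s1, s2, -⟩ := (hp N _ se).2.2 Ω w hb hm hw
  refine ⟨_, s1, le_of_eq_of_le ?_ hA.le, fun i => le_trans ?_ (hB i).le⟩
  · refine integral_congr_ae (.of_forall fun z => ?_)
    have : ∀ x : E N, b * (N * d ^ 2 * (‖z - x‖ ^ 2 + d ^ 2) ^ (-(N : ℝ) / 2 - 1)) =
        (d ^ N)⁻¹ * (c⁻¹ * (1 + ‖d⁻¹ • (z - x)‖ ^ 2) ^ (-(N : ℝ) / 2 - 1)) := fun x => by
      rw [mul_left_comm _ c⁻¹, sc_grd hd, hb']
      field_simp
    simp only [this]
  · have e : ∀ z, ∫ x in Ω, w x * pd i (fun z : E N =>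
        b * (N * d ^ 2 * (‖z - x‖ ^ 2 + d ^ 2) ^ (-(N : ℝ) / 2 - 1))) z =
        b * (∫ x, K_grd d i (z - x) ∂ν₁ - ∫ x, K_grd d i (z - x) ∂ν₂) := fun z => by
      rw [← hl _ (sm_K_grd hd i z), ← integral_const_mul]
      refine integral_congr_ae (.of_forall fun x => ?_)
      have : ContDiff ℝ ∞ fun z : E N => N * d ^ 2 * (‖z - x‖ ^ 2 + d ^ 2) ^ (-(N : ℝ) / 2 - 1) :=
        contDiff_const.mul (((sm_nsq x).add contDiff_const).rpow_const_of_ne fun _ => by positivity)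
      simp only []
      rw [pd_cmul b (sm_d this z), id_grd hd]
      ring
    have i1 := ((I d i).1.sub (I 0 i).1).abs
    have i2 := ((I d i).2.sub (I 0 i).2).abs
    refine le_of_le_of_eq (integral_mono_of_nonneg (.of_forall fun _ => abs_nonneg _)
      ((i1.add i2).const_mul b) (.of_forall fun z => ?_)) ?_
    · simp only [Pi.add_apply, Pi.sub_apply]
      rw [s2, e, ← mul_sub, abs_mul, abs_of_pos b0]
      refine mul_le_mul_of_nonneg_left (le_of_eq_of_le ?_ (abs_sub _ _)) b0.le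
      congr 1
      ring
    · rw [integral_const_mul]
      exact congrArg _ (integral_add i1 i2)

end Pool.Agent.MP_7504ef_an

end

section

/-!
Approximation by functions with compact support.
-/

set_option autoImplicit false

open MeasureTheory Filter Set Topology Bornology Metric
open scoped ContDiff

namespace Pool.Agent.MP_7504ef_an

variable {N : ℕ} {Ω : Set (E N)} {ρ : E N → ℝ}

theorem der_wct : ∃ M, 0 < M ∧ ∀ t, 0 ≤ t →
    |deriv Real.smoothTransition (t - 1)| ≤ M * Real.exp (-t) := by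
  have c : Continuous (deriv Real.smoothTransition) :=
    (Real.smoothTransition.contDiff (n := 1)).continuous_deriv le_rfl
  obtain ⟨M, hM⟩ := (isCompact_Icc (a := (0 : ℝ)) (b := 2)).exists_bound_of_continuousOn
    (f := fun t => deriv Real.smoothTransition (t - 1) * Real.exp t) (by fun_prop)
  refine ⟨|M| + 1, by positivity, fun t h => ?_⟩
  rcases le_or_gt t 2 with a | a
  · have := hM t ⟨h, a⟩
    rw [Real.norm_eq_abs, abs_mul, Real.abs_exp] at this
    rw [Real.exp_neg, ← div_eq_mul_inv, le_div_iff₀ (Real.exp_pos t)]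
    linarith [le_abs_self M]
  · rw [EventuallyEq.deriv_eq (f := fun _ => 1) (mem_of_superset (Ioi_mem_nhds
      (show 1 < t - 1 by linarith)) fun s hs => Real.smoothTransition.one_of_one_le (le_of_lt hs))]
    simp only [deriv_const, abs_zero]
    positivity

theorem cut_wct (h : Df Ω ρ) (δ : ℝ) :
    ContDiff ℝ ∞ fun y => Real.smoothTransition (ρ y / δ - 1) :=
  Real.smoothTransition.contDiff.comp ((h.sm.div_const δ).sub contDiff_const)

theorem lim_wct (h : Df Ω ρ) {g : E N → ℝ} (hg : IntegrableOn g Ω) : Tendsto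
    (fun δ : ℝ => ∫ x in Ω, |g x| * (1 - Real.smoothTransition (ρ x / δ - 1))) (𝓝[>] 0) (𝓝 0) := by
  have := tendsto_integral_filter_of_dominated_convergence (μ := volume.restrict Ω) (l := 𝓝[>] 0)
    (F := fun (δ : ℝ) x => |g x| * (1 - Real.smoothTransition (ρ x / δ - 1))) (f := fun _ => 0)
    (fun x => |g x|) (.of_forall fun δ => hg.abs.1.mul
      (continuous_const.sub (cut_wct h δ).continuous).aestronglyMeasurable)
    (.of_forall fun δ => .of_forall fun x => by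
      rw [Real.norm_of_nonneg (mul_nonneg (abs_nonneg _)
        (sub_nonneg.2 (Real.smoothTransition.le_one _)))]
      exact mul_le_of_le_one_right (abs_nonneg _)
        (sub_le_self _ (Real.smoothTransition.nonneg _))) hg.abs
    ((ae_restrict_mem h.op.measurableSet).mono fun x hx => tendsto_const_nhds.congr' (by
      filter_upwards [Ioo_mem_nhdsGT (half_pos (h.pos x hx))] with δ hδ
      rw [Real.smoothTransition.one_of_one_le (by
        rw [le_sub_iff_add_le, le_div_iff₀ hδ.1]; linarith [hδ.2])]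
      simp))
  simpa using this

theorem WCT_pf : WCT_st := by
  intro N Ω w ρ h hw w0 th ⟨G, hG, ap⟩
  refine ⟨hw, G, hG, fun ε e0 => ?_⟩
  obtain ⟨M, m0, hM⟩ := der_wct
  obtain ⟨L, l0, hL⟩ := ex_bd (f := fun x => ∑ i, |pd i ρ x|) h.bd
    (continuous_finsetSum _ fun i _ => (sm_pd h.sm i).continuous.abs)
  have e4 : 0 < ε / 4 := by positivity
  obtain ⟨δ, ⟨d1, d2, d3⟩, (d0 : 0 < δ)⟩ := ((((lim_wct h hw).eventually_le_const e4).and
    ((eventually_all.2 fun i => (lim_wct h (hG i)).eventually_le_const e4).and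
      (eventually_all.2 fun i => (th i).eventually_le_const (div_pos e4 m0)))).and
        self_mem_nhdsWithin).exists
  have k0 : 0 < M * L / δ := by positivity
  obtain ⟨φ, s, a1, a2⟩ := ap (ε / 4 / (1 + M * L / δ)) (by positivity)
  have a3 : ε / 4 / (1 + M * L / δ) ≤ ε / 4 := div_le_self e4.le (by linarith)
  have f := cut_wct h δ
  have f0 := fun x => Real.smoothTransition.nonneg (ρ x / δ - 1)
  have f1 := fun x => Real.smoothTransition.le_one (ρ x / δ - 1)
  have kΩ : closure Ω ∩ {x | δ ≤ ρ x} ⊆ Ω := fun x hx => by_contra fun n =>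
    (d0.trans_le hx.2).ne' (h.fr x (h.op.frontier_eq ▸ ⟨hx.1, n⟩))
  obtain ⟨c1, c2, c3, c4⟩ := ind_cd (n := ∞)
    (f := fun y => Real.smoothTransition (ρ y / δ - 1) * φ y) h.op
    (h.bd.isCompact_closure.inter_right (isClosed_le continuous_const h.sm.continuous)) kΩ
    (fun x _ => (f.mul s).contDiffAt) fun x hx n => by
      rw [Real.smoothTransition.zero_of_nonpos (sub_nonpos.2 ((div_le_one d0).2
        (le_of_not_ge fun k => n ⟨subset_closure hx, k⟩))), zero_mul]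
  have ms := h.op.measurableSet
  have i1 : IntegrableOn (fun x => |φ x - w x|) Ω := ((int_cont h.bd s.continuous).sub hw).abs
  have i2 := fun g (hg : IntegrableOn g Ω) => int_mul (f := fun x => |g x|) h.bd ms hg.abs
    (g := fun x => 1 - Real.smoothTransition (ρ x / δ - 1)) (continuous_const.sub f.continuous)
  have tri : ∀ a b F : ℝ, 0 ≤ F → F ≤ 1 → |F * a - b| ≤ |a - b| + |b| * (1 - F) :=
    fun a b F p q => abs_le.2 ⟨by nlinarith [neg_abs_le (a - b), le_abs_self b, abs_nonneg (a - b)],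
      by nlinarith [le_abs_self (a - b), neg_abs_le b, abs_nonneg (a - b)]⟩
  refine ⟨_, ⟨c1, c2, c3.trans kΩ⟩, (integral_mono_of_nonneg (.of_forall fun _ => abs_nonneg _)
    (i1.add (i2 w hw)) ((ae_restrict_mem ms).mono fun x hx => ?_)).trans ?_, fun i => ?_⟩
  · simp only [indicator_of_mem hx]
    exact tri _ _ _ (f0 x) (f1 x)
  · rw [integral_add' i1 (i2 w hw)]
    linarith
  have i3 : IntegrableOn (fun x => |pd i φ x - G i x|) Ω :=
    ((int_cont h.bd (sm_pd s i).continuous).sub (hG i)).abs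
  have i4 := int_mul h.bd ms hw (g := fun x => Real.exp (-(ρ x / δ)) * |pd i ρ x| / δ)
    (((h.sm.continuous.div_const δ).neg.rexp.mul (sm_pd h.sm i).continuous.abs).div_const δ)
  refine (integral_mono_of_nonneg (.of_forall fun _ => abs_nonneg _)
    ((i3.add (i2 _ (hG i))).add ((i1.const_mul (M * L / δ)).add (i4.const_mul M)))
    ((ae_restrict_mem ms).mono fun x hx => ?_)).trans ?_
  · have r := div_nonneg (h.pos x hx).le d0.le
    have b1 := hM _ r
    have b2 : |pd i ρ x| ≤ L := (Finset.single_le_sum (f := fun i => |pd i ρ x|)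
      (fun _ _ => abs_nonneg _) (Finset.mem_univ i)).trans (le_of_abs_le (hL x hx))
    have b3 : |φ x| ≤ |φ x - w x| + w x := by
      simpa [abs_of_nonneg (w0 x)] using abs_add_le (φ x - w x) (w x)
    have b4 : Real.exp (-(ρ x / δ)) * |pd i ρ x| ≤ L := (mul_le_of_le_one_left (abs_nonneg _)
      (Real.exp_le_one_iff.2 (neg_nonpos.2 r))).trans b2
    simp only [Pi.add_apply]
    rw [pd_congr (c4 x hx), pd_mul (sm_d f x) (sm_d s x), pd_comp (f := ρ)
      (Φ := fun t => Real.smoothTransition (t / δ - 1)) ((((Real.smoothTransition.contDiff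
        (n := 1)).differentiable one_ne_zero _).hasDerivAt).comp (ρ x)
        (((hasDerivAt_id _).div_const δ).sub_const 1)) (sm_d h.sm x), add_sub_right_comm]
    refine (abs_add_le _ _).trans (add_le_add (tri _ _ _ (f0 x) (f1 x)) ?_)
    rw [abs_mul, abs_mul, abs_mul, abs_of_pos (one_div_pos.2 d0)]
    calc _ ≤ (|φ x - w x| + w x) * (M * Real.exp (-(ρ x / δ)) * (1 / δ) * |pd i ρ x|) := by
          have := w0 x
          gcongr
      _ = M * (Real.exp (-(ρ x / δ)) * |pd i ρ x|) / δ * |φ x - w x| +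
          M * (w x * (Real.exp (-(ρ x / δ)) * |pd i ρ x| / δ)) := by ring
      _ ≤ _ := by gcongr
  · rw [integral_add' (i3.add (i2 _ (hG i))) ((i1.const_mul _).add (i4.const_mul M)),
      integral_add' i3 (i2 _ (hG i)), integral_add' (i1.const_mul _) (i4.const_mul M),
      integral_const_mul, integral_const_mul]
    have b1 := mul_le_mul_of_nonneg_left a1 k0.le
    have b2 := (le_div_iff₀' m0).1 (d3 i)
    have b3 : (1 + M * L / δ) * (ε / 4 / (1 + M * L / δ)) = ε / 4 := mul_div_cancel₀ _ (by linarith)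
    linarith [a2 i, d2 i]

end Pool.Agent.MP_7504ef_an

end

section

/-!
An obtuse corner gives a wedge.
-/

set_option autoImplicit false

open MeasureTheory Filter Set Topology Bornology Metric
open scoped ContDiff

namespace Pool.Agent.MP_7504ef_an

variable {N m : ℕ} {f : E N → ℝ} {y v v' : E N}

theorem inner_geo (f : E N → ℝ) (y v : E N) : inner ℝ (gradient f y) v = fderiv ℝ f y v :=
  InnerProductSpace.toDual_symm_apply

theorem lo_geo (h : ContDiff ℝ ∞ f) (h0 : f y = 0) {c : ℝ} (hc : 0 < c) :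
    ∀ᶠ x in 𝓝 y, |f x - fderiv ℝ f y (x - y)| ≤ c * ‖x - y‖ := by
  simpa [h0] using (sm_d h y).hasFDerivAt.isLittleO.def hc

theorem lim_geo (y v : E N) : Tendsto (fun t : ℝ => y + t • v) (𝓝[>] 0) (𝓝 y) :=
  ((by fun_prop : Continuous fun t : ℝ => y + t • v).tendsto' 0 y (by simp)).mono_left
    nhdsWithin_le_nhds

theorem ray_geo (h : ContDiff ℝ ∞ f) (h0 : f y = 0) (hv : 0 < fderiv ℝ f y v) :
    ∀ᶠ t in 𝓝[>] (0 : ℝ), 0 < f (y + t • v) := by
  have := ((sm_d h y).hasFDerivAt.hasLineDerivAt v).tendsto_slope_zero_right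
  filter_upwards [this.eventually (lt_mem_nhds hv), self_mem_nhdsWithin] with t h1 h2
  rw [h0, sub_zero, smul_eq_mul] at h1
  exact (mul_pos_iff_of_pos_left (inv_pos.2 h2)).1 h1

theorem sep_geo {Ω : Set (E N)} (h : ContDiff ℝ ∞ f) (hf : ∀ x ∈ frontier Ω, f x = 0)
    (h0 : f y = 0) (hv : ∀ᶠ t in 𝓝[>] (0 : ℝ), y + t • v ∈ interior Ω)
    (hv' : ∀ᶠ t in 𝓝[>] (0 : ℝ), y + t • v' ∈ interior Ωᶜ) (p : 0 < fderiv ℝ f y v)
    (p' : 0 < fderiv ℝ f y v') : False := by
  set L := fderiv ℝ f y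
  have s : ∀ w : E N, 0 < L w → ∀ᶠ c in 𝓝[>] (0 : ℝ), c * ‖w‖ < L w := fun w hw =>
    (((by fun_prop : Continuous fun c : ℝ => c * ‖w‖).tendsto' 0 0 (by simp)).mono_left
      nhdsWithin_le_nhds).eventually (gt_mem_nhds hw)
  obtain ⟨c, hc, h1, h2⟩ := (eventually_mem_nhdsWithin.and ((s v p).and (s v' p'))).exists
  obtain ⟨r, hr, hb⟩ := Metric.eventually_nhds_iff_ball.1 (lo_geo h h0 hc)
  have hW := (((convexOn_dist y (convex_ball y r)).smul (le_of_lt hc)).add
    ((-L : E N →L[ℝ] ℝ).toLinearMap.convexOn (convex_ball y r))).convex_lt (-L y)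
  have mem : ∀ w, c * ‖w‖ < L w → ∀ᶠ t in 𝓝[>] (0 : ℝ), y + t • w ∈ ball y r ∧
      c * dist (y + t • w) y + -L (y + t • w) < -L y := fun w hw => by
    filter_upwards [(lim_geo y w).eventually (ball_mem_nhds y hr), self_mem_nhdsWithin] with t a b
    refine ⟨a, ?_⟩
    rw [dist_self_add_left, norm_smul, map_add, map_smul, Real.norm_of_nonneg (le_of_lt b),
      smul_eq_mul]
    nlinarith [mul_lt_mul_of_pos_left hw b]
  obtain ⟨t, a1, a2, a3, a4⟩ := (hv.and (hv'.and ((mem v h1).and (mem v' h2)))).exists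
  obtain ⟨x, -, b1, b2⟩ := hW.isPreconnected _ _ isOpen_interior isOpen_interior (fun x hx => by
    rw [← compl_frontier_eq_union_interior]
    intro e
    have b1 := hb x hx.1
    have b2 : c * dist x y + -L x < -L y := hx.2
    rw [hf x e, map_sub, ← dist_eq_norm] at b1
    linarith [(abs_le.1 b1).1]) ⟨_, a3, a1⟩ ⟨_, a4, a2⟩
  exact interior_subset b2 (interior_subset b1)

theorem move_geo (hs : SUR_st) {ρ : Fin m → E N → ℝ} (hρ : Cor ρ) (h : ∀ k, 0 ≤ ρ k y)
    {i j : Fin m} (hi : ρ i y = 0) (hj : ρ j y = 0) (hg : 0 < gam (ρ i) (ρ j) y) :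
    ∃ z, ρ i z = 0 ∧ ρ j z = 0 ∧ (∀ k, k ≠ i → k ≠ j → 0 < ρ k z) ∧ 0 < gam (ρ i) (ρ j) z := by
  have d : HasStrictFDerivAt (fun x (k : {k // ρ k y = 0}) => ρ k x)
      (ContinuousLinearMap.pi fun k => fderiv ℝ (ρ k) y) y :=
    hasStrictFDerivAt_pi.2 fun k => (hρ.sm k).contDiffAt.hasStrictFDerivAt (by simp)
  have e := d.map_nhds_eq_of_surj (LinearMap.range_eq_top.2 fun p => by
    obtain ⟨v, hv⟩ := hs N m ρ y hρ h fun k => if h : ρ k y = 0 then p ⟨k, h⟩ else 0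
    exact ⟨v, funext fun k => (hv k k.2).trans (dif_pos k.2)⟩)
  have u : ∀ᶠ x in 𝓝 y, 0 < gam (ρ i) (ρ j) x ∧ ∀ k, ρ k y ≠ 0 → 0 < ρ k x :=
    ((sm_gam (hρ.sm i) (hρ.sm j)).continuous.continuousAt.eventually (lt_mem_nhds hg)).and
      (eventually_all.2 fun k => by
        by_cases a : ρ k y = 0
        · simp [a]
        · exact ((hρ.sm k).continuous.continuousAt.eventually
            (lt_mem_nhds ((h k).lt_of_ne' a))).mono fun _ b _ => b)
  have t : Tendsto (fun (t : ℝ) (k : {k // ρ k y = 0}) => if k.1 = i ∨ k.1 = j then 0 else t)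
      (𝓝[>] 0) (𝓝 fun k => ρ k y) := tendsto_pi_nhds.2 fun k => by
    rw [k.2]
    split_ifs
    · exact tendsto_const_nhds
    · exact tendsto_id.mono_left nhdsWithin_le_nhds
  obtain ⟨t, ht, z, ⟨z1, z2⟩, z3⟩ := (eventually_mem_nhdsWithin.and
    (t.eventually (e ▸ image_mem_map u))).exists
  refine ⟨z, (congrFun z3 ⟨i, hi⟩).trans (if_pos (.inl rfl)),
    (congrFun z3 ⟨j, hj⟩).trans (if_pos (.inr rfl)), fun k a b => ?_, z1⟩
  by_cases c : ρ k y = 0
  · exact lt_of_lt_of_eq ht ((congrFun z3 ⟨k, c⟩).trans (if_neg (not_or.2 ⟨a, b⟩))).symm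
  · exact z2 k c

theorem GEO_pf (hs : SUR_st) : GEO_st := by
  intro N m ρ hρ hn
  simp only [NO, not_forall, not_le] at hn
  obtain ⟨y₀, h₀, i, j, ij, hi, hj, hg⟩ := hn
  obtain ⟨y, hi, hj, hk, hg⟩ := move_geo hs hρ h₀ hi hj hg
  have all : ∀ {P : Fin m → Prop}, P i → P j → (∀ k, k ≠ i → k ≠ j → P k) → ∀ k, P k :=
    fun a b c k => by
      by_cases d : k = i
      · rwa [d]
      by_cases e : k = j
      · rwa [e]
      exact c k d e
  set A := fderiv ℝ (ρ i) y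
  set B := fderiv ℝ (ρ j) y
  have sur : ∀ s t : ℝ, ∃ v, A v = s ∧ B v = t := fun s t => by
    obtain ⟨v, hv⟩ := hs N m ρ y hρ (all hi.ge hj.ge fun k a b => (hk k a b).le)
      fun k => if k = i then s else t
    exact ⟨v, (hv i hi).trans (if_pos rfl), (hv j hj).trans (if_neg ij.symm)⟩
  have ev : ∀ᶠ x in 𝓝 y, ∀ k, k ≠ i → k ≠ j → 0 < ρ k x := eventually_all.2 fun k =>
    eventually_all.2 fun a => eventually_all.2 fun b =>
      (hρ.sm k).continuous.continuousAt.eventually (lt_mem_nhds (hk k a b))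
  have cl : ∀ k x, ρ k x < 0 → x ∉ closure {x | ∀ k, 0 < ρ k x} := fun k x a b => a.not_ge
    (closure_minimal (fun z hz => (hz k).le) (isClosed_le continuous_const (hρ.sm k).continuous) b)
  have op : IsOpen {x | ∀ k, 0 < ρ k x} := by
    rw [ofPred_forall]
    exact isOpen_iInter_of_finite fun k => isOpen_lt continuous_const (hρ.sm k).continuous
  have out : y ∉ {x | ∀ k, 0 < ρ k x} := fun a => (a i).ne' hi
  refine ⟨y, gradient (ρ i) y, gradient (ρ j) y, ?_, by rwa [inner_grad], fun τ hτ => ?_, out,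
    fun ζ hζ hf => ?_⟩
  · simpa using LinearMap.finrank_le_finrank_of_surjective (f := (A.prod B).toLinearMap)
      fun p => (sur p.1 p.2).imp fun v hv => Prod.ext hv.1 hv.2
  · have hM : 0 < ‖A‖ + ‖B‖ + 1 := by positivity
    have hc : 0 < τ / (‖A‖ + ‖B‖ + 1) := by positivity
    obtain ⟨r, hr, hb⟩ := Metric.eventually_nhds_iff.1
      (ev.and ((lo_geo (hρ.sm i) hi hc).and (lo_geo (hρ.sm j) hj hc)))
    refine ⟨r, hr, fun x x0 xr hx => ?_⟩
    obtain ⟨b1, b2, b3⟩ := hb (y := x) (by rwa [dist_eq_norm])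
    simp only [inner_geo] at hx ⊢
    have k : ∀ P Q : E N →L[ℝ] ℝ, ‖Q‖ < ‖A‖ + ‖B‖ + 1 → τ * ‖x - y‖ ^ 2 ≤ P (x - y) * Q (x - y) →
        τ / (‖A‖ + ‖B‖ + 1) * ‖x - y‖ < |P (x - y)| := fun P Q a b => by
      have c : τ * ‖x - y‖ ^ 2 ≤ |P (x - y)| * (‖Q‖ * ‖x - y‖) :=
        b.trans ((le_abs_self _).trans ((abs_mul _ _).trans_le
          (mul_le_mul_of_nonneg_left (Q.le_opNorm _) (abs_nonneg _))))
      have d : 0 < |P (x - y)| := abs_pos.2 fun e => by
        rw [e, zero_mul] at b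
        exact b.not_gt (by positivity)
      rw [div_mul_eq_mul_div, div_lt_iff₀ hM]
      refine lt_of_mul_lt_mul_right ?_ x0.le
      nlinarith [mul_lt_mul_of_pos_left (mul_lt_mul_of_pos_right a x0) d]
    have k1 := k A B (by linarith [norm_nonneg A]) hx
    have k2 := k B A (by linarith [norm_nonneg B]) (by rwa [mul_comm (B _)])
    refine ⟨fun a => ?_, fun a => cl i x ?_⟩
    · have b : 0 < B (x - y) := (mul_pos_iff_of_pos_left a).1 (lt_of_lt_of_le (by positivity) hx)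
      rw [abs_of_pos a] at k1
      rw [abs_of_pos b] at k2
      exact all (by linarith [(abs_le.1 b2).1]) (by linarith [(abs_le.1 b3).1]) b1
    · rw [abs_of_neg a] at k1
      linarith [(abs_le.1 b2).2]
  have ins : ∀ v, 0 < A v → 0 < B v → ∀ᶠ t in 𝓝[>] (0 : ℝ),
      y + t • v ∈ interior {x | ∀ k, 0 < ρ k x} := fun v a b => by
    rw [op.interior_eq]
    filter_upwards [ray_geo (hρ.sm i) hi a, ray_geo (hρ.sm j) hj b, (lim_geo y v).eventually ev]
      with t using all (P := fun k => 0 < ρ k (y + t • v))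
  have ous : ∀ k v, ρ k y = 0 → fderiv ℝ (ρ k) y v < 0 → ∀ᶠ t in 𝓝[>] (0 : ℝ),
      y + t • v ∈ interior {x | ∀ k, 0 < ρ k x}ᶜ := fun k v a b => by
    rw [interior_compl]
    exact (ray_geo (hρ.sm k).neg (y := y) (v := v) (by simp [a])
      (by simpa [fderiv_fun_neg] using b)).mono fun t ht => cl k _ (neg_pos.1 ht)
  obtain ⟨v₀, a₀, b₀⟩ := sur 1 1
  obtain ⟨e, a₁, b₁⟩ := sur 1 (-1)
  have h0 : ζ y = 0 := hf y ⟨mem_closure_of_tendsto (lim_geo y v₀)
    ((ins v₀ (by simp [a₀]) (by simp [b₀])).mono fun _ a => interior_subset a),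
    fun a => out (interior_subset a)⟩
  have sg : ∀ k v v', 0 < A v → 0 < B v → ρ k y = 0 → fderiv ℝ (ρ k) y v' < 0 →
      fderiv ℝ ζ y v * fderiv ℝ ζ y v' ≤ 0 := fun k v v' a b c d => not_lt.1 fun e =>
    (pos_and_pos_or_neg_and_neg_of_mul_pos e).elim
      (fun p => sep_geo hζ hf h0 (ins v a b) (ous k v' c d) p.1 p.2) fun p =>
      sep_geo hζ.neg (by simpa using hf) (by simpa using h0) (ins v a b) (ous k v' c d)
        (by simpa [fderiv_fun_neg] using p.1) (by simpa [fderiv_fun_neg] using p.2)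
  have z : ∀ v, 0 < A v → 0 < B v → fderiv ℝ ζ y v = 0 := fun v a b => by
    have c := sg j v (v + (A v + B v) • e) a b hj (by
      change B _ < 0
      simp [b₁, a])
    have d := sg i v (v - (A v + B v) • e) a b hi (by
      change A _ < 0
      simp [a₁, b])
    rw [map_add] at c
    rw [map_sub] at d
    exact mul_self_eq_zero.1 (le_antisymm (by linarith) (mul_self_nonneg _))
  refine ⟨h0, ContinuousLinearMap.ext fun u => ?_⟩
  have := z (u + (|A u| + |B u| + 1) • v₀)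
    (by simp only [map_add, map_smul, a₀, smul_eq_mul]
        linarith [neg_abs_le (A u), abs_nonneg (B u)])
    (by simp only [map_add, map_smul, b₀, smul_eq_mul]
        linarith [neg_abs_le (B u), abs_nonneg (A u)])
  simpa [z v₀ (by simp [a₀]) (by simp [b₀])] using this

end Pool.Agent.MP_7504ef_an

end
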