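import Pool.Agent.Mg.F7504ef.Ga64163

section

/-!
Exponential test functions.
-/

set_option autoImplicit false

open MeasureTheory Filter Set Topology Bornology Metric
open scoped ContDiff

namespace Pool.Agent.MP_7504ef_an

variable {N : ℕ}

theorem der_exp (ε s : ℝ) :
    HasDerivAt (fun s => 1 - Real.exp (-(s / ε))) (Real.exp (-(s / ε)) / ε) s := by
  have := (((hasDerivAt_id s).div_const ε).neg.exp).const_sub 1
  refine this.congr_deriv ?_
  simp only [id, Pi.neg_apply]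
  ring

theorem der2_exp (ε s : ℝ) :
    HasDerivAt (fun s => Real.exp (-(s / ε)) / ε) (-(Real.exp (-(s / ε)) / ε ^ 2)) s := by
  have := (((hasDerivAt_id s).div_const ε).neg.exp).div_const ε
  refine this.congr_deriv ?_
  simp only [id, Pi.neg_apply]
  ring

theorem sm_exp {ρ : E N → ℝ} (h : ContDiff ℝ ∞ ρ) (ε : ℝ) :
    ContDiff ℝ ∞ fun y => 1 - Real.exp (-(ρ y / ε)) :=
  contDiff_const.sub (h.div_const ε).neg.exp

theorem le_one_exp (t : ℝ) : Real.exp (-t) * (1 + t) ≤ 1 := by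
  have h := Real.add_one_le_exp t
  have h2 : Real.exp (-t) * Real.exp t = 1 := by rw [← Real.exp_add]; simp
  nlinarith [Real.exp_pos (-t)]

theorem dom_exp {Ω : Set (E N)} {w ρ : E N → ℝ} (hD : Df Ω ρ) (hw : IntegrableOn w Ω) :
    Tendsto (fun ε : ℝ => ∫ x in Ω, w x * (Real.exp (-(ρ x / ε)) * (1 + ρ x / ε))) (𝓝[>] 0)
      (𝓝 0) := by
  have hc := hD.sm.continuous
  have := tendsto_integral_filter_of_dominated_convergence (μ := volume.restrict Ω) (l := 𝓝[>] (0 : ℝ))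
    (F := fun ε x => w x * (Real.exp (-(ρ x / ε)) * (1 + ρ x / ε))) (f := fun _ => (0 : ℝ))
    (fun x => ‖w x‖) (.of_forall fun ε => hw.aestronglyMeasurable.mul
      (Continuous.aestronglyMeasurable (by fun_prop))) ?_ hw.norm ?_
  · simpa using this
  · filter_upwards [self_mem_nhdsWithin] with ε hε
    filter_upwards [ae_restrict_mem hD.op.measurableSet] with x hx
    have h0 : 0 < ρ x / ε := div_pos (hD.pos x hx) hε
    rw [norm_mul]
    refine mul_le_of_le_one_right (norm_nonneg _) ?_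
    rw [Real.norm_eq_abs, abs_of_nonneg (by positivity)]
    exact le_one_exp _
  · filter_upwards [ae_restrict_mem hD.op.measurableSet] with x hx
    have h1 : Tendsto (fun ε : ℝ => ρ x / ε) (𝓝[>] 0) atTop := by
      simp only [div_eq_mul_inv]
      exact tendsto_inv_nhdsGT_zero.const_mul_atTop (hD.pos x hx)
    have h2 : Tendsto (fun t : ℝ => Real.exp (-t) * (1 + t)) atTop (𝓝 0) := by
      have a := Real.tendsto_pow_mul_exp_neg_atTop_nhds_zero 0
      have b := Real.tendsto_pow_mul_exp_neg_atTop_nhds_zero 1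
      have := a.add b
      simp only [add_zero] at this
      exact this.congr fun t => by ring
    simpa using (h2.comp h1).const_mul (w x)

theorem amgm_exp (ρ : E N → ℝ) (x : E N) {a d ε : ℝ} (hd : 0 < d) :
    a * (∑ i, |pd i ρ x|) / ε ≤ d / 2 * (gam ρ ρ x / ε ^ 2) + N * (a ^ 2 / (2 * d)) := by
  have e : (N : ℝ) * (a ^ 2 / (2 * d)) = ∑ _i : Fin N, a ^ 2 / (2 * d) := by simp
  rw [e, gam, Finset.mul_sum, Finset.sum_div, Finset.sum_div, Finset.mul_sum,
    ← Finset.sum_add_distrib]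
  refine Finset.sum_le_sum fun i _ => ?_
  have h1 : pd i ρ x * pd i ρ x / ε ^ 2 = (|pd i ρ x| / ε) ^ 2 := by
    rw [div_pow, sq_abs, sq (pd i ρ x)]
  rw [h1, mul_div_assoc]
  generalize |pd i ρ x| / ε = y
  have : d / 2 * y ^ 2 + a ^ 2 / (2 * d) - a * y = (d * y - a) ^ 2 / (2 * d) := by
    field_simp
    ring
  have : 0 ≤ (d * y - a) ^ 2 / (2 * d) := by positivity
  linarith

theorem ex_bd_exp {Ω : Set (E N)} {φ : E N → ℝ} (hb : IsBounded Ω) (hφ : ContDiff ℝ ∞ φ) :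
    ∃ M, 0 < M ∧ ∀ x ∈ Ω, |φ x| ≤ M ∧ |lap φ x| ≤ M ∧ ∀ i, |pd i φ x| ≤ M := by
  obtain ⟨M, h0, hM⟩ := ex_bd (f := fun x => |φ x| + |lap φ x| + ∑ i, |pd i φ x|) hb
    ((hφ.continuous.abs.add (sm_lap hφ).continuous.abs).add
      (continuous_finsetSum _ fun i _ => (sm_pd hφ i).continuous.abs))
  refine ⟨M, h0, fun x hx => ?_⟩
  have h1 := (le_abs_self _).trans (hM x hx)
  have h2 : 0 ≤ ∑ i, |pd i φ x| := Finset.sum_nonneg fun _ _ => abs_nonneg _
  refine ⟨by linarith [abs_nonneg (lap φ x)], by linarith [abs_nonneg (φ x)], fun i => ?_⟩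
  have := Finset.single_le_sum (f := fun i => |pd i φ x|) (fun _ _ => abs_nonneg _)
    (Finset.mem_univ i)
  linarith [abs_nonneg (lap φ x), abs_nonneg (φ x)]

theorem key_exp {Ω : Set (E N)} {μ : Measure (E N)} {w ρ φ : E N → ℝ} {C d : ℝ} (hD : Df Ω ρ)
    [IsFiniteMeasure μ] (hw : IntegrableOn w Ω) (h0 : ∀ x, 0 ≤ w x)
    (hl : ∀ x ∈ Ω, lap ρ x ≤ C * (ρ x + ∑ i, |pd i ρ x|)) (hK : Kato Ω μ w ρ)
    (hφ : ContDiff ℝ ∞ φ) (hd : 0 < d) (hdφ : ∀ x ∈ Ω, d ≤ φ x) :
    ∃ C1 : ℝ, 0 ≤ C1 ∧ ∀ ε > 0, -(∫ x in Ω, w x * lap φ x) -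
      C1 * (∫ x in Ω, w x * (Real.exp (-(ρ x / ε)) * (1 + ρ x / ε))) +
      d / 2 * (∫ x in Ω, w x * (Real.exp (-(ρ x / ε)) * (gam ρ ρ x / ε ^ 2))) ≤
        ∫ x in Ω, φ x ∂μ := by
  obtain ⟨M, hM0, hM⟩ := ex_bd_exp hD.bd hφ
  have hm := hD.op.measurableSet
  have hc := hD.sm.continuous
  have hg := (sm_gam hD.sm hD.sm).continuous
  refine ⟨M + M * |C| + N * ((M * |C| + 2 * M) ^ 2 / (2 * d)), by positivity, fun ε hε => ?_⟩
  set C1 := M + M * |C| + N * ((M * |C| + 2 * M) ^ 2 / (2 * d)) with hC1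
  have hs := hφ.mul (sm_exp hD.sm ε)
  have hE : ∀ x ∈ Ω, 0 ≤ 1 - Real.exp (-(ρ x / ε)) ∧ 1 - Real.exp (-(ρ x / ε)) ≤ ρ x / ε ∧
      0 < ρ x / ε := fun x hx => by
    have h1 : 0 < ρ x / ε := div_pos (hD.pos x hx) hε
    refine ⟨sub_nonneg.2 (Real.exp_le_one_iff.2 (by linarith)), ?_, h1⟩
    linarith [Real.add_one_le_exp (-(ρ x / ε))]
  have k1 := hK (fun y => φ y * (1 - Real.exp (-(ρ y / ε))))
    (M / ε + 2 * M ^ 2 / ε ^ 2 + N * (2 * M ^ 2 / ε)) hs fun x hx => by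
      obtain ⟨e1, e2, e3⟩ := hE x hx
      obtain ⟨m1, -, m3⟩ := hM x hx
      have p1 := hD.pos x hx
      have p2 : 0 ≤ φ x := hd.le.trans (hdφ x hx)
      have p3 : φ x ≤ M := (le_abs_self _).trans m1
      have p4 := Real.exp_pos (-(ρ x / ε))
      have p5 := gam_nonneg ρ x
      refine ⟨mul_nonneg p2 e1, ?_, ?_⟩
      · have : φ x * (1 - Real.exp (-(ρ x / ε))) ≤ M / ε * ρ x := by
          calc _ ≤ M * (ρ x / ε) := mul_le_mul p3 e2 e1 hM0.le
            _ = _ := by ring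
        have : 0 ≤ (2 * M ^ 2 / ε ^ 2 + N * (2 * M ^ 2 / ε)) * ρ x := by positivity
        linarith
      · have q : gam (fun y => φ y * (1 - Real.exp (-(ρ y / ε))))
            (fun y => φ y * (1 - Real.exp (-(ρ y / ε)))) x ≤
            2 * M ^ 2 / ε ^ 2 * gam ρ ρ x + N * (2 * M ^ 2 / ε * ρ x) := by
          have e : (N : ℝ) * (2 * M ^ 2 / ε * ρ x) = ∑ _i : Fin N, 2 * M ^ 2 / ε * ρ x := by simp
          rw [e, gam, gam, Finset.mul_sum, ← Finset.sum_add_distrib]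
          refine Finset.sum_le_sum fun i _ => ?_
          rw [pd_mul (sm_d hφ x) (sm_d (sm_exp hD.sm ε) x), pd_comp (der_exp ε _) (sm_d hD.sm x)]
          have r1 : (pd i φ x) ^ 2 ≤ M ^ 2 := sq_le_sq' (abs_le.1 (m3 i)).1 (abs_le.1 (m3 i)).2
          have r2 : (φ x * Real.exp (-(ρ x / ε))) ^ 2 ≤ M ^ 2 :=
            pow_le_pow_left₀ (by positivity) (by nlinarith) 2
          have r3 : (1 - Real.exp (-(ρ x / ε))) ^ 2 ≤ ρ x / ε := by nlinarith
          have r4 : ((1 - Real.exp (-(ρ x / ε))) * pd i φ x) ^ 2 ≤ M ^ 2 / ε * ρ x := by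
            rw [mul_pow]
            calc _ ≤ ρ x / ε * M ^ 2 := mul_le_mul r3 r1 (sq_nonneg _) e3.le
              _ = _ := by ring
          have r5 : (φ x * (Real.exp (-(ρ x / ε)) / ε * pd i ρ x)) ^ 2 ≤
              M ^ 2 / ε ^ 2 * (pd i ρ x * pd i ρ x) := by
            calc _ = (φ x * Real.exp (-(ρ x / ε))) ^ 2 * (pd i ρ x / ε) ^ 2 := by ring
              _ ≤ M ^ 2 * (pd i ρ x / ε) ^ 2 := mul_le_mul_of_nonneg_right r2 (sq_nonneg _)
              _ = _ := by ring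
          generalize φ x * (Real.exp (-(ρ x / ε)) / ε * pd i ρ x) = a at r5 ⊢
          generalize (1 - Real.exp (-(ρ x / ε))) * pd i φ x = b at r4 ⊢
          have r6 : 2 * M ^ 2 / ε ^ 2 * (pd i ρ x * pd i ρ x) + 2 * M ^ 2 / ε * ρ x =
              2 * (M ^ 2 / ε ^ 2 * (pd i ρ x * pd i ρ x)) + 2 * (M ^ 2 / ε * ρ x) := by ring
          rw [r6]
          nlinarith [sq_nonneg (a - b)]
        have : 0 ≤ (M / ε + 2 * M ^ 2 / ε ^ 2) * ρ x + (M / ε + N * (2 * M ^ 2 / ε)) * gam ρ ρ x := by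
          positivity
        linarith
  have k2 : ∫ x in Ω, φ x * (1 - Real.exp (-(ρ x / ε))) ∂μ ≤ ∫ x in Ω, φ x ∂μ := by
    refine setIntegral_mono_on (int_cont hD.bd hs.continuous) (int_cont hD.bd hφ.continuous) hm
      fun x hx => ?_
    have p2 : 0 ≤ φ x := hd.le.trans (hdφ x hx)
    nlinarith [Real.exp_pos (-(ρ x / ε))]
  have i1 := int_mul hD.bd hm hw (sm_lap hφ).continuous
  have i2 := int_mul (g := fun x => Real.exp (-(ρ x / ε)) * (1 + ρ x / ε)) hD.bd hm hw (by fun_prop)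
  have i3 := int_mul (g := fun x => Real.exp (-(ρ x / ε)) * (gam ρ ρ x / ε ^ 2)) hD.bd hm hw
    (by fun_prop)
  have k3 : ∫ x in Ω, w x * lap (fun y => φ y * (1 - Real.exp (-(ρ y / ε)))) x ≤
      ∫ x in Ω, (w x * lap φ x + C1 * (w x * (Real.exp (-(ρ x / ε)) * (1 + ρ x / ε))) -
        d / 2 * (w x * (Real.exp (-(ρ x / ε)) * (gam ρ ρ x / ε ^ 2)))) := by
    refine setIntegral_mono_on (int_mul hD.bd hm hw (sm_lap hs).continuous)
      ((i1.add (i2.const_mul _)).sub (i3.const_mul _)) hm fun x hx => ?_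
    obtain ⟨e1, e2, e3⟩ := hE x hx
    obtain ⟨m1, m2, m3⟩ := hM x hx
    have p1 := hD.pos x hx
    have p2 : 0 ≤ φ x := hd.le.trans (hdφ x hx)
    have p3 : φ x ≤ M := (le_abs_self _).trans m1
    have p4 := Real.exp_pos (-(ρ x / ε))
    have p5 := gam_nonneg ρ x
    have p6 : 0 ≤ ∑ i, |pd i ρ x| := Finset.sum_nonneg fun _ _ => abs_nonneg _
    rw [lap_mul (sm_c2 hφ x) (sm_c2 (sm_exp hD.sm ε) x),
      lap_comp (.of_forall (der_exp ε)) (der2_exp ε _) (sm_c2 hD.sm x),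
      gam_comp (der_exp ε _) (sm_d hD.sm x)]
    have a1 : φ x * lap ρ x ≤ M * |C| * (ρ x + ∑ i, |pd i ρ x|) := by
      have : lap ρ x ≤ |C| * (ρ x + ∑ i, |pd i ρ x|) :=
        (hl x hx).trans (mul_le_mul_of_nonneg_right (le_abs_self C) (by positivity))
      calc _ ≤ φ x * (|C| * (ρ x + ∑ i, |pd i ρ x|)) := mul_le_mul_of_nonneg_left this p2
        _ ≤ M * (|C| * (ρ x + ∑ i, |pd i ρ x|)) := mul_le_mul_of_nonneg_right p3 (by positivity)
        _ = _ := by ring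
    have a2 : gam φ ρ x ≤ M * ∑ i, |pd i ρ x| := by
      rw [gam, Finset.mul_sum]
      refine Finset.sum_le_sum fun i _ => (le_abs_self _).trans ?_
      rw [abs_mul]
      exact mul_le_mul_of_nonneg_right (m3 i) (abs_nonneg _)
    have a3 := amgm_exp ρ x (a := M * |C| + 2 * M) (ε := ε) hd
    have a4 : (φ x * lap ρ x + 2 * gam φ ρ x) / ε ≤
        M * |C| * (ρ x / ε) + (M * |C| + 2 * M) * (∑ i, |pd i ρ x|) / ε := by
      calc _ ≤ (M * |C| * ρ x + (M * |C| + 2 * M) * (∑ i, |pd i ρ x|)) / ε :=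
            div_le_div_of_nonneg_right (by linarith) hε.le
        _ = _ := by ring
    have a5 : d * (gam ρ ρ x / ε ^ 2) ≤ φ x * (gam ρ ρ x / ε ^ 2) :=
      mul_le_mul_of_nonneg_right (hdφ x hx) (by positivity)
    have a6 : 0 ≤ (M + N * ((M * |C| + 2 * M) ^ 2 / (2 * d))) * (ρ x / ε) + M * |C| := by positivity
    have a7 : (φ x * lap ρ x + 2 * gam φ ρ x) / ε - φ x * (gam ρ ρ x / ε ^ 2) - lap φ x ≤
        C1 * (1 + ρ x / ε) - d / 2 * (gam ρ ρ x / ε ^ 2) := by
      rw [hC1]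
      linarith [(abs_le.1 m2).1]
    have a8 := mul_le_mul_of_nonneg_left (mul_le_mul_of_nonneg_left a7 p4.le) (h0 x)
    have a9 : w x * (φ x * (Real.exp (-(ρ x / ε)) / ε * lap ρ x +
        -(Real.exp (-(ρ x / ε)) / ε ^ 2) * gam ρ ρ x) + (1 - Real.exp (-(ρ x / ε))) * lap φ x +
        2 * (Real.exp (-(ρ x / ε)) / ε * gam φ ρ x)) = w x * lap φ x + w x *
        (Real.exp (-(ρ x / ε)) * ((φ x * lap ρ x + 2 * gam φ ρ x) / ε -
          φ x * (gam ρ ρ x / ε ^ 2) - lap φ x)) := by ring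
    rw [a9]
    linarith
  have i4 : IntegrableOn (fun x => w x * lap φ x +
      C1 * (w x * (Real.exp (-(ρ x / ε)) * (1 + ρ x / ε)))) Ω := i1.add (i2.const_mul _)
  rw [integral_sub i4 (i3.const_mul _), integral_add i1 (i2.const_mul _),
    integral_const_mul, integral_const_mul] at k3
  linarith

theorem EXP_pf : EXP_st := by
  intro N Ω μ w ρ C hD hμ hw h0 hl hK
  have hm := hD.op.measurableSet
  have hc := hD.sm.continuous
  have hg := (sm_gam hD.sm hD.sm).continuous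
  have hA := dom_exp hD hw
  refine ⟨fun φ hφ hp => ?_, fun i => ?_⟩
  · have hμ0 : 0 ≤ μ.real Ω := measureReal_nonneg
    refine le_of_forall_pos_le_add fun η hη => ?_
    obtain ⟨C1, -, h1⟩ := key_exp (φ := fun x => φ x + η / (μ.real Ω + 1))
      (d := η / (μ.real Ω + 1)) hD hw h0 hl hK (hφ.add contDiff_const) (by positivity)
      fun x hx => by linarith [hp x hx]
    have e1 : ∀ x, lap (fun x => φ x + η / (μ.real Ω + 1)) x = lap φ x := fun x => by
      rw [lap_add (sm_c2 hφ x) contDiffAt_const, lap_const, add_zero]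
    have e2 : ∫ x in Ω, (φ x + η / (μ.real Ω + 1)) ∂μ ≤ ∫ x in Ω, φ x ∂μ + η := by
      rw [integral_add (int_cont hD.bd hφ.continuous) (integrable_const _), setIntegral_const,
        smul_eq_mul]
      have : μ.real Ω * (η / (μ.real Ω + 1)) ≤ η := by
        rw [← mul_div_assoc, div_le_iff₀ (by positivity)]
        nlinarith
      linarith
    simp only [e1] at h1
    have t1 := (tendsto_const_nhds (x := -(∫ x in Ω, w x * lap φ x))).sub (hA.const_mul C1)
    rw [mul_zero, sub_zero] at t1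
    refine le_of_tendsto t1 ?_
    filter_upwards [self_mem_nhdsWithin] with ε hε
    have h2 := h1 ε hε
    have h3 : 0 ≤ η / (μ.real Ω + 1) / 2 *
        ∫ x in Ω, w x * (Real.exp (-(ρ x / ε)) * (gam ρ ρ x / ε ^ 2)) :=
      mul_nonneg (by positivity) (integral_nonneg fun x => mul_nonneg (h0 x)
        (mul_nonneg (Real.exp_pos _).le (div_nonneg (gam_nonneg ρ x) (sq_nonneg _))))
    linarith
  · obtain ⟨C1, -, h1⟩ := key_exp (φ := fun _ => 1) (d := 1) hD hw h0 hl hK contDiff_const one_pos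
      fun _ _ => le_rfl
    simp only [lap_const, mul_zero, integral_zero, neg_zero, zero_sub, setIntegral_const,
      smul_eq_mul, mul_one] at h1
    have hμ0 : 0 ≤ μ.real Ω := measureReal_nonneg
    rw [Metric.tendsto_nhds]
    intro η hη
    obtain ⟨θ, hθ, hθ'⟩ : ∃ θ : ℝ, 0 < θ ∧ θ * (2 * μ.real Ω) < η :=
      ⟨η / (2 * μ.real Ω + 1), by positivity, by
        rw [div_mul_eq_mul_div, div_lt_iff₀ (by positivity)]
        nlinarith⟩
    have t1 := (tendsto_const_nhds (x := θ * (2 * μ.real Ω))).add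
      (hA.const_mul (θ * (2 * C1) + 1 / (4 * θ)))
    rw [mul_zero, add_zero] at t1
    filter_upwards [self_mem_nhdsWithin, t1.eventually (gt_mem_nhds hθ')] with ε hε h2
    have hε' : 0 < ε := hε
    have hp := (sm_pd hD.sm i).continuous
    have i2 := int_mul (g := fun x => Real.exp (-(ρ x / ε)) * (1 + ρ x / ε)) hD.bd hm hw
      (by fun_prop)
    have i3 := int_mul (g := fun x => Real.exp (-(ρ x / ε)) * (gam ρ ρ x / ε ^ 2)) hD.bd hm hw
      (by fun_prop)
    have i4 := int_mul (g := fun x => Real.exp (-(ρ x / ε)) * |pd i ρ x| / ε) hD.bd hm hw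
      (by fun_prop)
    have k3 : ∫ x in Ω, w x * (Real.exp (-(ρ x / ε)) * |pd i ρ x| / ε) ≤
        ∫ x in Ω, (θ * (w x * (Real.exp (-(ρ x / ε)) * (gam ρ ρ x / ε ^ 2))) +
          1 / (4 * θ) * (w x * (Real.exp (-(ρ x / ε)) * (1 + ρ x / ε)))) := by
      refine setIntegral_mono_on i4 ((i3.const_mul _).add (i2.const_mul _)) hm fun x hx => ?_
      have e3 : 0 < ρ x / ε := div_pos (hD.pos x hx) hε'
      have a1 : (|pd i ρ x| / ε) ^ 2 ≤ gam ρ ρ x / ε ^ 2 := by
        rw [div_pow, sq_abs]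
        exact div_le_div_of_nonneg_right (pd_sq_le ρ x i) (sq_nonneg _)
      have a2 : |pd i ρ x| / ε ≤ θ * (|pd i ρ x| / ε) ^ 2 + 1 / (4 * θ) := by
        generalize |pd i ρ x| / ε = y
        have : θ * y ^ 2 + 1 / (4 * θ) - y = (2 * θ * y - 1) ^ 2 / (4 * θ) := by
          field_simp
          ring
        have : 0 ≤ (2 * θ * y - 1) ^ 2 / (4 * θ) := by positivity
        linarith
      have a3 : |pd i ρ x| / ε ≤ θ * (gam ρ ρ x / ε ^ 2) + 1 / (4 * θ) * (1 + ρ x / ε) := by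
        have : 0 ≤ 1 / (4 * θ) * (ρ x / ε) := by positivity
        nlinarith [mul_le_mul_of_nonneg_left a1 hθ.le]
      have a8 := mul_le_mul_of_nonneg_left
        (mul_le_mul_of_nonneg_left a3 (Real.exp_pos (-(ρ x / ε))).le) (h0 x)
      rw [mul_div_assoc]
      linarith
    rw [integral_add (i3.const_mul _) (i2.const_mul _), integral_const_mul,
      integral_const_mul] at k3
    have k4 := mul_le_mul_of_nonneg_left (h1 ε hε') hθ.le
    rw [Real.dist_eq, sub_zero, abs_of_nonneg (integral_nonneg fun x => mul_nonneg (h0 x)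
      (div_nonneg (mul_nonneg (Real.exp_pos _).le (abs_nonneg _)) hε'.le))]
    linarith

end Pool.Agent.MP_7504ef_an

end

section

/-!
A subharmonic function that lives in a truncated cone and is large near the vertex.
-/

set_option autoImplicit false

open MeasureTheory Filter Set Topology Bornology Metric
open scoped ContDiff

namespace Pool.Agent.MP_7504ef_an

variable {N : ℕ}

theorem sm_lin_fun (a y : E N) : ContDiff ℝ ∞ fun x : E N => inner ℝ a (x - y) :=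
  contDiff_const.inner ℝ (contDiff_id.sub contDiff_const)

theorem pd_lin_fun (a y : E N) (i : Fin N) :
    pd i (fun x => inner ℝ a (x - y)) = fun _ => a i := by
  ext x
  have := ((innerSL ℝ a).hasFDerivAt.comp x ((hasFDerivAt_id x).sub_const y)).fderiv
  rw [pd, show (fun x : E N => inner ℝ a (x - y)) = (innerSL ℝ a) ∘ fun x => id x - y from rfl,
    this]
  simp [EuclideanSpace.inner_single_right]

theorem lap_lin_fun (a y x : E N) : lap (fun x => inner ℝ a (x - y)) x = 0 := by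
  simp [lap, pd_lin_fun, pd_const]

theorem gam_lin_fun (a b y x : E N) :
    gam (fun x => inner ℝ a (x - y)) (fun x => inner ℝ b (x - y)) x = inner ℝ a b := by
  simp only [gam, pd_lin_fun]
  rw [PiLp.inner_apply]
  exact Finset.sum_congr rfl fun j _ => by simp [mul_comm]

theorem gam_nsq_lin_fun (a y x : E N) :
    gam (fun x => ‖x - y‖ ^ 2) (fun x => inner ℝ a (x - y)) x = 2 * inner ℝ a (x - y) := by
  simp only [gam, pd_lin_fun, pd_nsq]
  rw [PiLp.inner_apply, Finset.mul_sum]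
  exact Finset.sum_congr rfl fun j _ => by simp; ring

/-- the quadratic form -/
noncomputable def qq_fun (a b y : E N) (τ : ℝ) (x : E N) : ℝ :=
  inner ℝ a (x - y) * inner ℝ b (x - y) - τ * ‖x - y‖ ^ 2

theorem sm_qq_fun (a b y : E N) (τ : ℝ) : ContDiff ℝ ∞ (qq_fun a b y τ) :=
  ((sm_lin_fun a y).mul (sm_lin_fun b y)).sub (contDiff_const.mul (sm_nsq y))

theorem lap_qq_fun (a b y : E N) (τ : ℝ) (x : E N) :
    lap (qq_fun a b y τ) x = 2 * inner ℝ a b - τ * (2 * N) := by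
  have := lap_sub (sm_c2 ((sm_lin_fun a y).mul (sm_lin_fun b y)) x)
    (sm_c2 (contDiff_const.mul (sm_nsq y) : ContDiff ℝ ∞ fun z : E N => τ * ‖z - y‖ ^ 2) x)
  rw [lap_mul (sm_c2 (sm_lin_fun a y) x) (sm_c2 (sm_lin_fun b y) x), lap_lin_fun, lap_lin_fun,
    gam_lin_fun, lap_cmul τ (sm_c2 (sm_nsq y) x), lap_nsq] at this
  refine Eq.trans this ?_
  ring

theorem gam_qq_fun (a b y : E N) (τ : ℝ) (x : E N) :
    gam (qq_fun a b y τ) (fun z => ‖z - y‖ ^ 2) x = 4 * qq_fun a b y τ x := by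
  have e : gam (fun z => ‖z - y‖ ^ 2) (qq_fun a b y τ) x =
      gam (fun z => ‖z - y‖ ^ 2) (fun z => inner ℝ a (z - y) * inner ℝ b (z - y)) x -
        τ * gam (fun z => ‖z - y‖ ^ 2) (fun z => ‖z - y‖ ^ 2) x := by
    simp only [gam, Finset.mul_sum, ← Finset.sum_sub_distrib]
    refine Finset.sum_congr rfl fun j _ => ?_
    have := pd_sub (i := j) (sm_d ((sm_lin_fun a y).mul (sm_lin_fun b y)) x)
      (sm_d (contDiff_const.mul (sm_nsq y) : ContDiff ℝ ∞ fun z : E N => τ * ‖z - y‖ ^ 2) x)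
    rw [pd_cmul τ (sm_d (sm_nsq y) x)] at this
    rw [show pd j (qq_fun a b y τ) x = _ from this]
    ring
  rw [gam_comm, e, gam_mul (sm_d (sm_lin_fun a y) x) (sm_d (sm_lin_fun b y) x), gam_nsq_lin_fun,
    gam_nsq_lin_fun, gam_nsq, qq_fun]
  ring

theorem qq_le_fun (a b y : E N) {τ : ℝ} (hτ : 0 ≤ τ) (x : E N) :
    qq_fun a b y τ x ≤ ‖a‖ * ‖b‖ * ‖x - y‖ ^ 2 := by
  have h1 := abs_real_inner_le_norm a (x - y)
  have h2 := abs_real_inner_le_norm b (x - y)
  have h3 := mul_le_mul h1 h2 (abs_nonneg _) (by positivity)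
  rw [← abs_mul] at h3
  have h4 := le_abs_self (inner ℝ a (x - y) * inner ℝ b (x - y))
  have h5 : 0 ≤ τ * ‖x - y‖ ^ 2 := by positivity
  rw [qq_fun]
  nlinarith

/-- the singular function -/
noncomputable def ff_fun (a b y : E N) (τ β c : ℝ) (x : E N) : ℝ :=
  c * (qq_fun a b y τ x * (‖x - y‖ ^ 2) ^ (-β))

theorem nsq_pos_fun {x y : E N} (h : x ≠ y) : 0 < ‖x - y‖ ^ 2 :=
  pow_pos (norm_pos_iff.2 (sub_ne_zero.2 h)) 2

theorem cd_ff_fun (a b y : E N) (τ β c : ℝ) {x : E N} (h : x ≠ y) :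
    ContDiffAt ℝ 2 (ff_fun a b y τ β c) x :=
  contDiffAt_const.mul ((sm_c2 (sm_qq_fun a b y τ) x).mul
    ((sm_c2 (sm_nsq y) x).rpow_const_of_ne (nsq_pos_fun h).ne'))

theorem lap_ff_fun (a b y : E N) (τ β c : ℝ) {x : E N} (h : x ≠ y) :
    lap (ff_fun a b y τ β c) x = c * ((‖x - y‖ ^ 2) ^ (-β) * (2 * inner ℝ a b - τ * (2 * N) +
      β * (4 * β - 2 * N - 4) * (qq_fun a b y τ x / ‖x - y‖ ^ 2))) := by
  have hs := nsq_pos_fun h
  have c1 := sm_c2 (sm_qq_fun a b y τ) x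
  have c2 := sm_c2 (sm_nsq y) x
  have c3 : ContDiffAt ℝ 2 (fun z : E N => (‖z - y‖ ^ 2) ^ (-β)) x := c2.rpow_const_of_ne hs.ne'
  have d1 : ∀ t : ℝ, t ≠ 0 → HasDerivAt (fun t : ℝ => t ^ (-β)) (-β * t ^ (-β - 1)) t :=
    fun t ht => Real.hasDerivAt_rpow_const (Or.inl ht)
  have d2 : HasDerivAt (fun t : ℝ => -β * t ^ (-β - 1))
      (-β * ((-β - 1) * (‖x - y‖ ^ 2) ^ (-β - 1 - 1))) (‖x - y‖ ^ 2) :=
    (Real.hasDerivAt_rpow_const (Or.inl hs.ne')).const_mul _
  have l1 := lap_comp (f := fun z : E N => ‖z - y‖ ^ 2) (x := x) (Φ := fun t : ℝ => t ^ (-β))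
    ((eventually_ne_nhds hs.ne').mono d1) d2 c2
  have g1 := gam_comp (k := qq_fun a b y τ) (f := fun z : E N => ‖z - y‖ ^ 2) (x := x)
    (d1 _ hs.ne') (c2_d c2)
  have l2 := lap_cmul c (c1.mul c3)
  rw [lap_mul c1 c3, l1, g1, lap_nsq, gam_nsq, gam_qq_fun, lap_qq_fun,
    Real.rpow_sub_one hs.ne' (-β - 1), Real.rpow_sub_one hs.ne'] at l2
  refine Eq.trans l2 ?_
  generalize ‖x - y‖ ^ 2 = s at hs
  field_simp
  ring

theorem ff_le_fun (a b y : E N) {τ β c : ℝ} (hτ : 0 ≤ τ) (hc : 0 ≤ c) (x : E N) :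
    ff_fun a b y τ β c x ≤ c * (‖a‖ * ‖b‖) * (‖x - y‖ ^ 2) ^ (1 - β) := by
  by_cases h : x = y
  · have : 0 ≤ (‖x - y‖ ^ 2) ^ (1 - β) := Real.rpow_nonneg (by positivity) _
    have e : ff_fun a b y τ β c x = 0 := by simp [ff_fun, qq_fun, h]
    rw [e]
    positivity
  · have hs := nsq_pos_fun h
    have h1 := mul_le_mul_of_nonneg_right (qq_le_fun a b y hτ x) (Real.rpow_nonneg hs.le (-β))
    rw [sub_eq_add_neg 1, Real.rpow_add hs, Real.rpow_one, ff_fun, mul_assoc c, ← mul_assoc (_ * _)]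
    exact mul_le_mul_of_nonneg_left h1 hc

/-- functions with a weak singularity are integrable -/
theorem int_fun {Ω : Set (E N)} (hb : IsBounded Ω) (hN : 1 ≤ N) {u : E N → ℝ} (hu : Measurable u)
    (y : E N) {C α : ℝ} (hα : α < N) (h : ∀ x, |u x| ≤ C * ‖x - y‖ ^ (-α)) : IntegrableOn u Ω := by
  obtain ⟨R, hR⟩ := hb.subset_ball y
  have i : IntegrableOn (fun v => u (v + y)) (ball 0 R) :=
    integrableOn_ball_of_norm_le_rpow (C := C) (α := α) (by simpa using hN) (by simpa using hα)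
      (.of_forall fun v => by simpa using h (v + y))
      (hu.comp (measurable_add_const y)).aestronglyMeasurable
  have j := ((measurePreserving_sub_right volume y).integrableOn_comp_preimage
    (MeasurableEquiv.subRight y).measurableEmbedding).2 i
  have k : IntegrableOn u ((fun x => x - y) ⁻¹' ball 0 R) := by
    simpa [Function.comp_def] using j
  exact k.mono_set fun x hx => by simpa [dist_eq_norm] using hR hx

/-- a small ball of directions -/
theorem dir_fun {a b : E N} (y : E N) {τ : ℝ} (hτ : τ < inner ℝ a b) (hp : 0 < inner ℝ a b) :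
    ∃ (o : E N) (κ q : ℝ), 0 < κ ∧ 0 < q ∧ ∀ δ > 0, ∀ x ∈ closedBall (y + δ • o) (κ * δ),
      ‖x - y‖ ≤ δ ∧ 0 < inner ℝ a (x - y) ∧ q * δ ^ 2 ≤ qq_fun a b y τ x := by
  have ha : 0 < ‖a‖ := norm_pos_iff.2 fun e => by simp [e] at hp
  set o : E N := (2 * ‖a‖)⁻¹ • a with ho
  have n1 : ‖o‖ < 1 := by
    rw [ho, norm_smul, Real.norm_of_nonneg (by positivity)]
    field_simp
    norm_num
  have n2 : 0 < inner ℝ a o := by
    rw [ho, real_inner_smul_right, real_inner_self_eq_norm_sq]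
    positivity
  have n3 : 0 < qq_fun a b 0 τ o := by
    have : qq_fun a b 0 τ o = ((2 * ‖a‖)⁻¹ * ‖a‖) ^ 2 * (inner ℝ a b - τ) := by
      rw [qq_fun, sub_zero, ho, real_inner_smul_right, real_inner_smul_right,
        real_inner_self_eq_norm_sq, norm_smul, Real.norm_of_nonneg (by positivity),
        real_inner_comm a b]
      ring
    rw [this]
    have := sub_pos.2 hτ
    positivity
  have e1 : ∀ᶠ v in 𝓝 o, ‖v‖ < 1 := (continuous_norm.tendsto o).eventually_lt_const n1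
  have e2 : ∀ᶠ v in 𝓝 o, 0 < inner ℝ a v :=
    ((continuous_const.inner continuous_id).tendsto o).eventually_const_lt n2
  have e3 : ∀ᶠ v in 𝓝 o, qq_fun a b 0 τ o / 2 < qq_fun a b 0 τ v :=
    ((sm_qq_fun a b 0 τ).continuous.tendsto o).eventually_const_lt (by linarith)
  obtain ⟨κ, hκ, hk⟩ := Metric.nhds_basis_closedBall.eventually_iff.1 (e1.and (e2.and e3))
  refine ⟨o, κ, qq_fun a b 0 τ o / 2, hκ, by linarith, fun δ hδ x hx => ?_⟩
  obtain ⟨v, hv⟩ : ∃ v : E N, x - y = δ • v := ⟨δ⁻¹ • (x - y), by rw [smul_inv_smul₀ hδ.ne']⟩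
  have hm : v ∈ closedBall o κ := by
    rw [mem_closedBall_iff_norm] at hx ⊢
    rw [← sub_sub, hv, ← smul_sub, norm_smul, Real.norm_of_nonneg hδ.le, mul_comm κ] at hx
    exact le_of_mul_le_mul_left hx hδ
  obtain ⟨k1, k2, k3⟩ := hk hm
  refine ⟨?_, ?_, ?_⟩
  · rw [hv, norm_smul, Real.norm_of_nonneg hδ.le]
    nlinarith
  · rw [hv, real_inner_smul_right]
    positivity
  · have : qq_fun a b y τ x = qq_fun a b 0 τ v * δ ^ 2 := by
      rw [qq_fun, qq_fun, hv, sub_zero, real_inner_smul_right, real_inner_smul_right, norm_smul,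
        Real.norm_of_nonneg hδ.le]
      ring
    rw [this]
    exact mul_le_mul_of_nonneg_right k3.le (by positivity)

/-- small scales -/
theorem small_fun (N : ℕ) {β r : ℝ} (hβ : (N : ℝ) + 1 < 2 * β) (hr : 0 < r) (L : ℝ) :
    ∃ δ > 0, δ < r ∧ δ ≤ 1 ∧ L ≤ δ ^ N * δ * (δ ^ 2) ^ (-β) := by
  have t := (tendsto_rpow_neg_nhdsGT_zero (y := (N : ℝ) + 1 - 2 * β) (by linarith)).eventually_ge_atTop L
  have e1 : ∀ᶠ δ : ℝ in 𝓝[>] 0, δ < r := nhdsWithin_le_nhds (eventually_lt_nhds hr)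
  have e2 : ∀ᶠ δ : ℝ in 𝓝[>] 0, δ < 1 := nhdsWithin_le_nhds (eventually_lt_nhds one_pos)
  obtain ⟨δ, h1, h2, h3, h4⟩ := (t.and (e1.and (e2.and self_mem_nhdsWithin))).exists
  have h5 : 0 < δ := h4
  refine ⟨δ, h5, h2, h3.le, h1.trans_eq ?_⟩
  rw [← Real.rpow_natCast δ 2, ← Real.rpow_mul h5.le, ← Real.rpow_natCast δ N,
    ← Real.rpow_add_one h5.ne', ← Real.rpow_add h5]
  congr 1
  push_cast
  ring

theorem FUN_pf (hp : PSI_st) : FUN_st := by
  intro N Ω y a b hΩ hb hW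
  obtain ⟨Ψ, hΨ, h0, h1, h2, -⟩ := hp
  have hN : (2 : ℝ) ≤ N := by exact_mod_cast hW.two
  have hσ := hW.pos
  set σ : ℝ := inner ℝ a b with hσe
  have hσK : σ ≤ ‖a‖ * ‖b‖ := real_inner_le_norm a b
  set K : ℝ := ‖a‖ * ‖b‖ with hK
  have hK0 : 0 < K := hσ.trans_le hσK
  obtain ⟨τ, hτ0, hτ⟩ : ∃ τ : ℝ, 0 < τ ∧ τ * (2 * N) = σ :=
    ⟨σ / (2 * N), by positivity, by field_simp⟩
  obtain ⟨η, hη0, hη⟩ : ∃ η : ℝ, 0 < η ∧ η * (2 * (N + 2) * K) = σ :=
    ⟨σ / (2 * (N + 2) * K), by positivity, by field_simp⟩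
  have hη1 : η ≤ 1 / 2 := by
    by_contra e
    have : 1 / 2 * (2 * (N + 2) * K) ≤ η * (2 * (N + 2) * K) :=
      mul_le_mul_of_nonneg_right (not_le.1 e).le (by positivity)
    nlinarith
  obtain ⟨β, hβ⟩ : ∃ β : ℝ, 2 * β = N + 2 - η := ⟨(N + 2 - η) / 2, by ring⟩
  have hβ1 : 1 < β := by linarith
  obtain ⟨r, hr0, hr⟩ := hW.cone τ hτ0
  obtain ⟨c, hc0, hc⟩ : ∃ c : ℝ, 0 < c ∧ c * K * (r ^ 2) ^ (1 - β) = 1 / 2 := by
    have : 0 < (r ^ 2) ^ (1 - β) := Real.rpow_pos_of_pos (by positivity) _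
    exact ⟨1 / (2 * K * (r ^ 2) ^ (1 - β)), by positivity, by field_simp⟩
  set f := ff_fun a b y τ β c with hf
  have hl : ∀ x, x ≠ y → c * ((‖x - y‖ ^ 2) ^ (-β) * (σ / 2)) ≤ lap f x := fun x hx => by
    have hs := nsq_pos_fun hx
    rw [hf, lap_ff_fun a b y τ β c hx]
    refine mul_le_mul_of_nonneg_left (mul_le_mul_of_nonneg_left ?_ (Real.rpow_nonneg hs.le _)) hc0.le
    have q1 : qq_fun a b y τ x / ‖x - y‖ ^ 2 ≤ K := (div_le_iff₀ hs).2 (qq_le_fun a b y hτ0.le x)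
    have q2 : β * (4 * β - 2 * N - 4) = -(2 * β * η) := by
      rw [show 4 * β - 2 * N - 4 = -(2 * η) by linarith]
      ring
    have q3 : 2 * β * η * (qq_fun a b y τ x / ‖x - y‖ ^ 2) ≤ 2 * β * η * K :=
      mul_le_mul_of_nonneg_left q1 (by positivity)
    have q4 : 2 * β * η * K ≤ (N + 2) * η * K :=
      mul_le_mul_of_nonneg_right (mul_le_mul_of_nonneg_right (by linarith) hη0.le) hK0.le
    rw [q2, hτ, ← hσe]
    linarith
  have hl0 : ∀ x, x ≠ y → 0 ≤ lap f x := fun x hx => by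
    have := Real.rpow_nonneg (nsq_pos_fun hx).le (-β)
    exact le_trans (by positivity) (hl x hx)
  have hlu : ∀ x, x ≠ y → deriv Ψ (f x) * lap f x ≤ lap (fun z => Ψ (f z)) x := fun x hx => by
    rw [lap_comp' hΨ (cd_ff_fun a b y τ β c hx)]
    have := mul_nonneg (h1 (f x)).2.2.1 (gam_nonneg f x)
    linarith
  have hne : ∀ x ∈ Ω, x ≠ y := fun x hx e => hW.out (e ▸ hx)
  refine ⟨fun z => Ψ (f z), ?_, fun x => (h1 _).2.2.2.2.1, fun x hx => ⟨?_, ?_⟩, fun x hx hxy => ?_,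
    ?_⟩
  · have m : Measurable f :=
      ((sm_qq_fun a b y τ).continuous.measurable.mul
        ((sm_nsq y).continuous.measurable.pow_const _)).const_mul c
    refine int_fun hb (by linarith [hW.two]) (hΨ.continuous.measurable.comp m) y (C := c * K)
      (α := N - η) (by linarith) fun x => ?_
    rw [abs_of_nonneg (h1 _).2.2.2.2.1]
    have e : (‖x - y‖ ^ 2) ^ (1 - β) = ‖x - y‖ ^ (-(N - η)) := by
      rw [← Real.rpow_natCast _ 2, ← Real.rpow_mul (norm_nonneg _)]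
      congr 1
      push_cast
      linarith
    have := Real.rpow_nonneg (norm_nonneg (x - y)) (-(N - η))
    refine (h1 _).2.2.2.2.2.trans (max_le ?_ (by positivity))
    rw [← e]
    exact ff_le_fun a b y hτ0.le hc0.le x
  · exact (hΨ.of_le two_le_top).contDiffAt.comp x (cd_ff_fun a b y τ β c (hne x hx))
  · exact (mul_nonneg (h1 _).1 (hl0 x (hne x hx))).trans (hlu x (hne x hx))
  · have hs := nsq_pos_fun hxy
    have lt : f x < 1 := by
      by_contra e
      have e1 : 1 ≤ f x := not_lt.1 e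
      have r1 : ‖x - y‖ < r := by
        by_contra e2
        have r2 : r ^ 2 ≤ ‖x - y‖ ^ 2 := pow_le_pow_left₀ hr0.le (not_lt.1 e2) 2
        have r3 := Real.rpow_le_rpow_of_nonpos (by positivity) r2 (show 1 - β ≤ 0 by linarith)
        have r4 := mul_le_mul_of_nonneg_left r3 (mul_pos hc0 hK0).le
        have r5 := ff_le_fun a b y (β := β) hτ0.le hc0.le x
        linarith
      have r2 : 0 < qq_fun a b y τ x := by
        by_contra e2
        have : f x ≤ 0 := mul_nonpos_of_nonneg_of_nonpos hc0.le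
          (mul_nonpos_of_nonpos_of_nonneg (not_lt.1 e2) (Real.rpow_nonneg hs.le _))
        linarith
      rw [qq_fun] at r2
      have r3 := hr x (norm_pos_iff.2 (sub_ne_zero.2 hxy)) r1 (by linarith)
      rcases lt_trichotomy (inner ℝ a (x - y)) 0 with e3 | e3 | e3
      · exact r3.2 e3 (frontier_subset_closure hx)
      · rw [e3, zero_mul] at r2
        have := mul_pos hτ0 hs
        linarith
      · rw [hΩ.frontier_eq] at hx
        exact hx.2 (r3.1 e3)
    exact ((cd_ff_fun a b y τ β c hxy).continuousAt.eventually_lt_const lt).mono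
      fun z hz => h0 _ hz.le
  · obtain ⟨o, κ, q, hκ, hq, hd⟩ := dir_fun (a := a) (b := b) y (τ := τ) (by nlinarith) hσ
    refine ⟨κ, hκ, fun M => ?_⟩
    obtain ⟨δ, hδ, d1, d2, d3⟩ := small_fun N (β := β) (by linarith) hr0
      (max ((|M| + 2) / (c * q)) (|M| / (c * (σ / 2))))
    have d4 := (div_le_iff₀ (by positivity)).1 ((le_max_left _ _).trans d3)
    have d5 := (div_le_iff₀ (by positivity)).1 ((le_max_right _ _).trans d3)
    have hM := le_abs_self M
    have hM0 := abs_nonneg M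
    have hD : 0 < (δ ^ 2) ^ (-β) := Real.rpow_pos_of_pos (by positivity) _
    set D : ℝ := (δ ^ 2) ^ (-β) with hDe
    have p0 : 0 < δ ^ N := by positivity
    have p1 : δ ^ N ≤ δ := pow_le_of_le_one hδ.le d2 (by have := hW.two; omega)
    refine ⟨δ, hδ, y + δ • o, fun x hx => ?_, fun x hx => ?_⟩
    · obtain ⟨k1, k2, k3⟩ := hd δ hδ x hx
      have k4 : 0 < q * δ ^ 2 := by positivity
      rw [qq_fun] at k3
      exact (hr x (norm_pos_iff.2 fun e => by simp [e] at k2) (by linarith) (by linarith)).1 k2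
    · obtain ⟨k1, k2, k3⟩ := hd δ hδ x hx
      have hx : x ≠ y := fun e => by simp [e] at k2
      have hs := nsq_pos_fun hx
      have k4 : D ≤ (‖x - y‖ ^ 2) ^ (-β) := Real.rpow_le_rpow_of_nonpos hs
        (pow_le_pow_left₀ (norm_nonneg _) k1 2) (by linarith)
      have k5 : c * (q * δ ^ 2 * D) ≤ f x := mul_le_mul_of_nonneg_left
        (mul_le_mul k3 k4 hD.le (le_trans (by positivity) k3)) hc0.le
      have k6 : δ ^ N * δ * D * (c * q) ≤ c * (q * δ ^ 2 * D) := by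
        have := mul_le_mul_of_nonneg_right p1 (show 0 ≤ δ * D * (c * q) by positivity)
        nlinarith
      have k7 : 2 ≤ f x := by linarith
      refine ⟨k1, ?_, ?_⟩
      · have l1 := hlu x hx
        rw [h2 _ k7, one_mul] at l1
        have l2 : c * (D * (σ / 2)) ≤ c * ((‖x - y‖ ^ 2) ^ (-β) * (σ / 2)) :=
          mul_le_mul_of_nonneg_left (mul_le_mul_of_nonneg_right k4 (by positivity)) hc0.le
        have l3 := mul_le_mul_of_nonneg_left (l2.trans ((hl x hx).trans l1)) p0.le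
        have l4 := mul_le_mul_of_nonneg_left d2
          (show 0 ≤ δ ^ N * D * (c * (σ / 2)) by positivity)
        nlinarith
      · have l1 := mul_le_mul_of_nonneg_left
          (show c * (q * δ ^ 2 * D) - 2 ≤ Ψ (f x) by linarith [(h1 (f x)).2.2.2.1]) p0.le
        have l2 := mul_le_mul_of_nonneg_right d4 hδ.le
        have l3 := mul_le_mul_of_nonneg_right hM hδ.le
        nlinarith

end Pool.Agent.MP_7504ef_an

end
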