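import Pool.Agent.MP_7504ef_an.Defs

section

/-!
Rules of calculus for `pd`, `lap`, `gam`.
-/

set_option autoImplicit false

open MeasureTheory Filter Set Topology
open scoped ContDiff

namespace Pool.Agent.MP_7504ef_an

variable {N : ℕ} {f g : E N → ℝ} {x : E N} {i : Fin N}

/-- the product of the gradients -/
noncomputable def gam (f g : E N → ℝ) (x : E N) : ℝ := ∑ i, pd i f x * pd i g x

theorem two_le_top : (2 : WithTop ℕ∞) ≤ ∞ := WithTop.coe_le_coe.2 (le_top : (2 : ℕ∞) ≤ ⊤)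

theorem sm_c2 (h : ContDiff ℝ ∞ f) (x : E N) : ContDiffAt ℝ 2 f x :=
  (h.of_le two_le_top).contDiffAt

theorem sm_d (h : ContDiff ℝ ∞ f) (x : E N) : DifferentiableAt ℝ f x :=
  (sm_c2 h x).differentiableAt (by norm_num)

theorem c2_d (h : ContDiffAt ℝ 2 f x) : DifferentiableAt ℝ f x := h.differentiableAt (by norm_num)

theorem c2_ev (h : ContDiffAt ℝ 2 f x) : ∀ᶠ y in 𝓝 x, DifferentiableAt ℝ f y :=
  (h.eventually (by simp)).mono fun _ => c2_d

theorem c2_pd (h : ContDiffAt ℝ 2 f x) (i : Fin N) : ContDiffAt ℝ 1 (pd i f) x :=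
  (h.fderiv_right (m := 1) (by norm_num)).clm_apply contDiffAt_const

theorem c2_pd_d (h : ContDiffAt ℝ 2 f x) (i : Fin N) : DifferentiableAt ℝ (pd i f) x :=
  (c2_pd h i).differentiableAt (by norm_num)

theorem sm_pd (h : ContDiff ℝ ∞ f) (i : Fin N) : ContDiff ℝ ∞ (pd i f) :=
  (h.fderiv_right (m := ∞) (by simp)).clm_apply contDiff_const

theorem sm_lap (h : ContDiff ℝ ∞ f) : ContDiff ℝ ∞ (lap f) :=
  ContDiff.sum fun i _ => sm_pd (sm_pd h i) i

theorem sm_gam (h : ContDiff ℝ ∞ f) (h' : ContDiff ℝ ∞ g) : ContDiff ℝ ∞ (gam f g) :=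
  ContDiff.sum fun i _ => (sm_pd h i).mul (sm_pd h' i)

theorem pd_congr (h : f =ᶠ[𝓝 x] g) (i : Fin N) : pd i f x = pd i g x := by
  rw [pd, pd, h.fderiv_eq]

theorem pd_congr_ev (h : f =ᶠ[𝓝 x] g) (i : Fin N) : pd i f =ᶠ[𝓝 x] pd i g :=
  h.eventuallyEq_nhds.mono fun _ e => pd_congr e i

theorem lap_congr (h : f =ᶠ[𝓝 x] g) : lap f x = lap g x :=
  Finset.sum_congr rfl fun i _ => pd_congr (pd_congr_ev h i) i

theorem pd_const (c : ℝ) (i : Fin N) : pd i (fun _ => c) = fun _ => 0 := by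
  ext x
  simp [pd]

theorem lap_const (c : ℝ) (x : E N) : lap (fun _ => c) x = 0 := by simp [lap, pd_const]

theorem pd_add (h : DifferentiableAt ℝ f x) (h' : DifferentiableAt ℝ g x) :
    pd i (fun y => f y + g y) x = pd i f x + pd i g x := by
  simp [pd, fderiv_fun_add h h']

theorem pd_sub (h : DifferentiableAt ℝ f x) (h' : DifferentiableAt ℝ g x) :
    pd i (fun y => f y - g y) x = pd i f x - pd i g x := by
  simp [pd, fderiv_fun_sub h h']

theorem pd_mul (h : DifferentiableAt ℝ f x) (h' : DifferentiableAt ℝ g x) :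
    pd i (fun y => f y * g y) x = f x * pd i g x + g x * pd i f x := by
  simp [pd, fderiv_fun_mul h h']

theorem pd_cmul (c : ℝ) (h : DifferentiableAt ℝ f x) :
    pd i (fun y => c * f y) x = c * pd i f x := by
  rw [pd_mul (differentiableAt_const c) h, pd_const]
  simp

theorem pd_comp {Φ : ℝ → ℝ} {a : ℝ} (hΦ : HasDerivAt Φ a (f x)) (h : DifferentiableAt ℝ f x) :
    pd i (fun y => Φ (f y)) x = a * pd i f x := by
  have := (hΦ.comp_hasFDerivAt x h.hasFDerivAt).fderiv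
  rw [pd, pd, show (fun y => Φ (f y)) = Φ ∘ f from rfl, this]
  simp

theorem pd_sum {ι : Type*} (s : Finset ι) {F : ι → E N → ℝ}
    (h : ∀ k ∈ s, DifferentiableAt ℝ (F k) x) :
    pd i (fun y => ∑ k ∈ s, F k y) x = ∑ k ∈ s, pd i (F k) x := by
  simp [pd, fderiv_fun_sum h]

theorem sm_coord (j : Fin N) : ContDiff ℝ ∞ fun y : E N => y j :=
  (EuclideanSpace.proj j : E N →L[ℝ] ℝ).contDiff

theorem pd_coord (i j : Fin N) (x : E N) : pd i (fun y => y j) x = if j = i then 1 else 0 := by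
  have := (EuclideanSpace.proj j : E N →L[ℝ] ℝ).fderiv (x := x)
  rw [pd, show (fun y : E N => y j) = (EuclideanSpace.proj j : E N →L[ℝ] ℝ) from rfl, this]
  simp

theorem nsq_eq (v : E N) : ‖v‖ ^ 2 = ∑ j, v j ^ 2 := EuclideanSpace.real_norm_sq_eq v

theorem sm_nsq (z : E N) : ContDiff ℝ ∞ fun y : E N => ‖y - z‖ ^ 2 :=
  (contDiff_norm_sq ℝ).comp (contDiff_id.sub contDiff_const)

theorem pd_nsq (z : E N) (i : Fin N) :
    pd i (fun y => ‖y - z‖ ^ 2) = fun x => 2 * (x i - z i) := by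
  ext x
  have := (((hasFDerivAt_id x).sub_const z).norm_sq).fderiv
  rw [pd, show (fun y : E N => ‖y - z‖ ^ 2) = fun y => ‖id y - z‖ ^ 2 from rfl, this]
  simp [EuclideanSpace.inner_single_right]

theorem lap_nsq (z x : E N) : lap (fun y => ‖y - z‖ ^ 2) x = 2 * N := by
  have : ∀ i, pd i (fun y : E N => 2 * (y i - z i)) x = 2 := fun i => by
    rw [pd_cmul 2 ((sm_d (sm_coord i) x).sub_const _), pd_sub (sm_d (sm_coord i) x)
      (differentiableAt_const _), pd_coord, pd_const]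
    simp
  simp [lap, pd_nsq, this, mul_comm]

theorem gam_nsq (z x : E N) :
    gam (fun y => ‖y - z‖ ^ 2) (fun y => ‖y - z‖ ^ 2) x = 4 * ‖x - z‖ ^ 2 := by
  simp only [gam, pd_nsq]
  rw [nsq_eq, Finset.mul_sum]
  exact Finset.sum_congr rfl fun _ _ => by rw [PiLp.sub_apply]; ring

theorem gam_comm (f g : E N → ℝ) (x : E N) : gam f g x = gam g f x :=
  Finset.sum_congr rfl fun _ _ => mul_comm _ _

theorem gam_nonneg (f : E N → ℝ) (x : E N) : 0 ≤ gam f f x :=
  Finset.sum_nonneg fun _ _ => mul_self_nonneg _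

theorem pd_sq_le (f : E N → ℝ) (x : E N) (i : Fin N) : pd i f x ^ 2 ≤ gam f f x := by
  rw [sq]
  exact Finset.single_le_sum (f := fun j => pd j f x * pd j f x) (fun _ _ => mul_self_nonneg _)
    (Finset.mem_univ i)

theorem abs_gam_le (f g : E N → ℝ) (x : E N) : |gam f g x| ≤ (gam f f x + gam g g x) / 2 := by
  refine (Finset.abs_sum_le_sum_abs _ _).trans ?_
  rw [gam, gam, ← Finset.sum_add_distrib, Finset.sum_div]
  exact Finset.sum_le_sum fun j _ => abs_le.2
    ⟨by nlinarith [sq_nonneg (pd j f x + pd j g x)], by nlinarith [sq_nonneg (pd j f x - pd j g x)]⟩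

theorem gam_mul {k : E N → ℝ} (h : DifferentiableAt ℝ f x) (h' : DifferentiableAt ℝ g x) :
    gam k (fun y => f y * g y) x = f x * gam k g x + g x * gam k f x := by
  simp only [gam, pd_mul h h', Finset.mul_sum, ← Finset.sum_add_distrib]
  exact Finset.sum_congr rfl fun _ _ => by ring

theorem gam_comp {k : E N → ℝ} {Φ : ℝ → ℝ} {a : ℝ} (hΦ : HasDerivAt Φ a (f x))
    (h : DifferentiableAt ℝ f x) : gam k (fun y => Φ (f y)) x = a * gam k f x := by
  simp only [gam, pd_comp hΦ h, Finset.mul_sum]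
  exact Finset.sum_congr rfl fun _ _ => by ring

theorem lap_add (h : ContDiffAt ℝ 2 f x) (h' : ContDiffAt ℝ 2 g x) :
    lap (fun y => f y + g y) x = lap f x + lap g x := by
  rw [lap, lap, lap, ← Finset.sum_add_distrib]
  refine Finset.sum_congr rfl fun i _ => ?_
  rw [← pd_add (c2_pd_d h i) (c2_pd_d h' i)]
  exact pd_congr (((c2_ev h).and (c2_ev h')).mono fun y e => pd_add e.1 e.2) i

theorem lap_mul (h : ContDiffAt ℝ 2 f x) (h' : ContDiffAt ℝ 2 g x) :
    lap (fun y => f y * g y) x = f x * lap g x + g x * lap f x + 2 * gam f g x := by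
  simp only [lap, gam, Finset.mul_sum, ← Finset.sum_add_distrib]
  refine Finset.sum_congr rfl fun i _ => ?_
  rw [pd_congr (((c2_ev h).and (c2_ev h')).mono fun y e => pd_mul e.1 e.2) i,
    pd_add ((c2_d h).fun_mul (c2_pd_d h' i)) ((c2_d h').fun_mul (c2_pd_d h i)),
    pd_mul (c2_d h) (c2_pd_d h' i), pd_mul (c2_d h') (c2_pd_d h i)]
  ring

theorem lap_cmul (c : ℝ) (h : ContDiffAt ℝ 2 f x) : lap (fun y => c * f y) x = c * lap f x := by
  rw [lap_mul contDiffAt_const h, lap_const]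
  simp [gam, pd_const]

theorem lap_sub (h : ContDiffAt ℝ 2 f x) (h' : ContDiffAt ℝ 2 g x) :
    lap (fun y => f y - g y) x = lap f x - lap g x := by
  have := lap_add h (contDiffAt_const.mul h' : ContDiffAt ℝ 2 (fun y => -1 * g y) x)
  rw [lap_cmul _ h'] at this
  simpa [sub_eq_add_neg] using this

theorem lap_comp {Φ Φ' : ℝ → ℝ} {a : ℝ} (hΦ : ∀ᶠ t in 𝓝 (f x), HasDerivAt Φ (Φ' t) t)
    (hΦ' : HasDerivAt Φ' a (f x)) (h : ContDiffAt ℝ 2 f x) :
    lap (fun y => Φ (f y)) x = Φ' (f x) * lap f x + a * gam f f x := by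
  simp only [lap, gam, Finset.mul_sum, ← Finset.sum_add_distrib]
  refine Finset.sum_congr rfl fun i _ => ?_
  rw [pd_congr (((c2_ev h).and (h.continuousAt.eventually hΦ)).mono fun y e => pd_comp e.2 e.1) i,
    pd_mul (f := fun y => Φ' (f y)) (hΦ'.differentiableAt.comp x (c2_d h)) (c2_pd_d h i),
    pd_comp hΦ' (c2_d h)]
  ring

/-- the chain rule for a smooth outer function -/
theorem lap_comp' {Φ : ℝ → ℝ} (hΦ : ContDiff ℝ ∞ Φ) (h : ContDiffAt ℝ 2 f x) :
    lap (fun y => Φ (f y)) x = deriv Φ (f x) * lap f x + deriv (deriv Φ) (f x) * gam f f x :=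
  lap_comp (.of_forall fun t => (hΦ.differentiable (by simp) t).hasDerivAt)
    (((contDiff_infty_iff_deriv.1 hΦ).2.differentiable (by simp) _).hasDerivAt) h

theorem fderiv_eq_sum (f : E N → ℝ) (x v : E N) : fderiv ℝ f x v = ∑ j, v j * pd j f x := by
  conv_lhs => rw [← (EuclideanSpace.basisFun (Fin N) ℝ).sum_repr v]
  simp [pd]

theorem grad_apply (f : E N → ℝ) (x : E N) (j : Fin N) : gradient f x j = pd j f x := by
  have := InnerProductSpace.toDual_symm_apply (𝕜 := ℝ) (y := fderiv ℝ f x)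
    (x := EuclideanSpace.single j (1 : ℝ))
  rw [pd, ← this, EuclideanSpace.inner_single_right]
  simp [gradient]

theorem inner_grad (f g : E N → ℝ) (x : E N) :
    inner ℝ (gradient f x) (gradient g x) = gam f g x := by
  rw [PiLp.inner_apply, gam]
  exact Finset.sum_congr rfl fun j _ => by simp [grad_apply, mul_comm]

/-- continuous functions are bounded on bounded sets -/
theorem ex_bd {s : Set (E N)} (hs : Bornology.IsBounded s) (h : Continuous f) :
    ∃ M, 0 < M ∧ ∀ x ∈ s, |f x| ≤ M := by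
  obtain ⟨M, hM⟩ := hs.isCompact_closure.exists_bound_of_continuousOn h.continuousOn
  exact ⟨|M| + 1, by positivity, fun x hx =>
    (hM x (subset_closure hx)).trans (by linarith [le_abs_self M])⟩

/-- smooth maps are Lipschitz on bounded sets -/
theorem ex_lip {F : Type*} [NormedAddCommGroup F] [NormedSpace ℝ F] {k : E N → F} {s : Set (E N)}
    (hs : Bornology.IsBounded s) (h : ContDiff ℝ ∞ k) :
    ∃ M, 0 < M ∧ ∀ x ∈ s, ∀ y ∈ s, ‖k x - k y‖ ≤ M * ‖x - y‖ := by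
  obtain ⟨R, hR⟩ := hs.subset_closedBall 0
  obtain ⟨M, hM⟩ := (isCompact_closedBall (0 : E N) R).exists_bound_of_continuousOn
    (h.continuous_fderiv (by simp)).continuousOn
  refine ⟨|M| + 1, by positivity, fun x hx y hy => ?_⟩
  exact (convex_closedBall 0 R).norm_image_sub_le_of_norm_fderiv_le
    (fun z _ => h.differentiable (by simp) z)
    (fun z hz => (hM z hz).trans (by linarith [le_abs_self M])) (hR hy) (hR hx)

/-- the Taylor formula of first order -/
theorem ex_taylor {s : Set (E N)} (hs : Bornology.IsBounded s) (h : ContDiff ℝ ∞ f) :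
    ∃ M, 0 < M ∧ ∀ x ∈ s, ∀ z ∈ s,
      |f z - f x - ∑ j, (z j - x j) * pd j f x| ≤ M * ‖z - x‖ ^ 2 := by
  obtain ⟨R, hR⟩ := hs.subset_closedBall 0
  obtain ⟨M, h0, hM⟩ := ex_lip (Metric.isBounded_closedBall (x := (0 : E N)) (r := R))
    (h.fderiv_right (m := ∞) (by simp))
  refine ⟨M, h0, fun x hx z hz => ?_⟩
  have := ((convex_closedBall 0 R).inter (convex_closedBall x ‖z - x‖)
    ).norm_image_sub_le_of_norm_fderiv_le' (φ := fderiv ℝ f x) (C := M * ‖z - x‖)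
    (fun y _ => sm_d h y) (fun y hy => (hM y hy.1 x (hR hx)).trans
      (mul_le_mul_of_nonneg_left (mem_closedBall_iff_norm.1 hy.2) h0.le))
    ⟨hR hx, Metric.mem_closedBall_self (norm_nonneg _)⟩ ⟨hR hz, mem_closedBall_iff_norm.2 le_rfl⟩
  rw [fderiv_eq_sum] at this
  simpa [sq, mul_assoc] using this

/-- products with continuous functions are integrable on bounded sets -/
theorem int_mul {s : Set (E N)} {μ : Measure (E N)} (hs : Bornology.IsBounded s)
    (hm : MeasurableSet s) (h : IntegrableOn f s μ) (h' : Continuous g) :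
    IntegrableOn (fun x => f x * g x) s μ := by
  obtain ⟨M, -, hM⟩ := ex_bd hs h'
  exact h.mul_bdd h'.aestronglyMeasurable ((ae_restrict_mem hm).mono hM)

theorem int_cont {s : Set (E N)} {μ : Measure (E N)} [IsFiniteMeasureOnCompacts μ]
    (hs : Bornology.IsBounded s) (h : Continuous f) : IntegrableOn f s μ :=
  (h.continuousOn.integrableOn_compact hs.isCompact_closure).mono_set subset_closure

/-- functions with compact support in an open set, extended by zero -/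
theorem ind_cd {n : WithTop ℕ∞} {Ω K : Set (E N)} (hΩ : IsOpen Ω) (hK : IsCompact K) (hKΩ : K ⊆ Ω)
    (h : ∀ x ∈ Ω, ContDiffAt ℝ n f x) (h0 : ∀ x ∈ Ω, x ∉ K → f x = 0) :
    ContDiff ℝ n (Ω.indicator f) ∧ HasCompactSupport (Ω.indicator f) ∧
      tsupport (Ω.indicator f) ⊆ K ∧ ∀ x ∈ Ω, Ω.indicator f =ᶠ[𝓝 x] f := by
  have e : ∀ x ∈ Ω, Ω.indicator f =ᶠ[𝓝 x] f := fun x hx =>
    Filter.mem_of_superset (hΩ.mem_nhds hx) fun y hy => indicator_of_mem hy f
  have z : ∀ y ∉ K, Ω.indicator f y = 0 := fun y hy => by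
    by_cases h1 : y ∈ Ω
    · rw [indicator_of_mem h1, h0 y h1 hy]
    · exact indicator_of_notMem h1 f
  have t : tsupport (Ω.indicator f) ⊆ K :=
    closure_minimal (fun y hy => by_contra fun e => hy (z y e)) hK.isClosed
  refine ⟨contDiff_iff_contDiffAt.2 fun x => ?_, hK.of_isClosed_subset isClosed_closure t, t, e⟩
  by_cases hx : x ∈ K
  · exact (h x (hKΩ hx)).congr_of_eventuallyEq (e x (hKΩ hx))
  · exact (contDiffAt_const (c := 0)).congr_of_eventuallyEq
      (Filter.mem_of_superset (hK.isClosed.isOpen_compl.mem_nhds hx) z)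

/-- the integral of a derivative vanishes -/
theorem int_pd {Ω K : Set (E N)} (hΩ : IsOpen Ω) (hK : IsCompact K) (hKΩ : K ⊆ Ω)
    (h : ∀ x ∈ Ω, ContDiffAt ℝ 1 f x) (h0 : ∀ x ∈ Ω, x ∉ K → f x = 0) (i : Fin N) :
    IntegrableOn (pd i f) Ω ∧ ∫ x in Ω, pd i f x = 0 := by
  obtain ⟨c, s, t, e⟩ := ind_cd hΩ hK hKΩ h h0
  have i1 : Integrable (pd i (Ω.indicator f)) :=
    ((c.continuous_fderiv (by simp)).clm_apply continuous_const).integrable_of_hasCompactSupport
      (s.fderiv_apply ℝ _)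
  have e1 : EqOn (pd i (Ω.indicator f)) (pd i f) Ω := fun x hx => pd_congr (e x hx) i
  refine ⟨i1.integrableOn.congr_fun e1 hΩ.measurableSet, ?_⟩
  rw [← setIntegral_congr_fun hΩ.measurableSet e1, setIntegral_eq_integral_of_forall_compl_eq_zero]
  · have := integral_mul_fderiv_eq_neg_fderiv_mul_of_integrable (μ := volume) (f := fun _ => (1 : ℝ))
      (g := Ω.indicator f) (v := EuclideanSpace.single i 1) (by simp) (i1.congr (.of_forall fun _ => (one_mul _).symm))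
      (by simpa using c.continuous.integrable_of_hasCompactSupport s) (fun _ _ => by simp)
      fun x _ => c.differentiable (by simp) x
    simpa [pd] using this
  · intro x hx
    rw [pd_congr (notMem_tsupport_iff_eventuallyEq.1 fun e => hx (hKΩ (t e))) i]
    exact congrFun (pd_const 0 i) x

/-- the formula of Green -/
theorem green {Ω K : Set (E N)} (hΩ : IsOpen Ω) (hK : IsCompact K) (hKΩ : K ⊆ Ω)
    (h : ∀ x ∈ Ω, ContDiffAt ℝ 2 f x) (h' : ∀ x ∈ Ω, ContDiffAt ℝ 2 g x)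
    (h0 : ∀ x ∈ Ω, x ∉ K → f =ᶠ[𝓝 x] (fun _ => 0) ∨ g =ᶠ[𝓝 x] fun _ => 0) :
    ∫ x in Ω, f x * lap g x = ∫ x in Ω, g x * lap f x := by
  have a : ∀ {f g : E N → ℝ}, (∀ x ∈ Ω, ContDiffAt ℝ 2 f x) → (∀ x ∈ Ω, ContDiffAt ℝ 2 g x) →
      (∀ x ∈ Ω, x ∉ K → f =ᶠ[𝓝 x] (fun _ => 0) ∨ g =ᶠ[𝓝 x] fun _ => 0) →
      ∫ x in Ω, f x * lap g x = -∫ x in Ω, gam f g x := by
    intro f g h h' h0
    have b := fun i => int_pd (f := fun y => f y * pd i g y) hΩ hK hKΩ
      (fun x hx => ((h x hx).of_le (by norm_num)).mul (c2_pd (h' x hx) i))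
      (fun x hx hx' => (h0 x hx hx').elim (fun e => by simp [e.self_of_nhds])
        fun e => by simp [pd_congr e i, pd_const]) i
    have c : IntegrableOn (gam f g) Ω := by
      obtain ⟨c, s, -, e⟩ := ind_cd (n := 1) (f := gam f g) hΩ hK hKΩ
        (fun x hx => ContDiffAt.sum fun i _ => (c2_pd (h x hx) i).mul (c2_pd (h' x hx) i))
        fun x hx hx' => Finset.sum_eq_zero fun i _ => (h0 x hx hx').elim
          (fun e => by simp [pd_congr e i, pd_const]) fun e => by simp [pd_congr e i, pd_const]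
      exact (integrable_indicator_iff hΩ.measurableSet).1
        (c.continuous.integrable_of_hasCompactSupport s)
    have d : EqOn (fun x => f x * lap g x)
        (fun x => ∑ i, pd i (fun y => f y * pd i g y) x - gam f g x) Ω := fun x hx => by
      simp only [lap, gam, Finset.mul_sum, ← Finset.sum_sub_distrib]
      refine Finset.sum_congr rfl fun i _ => ?_
      rw [pd_mul (c2_d (h x hx)) (c2_pd_d (h' x hx) i)]
      ring
    rw [setIntegral_congr_fun hΩ.measurableSet d, integral_sub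
      (integrable_finsetSum _ fun i _ => (b i).1) c, integral_finsetSum _ fun i _ => (b i).1]
    simp [fun i => (b i).2]
  rw [a h h' h0, a h' h fun x hx hx' => (h0 x hx hx').symm]
  simp only [gam_comm f g]

end Pool.Agent.MP_7504ef_an

end

section

/-!
Statements of the steps.
-/

set_option autoImplicit false

open MeasureTheory Filter Set Topology Bornology Metric
open scoped ContDiff

namespace Pool.Agent.MP_7504ef_an

section defs

variable {N m : ℕ}

/-- the reflected kernel -/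
noncomputable def kern (η : ℝ → ℝ) (r : E N → ℝ) (ε : ℝ) (x z : E N) : ℝ :=
  (ε ^ N)⁻¹ * η ((‖x - z‖ ^ 2 + 4 * r x * r z) / ε ^ 2)

/-- kernels that live in a boundary layer -/
def Lay (Ω : Set (E N)) (r : E N → ℝ) (κ : ℝ → E N → E N → ℝ) : Prop :=
  ∃ C : ℝ, ∀ ε ∈ Ioo (0 : ℝ) 1, ∀ x ∈ Ω, ∀ z ∈ Ω,
    |κ ε x z| ≤ C * (ε ^ N)⁻¹ ∧ (κ ε x z ≠ 0 → ‖x - z‖ ≤ ε ∧ r x ≤ C * ε)

/-- defining functions -/
structure Df (Ω : Set (E N)) (ρ : E N → ℝ) : Prop where
  op : IsOpen Ω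
  bd : IsBounded Ω
  sm : ContDiff ℝ ∞ ρ
  fr : ∀ x ∈ frontier Ω, ρ x = 0
  pos : ∀ x ∈ Ω, 0 < ρ x

/-- the inequality of Kato for test functions controlled by `ρ` -/
def Kato (Ω : Set (E N)) (μ : Measure (E N)) (w ρ : E N → ℝ) : Prop :=
  ∀ (ζ : E N → ℝ) (C : ℝ), ContDiff ℝ ∞ ζ →
    (∀ x ∈ Ω, 0 ≤ ζ x ∧ ζ x ≤ C * ρ x ∧ gam ζ ζ x ≤ C * (ρ x + gam ρ ρ x)) →
    -∫ x in Ω, w x * lap ζ x ≤ ∫ x in Ω, ζ x ∂μ

/-- the inequality for all smooth functions that are nonnegative in `Ω` -/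
def Glob (Ω : Set (E N)) (μ : Measure (E N)) (w : E N → ℝ) : Prop :=
  ∀ φ : E N → ℝ, ContDiff ℝ ∞ φ → (∀ x ∈ Ω, 0 ≤ φ x) →
    -∫ x in Ω, w x * lap φ x ≤ ∫ x in Ω, φ x ∂μ

/-- no mass in the boundary layer -/
def Thin (Ω : Set (E N)) (w ρ : E N → ℝ) : Prop := ∀ i, Tendsto
  (fun ε : ℝ => ∫ x in Ω, w x * (Real.exp (-(ρ x / ε)) * |pd i ρ x| / ε)) (𝓝[>] 0) (𝓝 0)

/-- approximation in `W^{1,1}(Ω)` by smooth functions -/
def W11 (Ω : Set (E N)) (w : E N → ℝ) : Prop :=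
  ∃ G : Fin N → E N → ℝ, (∀ i, IntegrableOn (G i) Ω) ∧ ∀ ε > 0, ∃ φ, ContDiff ℝ ∞ φ ∧
    ∫ x in Ω, |φ x - w x| ≤ ε ∧ ∀ i, ∫ x in Ω, |pd i φ x - G i x| ≤ ε

/-- domains with corners -/
structure Cor (ρ : Fin m → E N → ℝ) : Prop where
  sm : ∀ k, ContDiff ℝ ∞ (ρ k)
  bd : IsBounded {x | ∀ k, 0 ≤ ρ k x}
  li : ∀ y, (∀ k, 0 ≤ ρ k y) → LinearIndependent ℝ fun k : {k // ρ k y = 0} => gradient (ρ k) y

/-- no obtuse angle -/
def NO (ρ : Fin m → E N → ℝ) : Prop :=
  ∀ y, (∀ k, 0 ≤ ρ k y) → ∀ i j, i ≠ j → ρ i y = 0 → ρ j y = 0 → gam (ρ i) (ρ j) y ≤ 0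

/-- an obtuse wedge at `y` -/
structure Wedge (Ω : Set (E N)) (y a b : E N) : Prop where
  two : 2 ≤ N
  pos : 0 < inner ℝ a b
  cone : ∀ τ > 0, ∃ r > 0, ∀ x, 0 < ‖x - y‖ → ‖x - y‖ < r →
    τ * ‖x - y‖ ^ 2 ≤ inner ℝ a (x - y) * inner ℝ b (x - y) →
    (0 < inner ℝ a (x - y) → x ∈ Ω) ∧ (inner ℝ a (x - y) < 0 → x ∉ closure Ω)
  out : y ∉ Ω
  flat : ∀ ζ : E N → ℝ, ContDiff ℝ ∞ ζ → (∀ x ∈ frontier Ω, ζ x = 0) → ζ y = 0 ∧ fderiv ℝ ζ y = 0

/-- large values near `y` -/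
def Blow (Ω : Set (E N)) (u : E N → ℝ) (y : E N) : Prop :=
  ∃ κ > 0, ∀ M : ℝ, ∃ δ > 0, ∃ p : E N, closedBall p (κ * δ) ⊆ Ω ∧ ∀ x ∈ closedBall p (κ * δ),
    ‖x - y‖ ≤ δ ∧ M ≤ δ ^ N * lap u x ∧ M * δ ≤ δ ^ N * u x

end defs

/-- a smooth convex function close to the positive part -/
def PSI_st : Prop := ∃ Ψ : ℝ → ℝ, ContDiff ℝ ∞ Ψ ∧ (∀ t ≤ 1, Ψ t = 0) ∧
  (∀ t, 0 ≤ deriv Ψ t ∧ deriv Ψ t ≤ 1 ∧ 0 ≤ deriv (deriv Ψ) t ∧ t - 2 ≤ Ψ t ∧ 0 ≤ Ψ t ∧
    Ψ t ≤ max t 0) ∧ (∀ t, 2 ≤ t → deriv Ψ t = 1) ∧ ∀ s t, |Ψ s - Ψ t| ≤ |s - t|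

/-- cutting off near the zeros of `q` -/
def CUT_st : Prop := ∀ (N : ℕ) (Ω : Set (E N)) (w q ζ : E N → ℝ) (C : ℝ), IsOpen Ω → IsBounded Ω →
  IntegrableOn w Ω → ContDiff ℝ ∞ q → ContDiff ℝ ∞ ζ →
  (∀ x ∈ Ω, 0 < q x ∧ |ζ x| ≤ C * q x ∧ gam ζ ζ x ≤ C * q x ∧ gam q q x ≤ C * q x) →
  Tendsto (fun δ : ℝ => ∫ x in Ω, w x * lap (fun y => ζ y * Real.smoothTransition (q y / δ - 1)) x)
    (𝓝[>] 0) (𝓝 (∫ x in Ω, w x * lap ζ x))

/-- integrals with parameters -/
def PAR_st : Prop := ∀ (N : ℕ) (k : E N → E N → ℝ), ContDiff ℝ ∞ (Function.uncurry k) →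
  (∀ i, ContDiff ℝ ∞ (Function.uncurry fun x z => pd i (k x) z)) ∧
  ContDiff ℝ ∞ (Function.uncurry fun x z => lap (k x) z) ∧
  ∀ (Ω : Set (E N)) (u : E N → ℝ), IsBounded Ω → MeasurableSet Ω → IntegrableOn u Ω →
    ContDiff ℝ ∞ (fun z => ∫ x in Ω, u x * k x z) ∧
    (∀ i z, pd i (fun z => ∫ x in Ω, u x * k x z) z = ∫ x in Ω, u x * pd i (k x) z) ∧
    ∀ z, lap (fun z => ∫ x in Ω, u x * k x z) z = ∫ x in Ω, u x * lap (k x) z

/-- approximate identities in `L¹` -/
def APX_st : Prop := ∀ (N : ℕ) (Ω : Set (E N)) (u φ : E N → ℝ), MeasurableSet Ω → IntegrableOn u Ω →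
  Continuous φ → Integrable φ → (∀ x, 0 ≤ φ x) → ∫ x, φ x = 1 →
  Tendsto (fun ε : ℝ => ∫ z in Ω, |(∫ x in Ω, u x * ((ε ^ N)⁻¹ * φ (ε⁻¹ • (z - x)))) - u z|)
    (𝓝[>] 0) (𝓝 0)

/-- kernels in a boundary layer are negligible -/
def TAIL_st : Prop := ∀ (N : ℕ) (Ω : Set (E N)) (u r : E N → ℝ) (κ : ℝ → E N → E N → ℝ), Df Ω r →
  IntegrableOn u Ω → (∀ ε, Continuous (Function.uncurry (κ ε))) → Lay Ω r κ →
  Tendsto (fun ε : ℝ => ∫ z in Ω, |∫ x in Ω, u x * κ ε x z|) (𝓝[>] 0) (𝓝 0)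

/-- smoothing a measure -/
def MUF_st : Prop := ∀ (N : ℕ) (Ω : Set (E N)) (μ : Measure (E N)) (ζ φ : E N → ℝ), IsOpen Ω →
  IsBounded Ω → IsFiniteMeasure μ → ContDiff ℝ ∞ ζ → (∀ x ∈ Ω, 0 ≤ ζ x) → Continuous φ →
  (∀ x, 0 ≤ φ x) → (∀ x, 1 ≤ ‖x‖ → φ x = 0) → ∫ x, φ x = 1 → ∃ C : ℝ, ∀ ε ∈ Ioo (0 : ℝ) 1,
    IntegrableOn (fun z => ζ z * ∫ x in Ω, (ε ^ N)⁻¹ * φ (ε⁻¹ • (z - x)) ∂μ) Ω ∧
    ∫ z in Ω, ζ z * ∫ x in Ω, (ε ^ N)⁻¹ * φ (ε⁻¹ • (z - x)) ∂μ ≤ ∫ x in Ω, ζ x ∂μ + C * ε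

/-- the commutator estimate -/
def COM_st : Prop := ∀ (N : ℕ) (Ω : Set (E N)) (η : ℝ → ℝ) (r ζ : E N → ℝ) (C : ℝ), Df Ω r →
  ContDiff ℝ ∞ η → (∀ s, 1 ≤ s → η s = 0) →
  (∀ x ∈ Ω, 0 ≤ ζ x ∧ ζ x ≤ C * r x ∧ (ζ x ≠ 0 → |gam r r x - 1| ≤ C * r x)) →
  (∀ (ε : ℝ) (x z : E N),
    lap (kern η (fun _ => 0) ε x) z = lap (fun y => kern η (fun _ => 0) ε y z) x) ∧
  Lay Ω r (kern η r) ∧
  Lay Ω r fun ε x z => ζ z * (lap (kern η r ε x) z - lap (fun y => kern η r ε y z) x)

/-- the inequality of Kato at the smooth part of the boundary -/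
def K0_st : Prop := ∀ (N : ℕ) (Ω : Set (E N)) (μ : Measure (E N)) (u r ζ : E N → ℝ) (C : ℝ),
  Df Ω r → IsFiniteMeasure μ → Sub Ω μ 0 u → ContDiff ℝ ∞ ζ →
  (∀ x ∈ Ω, 0 ≤ ζ x ∧ ζ x ≤ C * r x ∧ (ζ x ≠ 0 → |gam r r x - 1| ≤ C * r x)) →
  -∫ x in Ω, max (u x) 0 * lap ζ x ≤ ∫ x in Ω, ζ x ∂μ

/-- the inequality of Kato up to the boundary -/
def K1_st : Prop := ∀ (N : ℕ) (Ω : Set (E N)) (μ : Measure (E N)) (u ρ : E N → ℝ),
  Df Ω ρ → IsFiniteMeasure μ → Sub Ω μ 0 u → Kato Ω μ (fun x => max (u x) 0) ρ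

/-- exponential test functions -/
def EXP_st : Prop := ∀ (N : ℕ) (Ω : Set (E N)) (μ : Measure (E N)) (w ρ : E N → ℝ) (C : ℝ),
  Df Ω ρ → IsFiniteMeasure μ → IntegrableOn w Ω → (∀ x, 0 ≤ w x) →
  (∀ x ∈ Ω, lap ρ x ≤ C * (ρ x + ∑ i, |pd i ρ x|)) → Kato Ω μ w ρ → Glob Ω μ w ∧ Thin Ω w ρ

/-- the measure -/
def RMK_st : Prop := ∀ (N : ℕ) (Ω : Set (E N)) (μ : Measure (E N)) (w : E N → ℝ), IsOpen Ω →
  IsBounded Ω → IsFiniteMeasure μ → IntegrableOn w Ω → Glob Ω μ w →
  ∃ (ν : Measure (E N)) (R : ℝ), IsFiniteMeasure ν ∧ ν (ball 0 R)ᶜ = 0 ∧ ∀ φ, ContDiff ℝ ∞ φ →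
    ∫ x in Ω, w x * lap φ x = ∫ x, φ x ∂ν - ∫ x in Ω, φ x ∂μ

/-- the gradient is integrable -/
def GRD_st : Prop := ∀ (N : ℕ) (Ω : Set (E N)) (ν₁ ν₂ : Measure (E N)) (w : E N → ℝ) (R : ℝ), 0 < N →
  IsOpen Ω → IsBounded Ω → IsFiniteMeasure ν₁ → IsFiniteMeasure ν₂ → ν₁ (ball 0 R)ᶜ = 0 →
  ν₂ (ball 0 R)ᶜ = 0 → IntegrableOn w Ω →
  (∀ φ, ContDiff ℝ ∞ φ → ∫ x in Ω, w x * lap φ x = ∫ x, φ x ∂ν₁ - ∫ x, φ x ∂ν₂) → W11 Ω w

/-- compact supports -/
def WCT_st : Prop := ∀ (N : ℕ) (Ω : Set (E N)) (w ρ : E N → ℝ), Df Ω ρ → IntegrableOn w Ω →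
  (∀ x, 0 ≤ w x) → Thin Ω w ρ → W11 Ω w → W011 Ω w

/-- directions with prescribed derivatives -/
def SUR_st : Prop := ∀ (N m : ℕ) (ρ : Fin m → E N → ℝ) (y : E N), Cor ρ → (∀ k, 0 ≤ ρ k y) →
  ∀ p : Fin m → ℝ, ∃ v, ∀ k, ρ k y = 0 → fderiv ℝ (ρ k) y v = p k

/-- the angles near the faces -/
def MR_st : Prop := ∀ (N m : ℕ) (ρ : Fin m → E N → ℝ), Cor ρ → NO ρ → ∃ C : ℝ, ∀ x,
  (∀ k, 0 < ρ k x) → ∀ i j, i ≠ j → gam (ρ i) (ρ j) x ≤ C * (ρ i x + ρ j x)

/-- the product of the defining functions -/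
def HH_st : Prop := ∀ (N m : ℕ) (ρ : Fin m → E N → ℝ) (C : ℝ), Cor ρ →
  (∀ x, (∀ k, 0 < ρ k x) → ∀ i j, i ≠ j → gam (ρ i) (ρ j) x ≤ C * (ρ i x + ρ j x)) →
  ∃ C' : ℝ, ∀ x, (∀ k, 0 < ρ k x) → lap (fun y => ∏ k, ρ k y) x ≤
    C' * (∏ k, ρ k x + ∑ i, |pd i (fun y => ∏ k, ρ k y) x|)

/-- an obtuse corner gives a wedge -/
def GEO_st : Prop := ∀ (N m : ℕ) (ρ : Fin m → E N → ℝ), Cor ρ → ¬ NO ρ →
  ∃ y a b, Wedge {x | ∀ k, 0 < ρ k x} y a b

/-- the function -/
def FUN_st : Prop := ∀ (N : ℕ) (Ω : Set (E N)) (y a b : E N), IsOpen Ω → IsBounded Ω →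
  Wedge Ω y a b → ∃ u : E N → ℝ, IntegrableOn u Ω ∧ (∀ x, 0 ≤ u x) ∧
    (∀ x ∈ Ω, ContDiffAt ℝ 2 u x ∧ 0 ≤ lap u x) ∧
    (∀ x ∈ frontier Ω, x ≠ y → u =ᶠ[𝓝 x] fun _ => 0) ∧ Blow Ω u y

/-- it is a subsolution -/
def SBS_st : Prop := ∀ (N : ℕ) (Ω : Set (E N)) (y a b : E N) (u : E N → ℝ), IsOpen Ω → IsBounded Ω →
  Wedge Ω y a b → IntegrableOn u Ω → (∀ x ∈ Ω, ContDiffAt ℝ 2 u x ∧ 0 ≤ lap u x) →
  (∀ x ∈ frontier Ω, x ≠ y → u =ᶠ[𝓝 x] fun _ => 0) → Sub Ω 0 0 u

/-- both conclusions fail -/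
def NEG_st : Prop := ∀ (N : ℕ) (Ω : Set (E N)) (y : E N) (u : E N → ℝ), 2 ≤ N → IsOpen Ω →
  IsBounded Ω → IntegrableOn u Ω → (∀ x, 0 ≤ u x) →
  (∀ x ∈ Ω, ContDiffAt ℝ 2 u x ∧ 0 ≤ lap u x) → Blow Ω u y → ¬ LapFin Ω u ∧ ¬ W011 Ω u

end Pool.Agent.MP_7504ef_an

end

section

/-!
A smooth convex function close to the positive part.
-/

set_option autoImplicit false

open MeasureTheory Filter Set Topology
open scoped ContDiff

namespace Pool.Agent.MP_7504ef_an

theorem PSI_pf : PSI_st := by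
  have hc : ContDiff ℝ ∞ fun s : ℝ => Real.smoothTransition (s - 1) :=
    Real.smoothTransition.contDiff.comp (contDiff_id.sub contDiff_const)
  set Ψ : ℝ → ℝ := fun t => ∫ s in (0 : ℝ)..t, Real.smoothTransition (s - 1) with hΨ
  have d : ∀ t, HasDerivAt Ψ (Real.smoothTransition (t - 1)) t := fun t =>
    (hc.continuous.integral_hasStrictDerivAt 0 t).hasDerivAt
  have d' : deriv Ψ = fun t => Real.smoothTransition (t - 1) := funext fun t => (d t).deriv
  have df : Differentiable ℝ Ψ := fun t => (d t).differentiableAt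
  have l : ∀ s t, s ≤ t → 0 ≤ Ψ t - Ψ s ∧ Ψ t - Ψ s ≤ t - s := fun s t h => by
    have a := mul_sub_le_image_sub_of_le_deriv df (C := 0)
      (fun t => by rw [d']; exact Real.smoothTransition.nonneg _) h
    have b := image_sub_le_mul_sub_of_deriv_le df (C := 1)
      (fun t => by rw [d']; exact Real.smoothTransition.le_one _) h
    constructor <;> linarith
  have z : ∀ t ≤ 1, Ψ t = 0 := fun t ht => by
    rw [hΨ]
    refine (intervalIntegral.integral_congr (g := fun _ => 0) fun s hs => ?_).trans (by simp)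
    refine Real.smoothTransition.zero_of_nonpos ?_
    rcases mem_uIcc.1 hs with h | h <;> linarith [h.2]
  have p : ∀ t, 0 ≤ Ψ t := fun t => by
    rcases le_total t 1 with h | h
    · exact (z t h).ge
    · linarith [(l 1 t h).1, z 1 le_rfl]
  refine ⟨Ψ, contDiff_infty_iff_deriv.2 ⟨df, d' ▸ hc⟩, z, fun t => ⟨?_, ?_, ?_, ?_, p t, ?_⟩,
    fun t ht => ?_, fun s t => ?_⟩
  · rw [d']
    exact Real.smoothTransition.nonneg _
  · rw [d']
    exact Real.smoothTransition.le_one _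
  · rw [d']
    exact Monotone.deriv_nonneg fun a b h => Real.smoothTransition.monotone (by linarith)
  · rcases le_total t 2 with h | h
    · linarith [p t]
    · have := (convex_Ici (2 : ℝ)).mul_sub_le_image_sub_of_le_deriv df.continuous.continuousOn
        df.differentiableOn (C := 1) (fun x hx => by
          rw [d']
          exact (Real.smoothTransition.one_of_one_le
            (by linarith [mem_Ici.1 (interior_subset hx)])).ge) 2 self_mem_Ici t h h
      linarith [p 2]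
  · rcases le_total t 0 with h | h
    · rw [z t (by linarith)]
      exact le_max_right _ _
    · linarith [(l 0 t h).2, z 0 zero_le_one, le_max_left t 0]
  · rw [d']
    exact Real.smoothTransition.one_of_one_le (by linarith)
  · rcases le_total s t with h | h
    · rw [abs_sub_comm, abs_of_nonneg (l s t h).1, abs_sub_comm, abs_of_nonneg (sub_nonneg.2 h)]
      exact (l s t h).2
    · rw [abs_of_nonneg (l t s h).1, abs_of_nonneg (sub_nonneg.2 h)]
      exact (l t s h).2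

end Pool.Agent.MP_7504ef_an

end

section

/-!
Cutting off near the zeros of `q`.
-/

set_option autoImplicit false

open MeasureTheory Filter Set Topology Bornology Metric
open scoped ContDiff

namespace Pool.Agent.MP_7504ef_an

theorem sm_cut : ContDiff ℝ ∞ Real.smoothTransition := Real.smoothTransition.contDiff

theorem sm1_cut : ContDiff ℝ ∞ (deriv Real.smoothTransition) :=
  (contDiff_infty_iff_deriv.1 sm_cut).2

theorem sm2_cut : ContDiff ℝ ∞ (deriv (deriv Real.smoothTransition)) :=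
  (contDiff_infty_iff_deriv.1 sm1_cut).2

theorem loc_cut {t : ℝ} (ht : t ∉ Icc (0 : ℝ) 1) :
    ∃ c : ℝ, Real.smoothTransition =ᶠ[𝓝 t] fun _ => c := by
  rcases lt_or_ge t 0 with h | h
  · exact ⟨0, Filter.mem_of_superset (Iio_mem_nhds h) fun s hs =>
      Real.smoothTransition.zero_of_nonpos (le_of_lt hs)⟩
  · have h1 : 1 < t := lt_of_not_ge fun e => ht ⟨h, e⟩
    exact ⟨1, Filter.mem_of_superset (Ioi_mem_nhds h1) fun s hs =>
      Real.smoothTransition.one_of_one_le (le_of_lt hs)⟩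

theorem van_cut {t : ℝ} (ht : t ∉ Icc (0 : ℝ) 1) :
    deriv Real.smoothTransition t = 0 ∧ deriv (deriv Real.smoothTransition) t = 0 := by
  obtain ⟨c, h⟩ := loc_cut ht
  refine ⟨by rw [h.deriv_eq]; simp, ?_⟩
  rw [h.deriv.deriv_eq]
  simp

theorem bd_cut {h : ℝ → ℝ} (hc : Continuous h) (h0 : ∀ t, t ∉ Icc (0 : ℝ) 1 → h t = 0) :
    ∃ M, 0 ≤ M ∧ ∀ t, |h t| ≤ M := by
  obtain ⟨M, hM⟩ := (isCompact_Icc (a := (0 : ℝ)) (b := 1)).exists_bound_of_continuousOn
    hc.continuousOn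
  refine ⟨|M|, abs_nonneg _, fun t => ?_⟩
  by_cases ht : t ∈ Icc (0 : ℝ) 1
  · exact (hM t ht).trans (le_abs_self M)
  · rw [h0 t ht, abs_zero]
    exact abs_nonneg _

theorem exM_cut : ∃ M : ℝ, 0 ≤ M ∧ ∀ t, 0 ≤ t →
    t * |deriv Real.smoothTransition (t - 1)| ≤ M ∧
    t * t * |deriv (deriv Real.smoothTransition) (t - 1)| ≤ M := by
  obtain ⟨M1, p1, h1⟩ := bd_cut (h := fun s => (s + 1) * deriv Real.smoothTransition s)
    ((continuous_id.add continuous_const).mul sm1_cut.continuous)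
    fun t ht => by rw [(van_cut ht).1, mul_zero]
  obtain ⟨M2, p2, h2⟩ := bd_cut
    (h := fun s => (s + 1) * (s + 1) * deriv (deriv Real.smoothTransition) s)
    (((continuous_id.add continuous_const).mul (continuous_id.add continuous_const)).mul
      sm2_cut.continuous) fun t ht => by rw [(van_cut ht).2, mul_zero]
  refine ⟨M1 + M2, by positivity, fun t ht => ⟨?_, ?_⟩⟩
  · have := h1 (t - 1)
    rw [sub_add_cancel, abs_mul, abs_of_nonneg ht] at this
    linarith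
  · have := h2 (t - 1)
    rw [sub_add_cancel, abs_mul, abs_of_nonneg (mul_nonneg ht ht)] at this
    linarith

theorem est_cut {t z a b c L G L' G' C M K K' : ℝ} (hC : 0 ≤ C) (hM : 0 ≤ M)
    (hz : |z| ≤ C * t) (hG : |G| ≤ C * t) (hG' : |G'| ≤ C * t) (ha : t * |a| ≤ M)
    (hb : t * t * |b| ≤ M) (hc : |c| ≤ 1) (hL : |L| ≤ K) (hL' : |L'| ≤ K') :
    |z * a * L + z * G * b + c * L' + 2 * (G' * a)| ≤ C * M * K + C * C * M + K' + 2 * (C * M) := by
  have k : ∀ u : ℝ, |u| ≤ C * t → |u * a| ≤ C * M := fun u hu => by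
    rw [abs_mul]
    calc |u| * |a| ≤ C * t * |a| := mul_le_mul_of_nonneg_right hu (abs_nonneg _)
      _ = C * (t * |a|) := by ring
      _ ≤ C * M := mul_le_mul_of_nonneg_left ha hC
  have e1 : |z * a * L| ≤ C * M * K := by
    rw [abs_mul]
    exact mul_le_mul (k z hz) hL (abs_nonneg _) (mul_nonneg hC hM)
  have e2 : |z * G * b| ≤ C * C * M := by
    rw [abs_mul, abs_mul]
    calc |z| * |G| * |b| ≤ C * t * (C * t) * |b| := mul_le_mul_of_nonneg_right
          (mul_le_mul hz hG (abs_nonneg _) ((abs_nonneg _).trans hz)) (abs_nonneg _)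
      _ = C * C * (t * t * |b|) := by ring
      _ ≤ C * C * M := mul_le_mul_of_nonneg_left hb (mul_nonneg hC hC)
  have e3 : |c * L'| ≤ K' := by
    rw [abs_mul]
    calc |c| * |L'| ≤ 1 * K' := mul_le_mul hc hL' (abs_nonneg _) zero_le_one
      _ = K' := one_mul _
  have e4 := k G' hG'
  have e5 := abs_le.1 e1
  have e6 := abs_le.1 e2
  have e7 := abs_le.1 e3
  have e8 := abs_le.1 e4
  exact abs_le.2 ⟨by linarith [e5.1, e6.1, e7.1, e8.1], by linarith [e5.2, e6.2, e7.2, e8.2]⟩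

theorem der_cut {Φ : ℝ → ℝ} (hΦ : ContDiff ℝ ∞ Φ) (δ t : ℝ) :
    HasDerivAt (fun s => Φ (s / δ - 1)) (deriv Φ (t / δ - 1) / δ) t := by
  have h1 : HasDerivAt (fun s : ℝ => s / δ - 1) (1 / δ) t :=
    ((hasDerivAt_id t).div_const δ).sub_const 1
  have h2 := (hΦ.differentiable (by simp) (t / δ - 1)).hasDerivAt.comp t h1
  rw [mul_one_div] at h2
  exact h2

theorem form_cut {N : ℕ} {q ζ : E N → ℝ} (hq : ContDiff ℝ ∞ q) (hζ : ContDiff ℝ ∞ ζ) (δ : ℝ)
    (x : E N) :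
    lap (fun y => ζ y * Real.smoothTransition (q y / δ - 1)) x =
      ζ x / δ * deriv Real.smoothTransition (q x / δ - 1) * lap q x +
      ζ x / δ * (gam q q x / δ) * deriv (deriv Real.smoothTransition) (q x / δ - 1) +
      Real.smoothTransition (q x / δ - 1) * lap ζ x +
      2 * (gam ζ q x / δ * deriv Real.smoothTransition (q x / δ - 1)) := by
  have hs : ContDiff ℝ ∞ fun y => Real.smoothTransition (q y / δ - 1) :=
    sm_cut.comp ((hq.div_const δ).sub contDiff_const)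
  have e1 := lap_comp (f := q) (x := x) (Φ := fun s => Real.smoothTransition (s / δ - 1))
    (Φ' := fun s => deriv Real.smoothTransition (s / δ - 1) / δ)
    (.of_forall fun t => der_cut sm_cut δ t) ((der_cut sm1_cut δ (q x)).div_const δ) (sm_c2 hq x)
  have e2 := gam_comp (k := ζ) (f := q) (x := x)
    (Φ := fun s => Real.smoothTransition (s / δ - 1)) (der_cut sm_cut δ (q x)) (sm_d hq x)
  rw [lap_mul (sm_c2 hζ x) (sm_c2 hs x), e1, e2]
  ring

theorem CUT_pf : CUT_st := by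
  intro N Ω w q ζ C hΩ hb hw hq hζ h
  obtain ⟨M, hM, hM'⟩ := exM_cut
  obtain ⟨K, -, hK⟩ := ex_bd hb (sm_lap hq).continuous
  obtain ⟨K', -, hK'⟩ := ex_bd hb (sm_lap hζ).continuous
  refine tendsto_integral_filter_of_dominated_convergence
    (fun x => |w x| * (C * M * K + C * C * M + K' + 2 * (C * M))) (.of_forall fun δ => ?_) ?_
    (hw.abs.mul_const _) ?_
  · exact (int_mul hb hΩ.measurableSet hw (sm_lap (hζ.mul
      (sm_cut.comp ((hq.div_const δ).sub contDiff_const)))).continuous).aestronglyMeasurable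
  · filter_upwards [self_mem_nhdsWithin] with δ hδ
    have hδ' : 0 < δ := hδ
    refine (ae_restrict_mem hΩ.measurableSet).mono fun x hx => ?_
    obtain ⟨h0, h1, h2, h3⟩ := h x hx
    have hC : 0 ≤ C := nonneg_of_mul_nonneg_left ((abs_nonneg _).trans h1) h0
    have k : ∀ u : ℝ, |u| ≤ C * q x → |u / δ| ≤ C * (q x / δ) := fun u hu => by
      rw [abs_div, abs_of_pos hδ', ← mul_div_assoc]
      exact div_le_div_of_nonneg_right hu hδ'.le
    rw [Real.norm_eq_abs, abs_mul, form_cut hq hζ]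
    refine mul_le_mul_of_nonneg_left ?_ (abs_nonneg _)
    have ht := hM' (q x / δ) (div_pos h0 hδ').le
    refine est_cut hC hM (k _ h1) (k _ ?_) (k _ ?_) ht.1 ht.2 ?_ (hK x hx) (hK' x hx)
    · rw [abs_of_nonneg (gam_nonneg _ _)]
      exact h3
    · linarith [abs_gam_le ζ q x]
    · rw [abs_of_nonneg (Real.smoothTransition.nonneg _)]
      exact Real.smoothTransition.le_one _
  · refine (ae_restrict_mem hΩ.measurableSet).mono fun x hx => ?_
    have h0 := (h x hx).1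
    refine tendsto_const_nhds.congr' ?_
    filter_upwards [Ioo_mem_nhdsGT (half_pos h0)] with δ hδ
    have e : ∀ᶠ y in 𝓝 x, 2 * δ < q y :=
      hq.continuous.continuousAt.eventually (lt_mem_nhds (by linarith [hδ.2]))
    have e' : (fun y => ζ y * Real.smoothTransition (q y / δ - 1)) =ᶠ[𝓝 x] ζ :=
      e.mono fun y hy => by
        have : 1 ≤ q y / δ - 1 := by
          rw [le_sub_iff_add_le, le_div_iff₀ hδ.1]
          linarith
        simp only [Real.smoothTransition.one_of_one_le this, mul_one]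
    rw [lap_congr e']

end Pool.Agent.MP_7504ef_an

end

section

/-!
Integrals with parameters.
-/

set_option autoImplicit false

open MeasureTheory Filter Set Topology Bornology Metric
open scoped ContDiff

namespace Pool.Agent.MP_7504ef_an

variable {N : ℕ}

theorem fd_par0 (k : E N → E N → ℝ) (s : ContDiff ℝ ∞ (Function.uncurry k)) :
    ContDiff ℝ ∞ fun p : E N × E N => fderiv ℝ (k p.1) p.2 :=
  ContDiff.fderiv (m := ∞) (f := fun p : E N × E N => k p.1)
    (s.comp (contDiff_fst.fst.prodMk contDiff_snd)) contDiff_snd (by simp)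

theorem dir_par0 (k : E N → E N → ℝ) (s : ContDiff ℝ ∞ (Function.uncurry k)) (v : E N) :
    ContDiff ℝ ∞ (Function.uncurry fun x z => fderiv ℝ (k x) z v) :=
  (fd_par0 k s).clm_apply contDiff_const

theorem der_par0 (k : E N → E N → ℝ) (s : ContDiff ℝ ∞ (Function.uncurry k)) {Ω : Set (E N)}
    {u : E N → ℝ} (hb : IsBounded Ω) (hm : MeasurableSet Ω) (hu : IntegrableOn u Ω) (z : E N) :
    DifferentiableAt ℝ (fun z => ∫ x in Ω, u x * k x z) z ∧
      ∀ v, fderiv ℝ (fun z => ∫ x in Ω, u x * k x z) z v = ∫ x in Ω, u x * fderiv ℝ (k x) z v := by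
  have c := (fd_par0 k s).continuous
  obtain ⟨M, hM⟩ := (hb.isCompact_closure.prod (isCompact_closedBall z 1)
    ).exists_bound_of_continuousOn c.continuousOn
  have cx : ∀ y, Continuous fun x => k x y := fun y => s.continuous.comp (.prodMk_left y)
  have m' : AEStronglyMeasurable (fun x => u x • fderiv ℝ (k x) z) (volume.restrict Ω) :=
    hu.1.smul (c.comp (.prodMk_left z)).aestronglyMeasurable
  have b : ∀ᵐ x ∂volume.restrict Ω, ∀ y ∈ closedBall z 1, ‖u x • fderiv ℝ (k x) y‖ ≤ ‖u x‖ * M :=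
    (ae_restrict_mem hm).mono fun x hx y hy => by
      rw [norm_smul]
      exact mul_le_mul_of_nonneg_left (hM (x, y) ⟨subset_closure hx, hy⟩) (norm_nonneg _)
  have d := hasFDerivAt_integral_of_dominated_of_fderiv_le (μ := volume.restrict Ω)
    (F := fun z x => u x * k x z) (F' := fun z x => u x • fderiv ℝ (k x) z)
    (closedBall_mem_nhds z one_pos) (.of_forall fun y => (int_mul hb hm hu (cx y)).1)
    (int_mul hb hm hu (cx z)) m' b (hu.norm.mul_const M) (.of_forall fun x y _ =>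
      (sm_d (s.comp (contDiff_const.prodMk contDiff_id) : ContDiff ℝ ∞ (k x)) y
        ).hasFDerivAt.const_mul (u x))
  refine ⟨d.differentiableAt, fun v => ?_⟩
  rw [d.fderiv, ContinuousLinearMap.integral_apply ((hu.norm.mul_const M).mono' m'
    (b.mono fun x hx => hx z (mem_closedBall_self zero_le_one)))]
  rfl

theorem PAR0_pf : PAR_st := by
  intro N k s
  have p : ∀ (k : E N → E N → ℝ), ContDiff ℝ ∞ (Function.uncurry k) → ∀ i,
      ContDiff ℝ ∞ (Function.uncurry fun x z => pd i (k x) z) := fun k s i => dir_par0 k s _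
  refine ⟨p k s, ContDiff.sum (s := Finset.univ)
    (f := fun i (q : E N × E N) => pd i (pd i (k q.1)) q.2)
    fun i _ => p _ (p k s i) i, fun Ω u hb hm hu => ?_⟩
  have e : ∀ (k : E N → E N → ℝ), ContDiff ℝ ∞ (Function.uncurry k) → ∀ i,
      pd i (fun z => ∫ x in Ω, u x * k x z) = fun z => ∫ x in Ω, u x * pd i (k x) z :=
    fun k s i => funext fun z => (der_par0 k s hb hm hu z).2 _
  refine ⟨contDiff_infty.2 fun n => ?_, fun i z => congrFun (e k s i) z, fun z => ?_⟩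
  · clear e
    induction n generalizing k with
    | zero => exact contDiff_zero.2 (continuous_iff_continuousAt.2 fun z =>
        (der_par0 k s hb hm hu z).1.continuousAt)
    | succ n ih =>
      rw [Nat.cast_succ, contDiff_succ_iff_fderiv_apply]
      refine ⟨fun z => (der_par0 k s hb hm hu z).1, by simp, fun v => ?_⟩
      rw [funext fun z => (der_par0 k s hb hm hu z).2 v]
      exact ih _ (dir_par0 k s v)
  · simp only [lap, Finset.mul_sum]
    rw [integral_finsetSum (f := fun i x => u x * pd i (pd i (k x)) z) _ fun i _ => int_mul hb hm hu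
      ((p _ (p k s i) i).continuous.comp (.prodMk_left z))]
    refine Finset.sum_congr rfl fun i _ => ?_
    rw [e k s i, e _ (p k s i) i]

end Pool.Agent.MP_7504ef_an

end

section

/-!
Approximate identities in `L¹`.
-/

set_option autoImplicit false

open MeasureTheory Filter Set Topology Bornology Metric
open scoped ContDiff

namespace Pool.Agent.MP_7504ef_an

variable {N : ℕ}

theorem cont_apx {v : E N → ℝ} (hv : Integrable v) :
    Continuous fun h : E N => ∫ z, |v (z - h) - v z| := by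
  let g : E N → C(E N, E N) := fun h => ⟨fun z => z - h, by fun_prop⟩
  have hg : Continuous g := ContinuousMap.continuous_of_continuous_uncurry g
    (show Continuous fun p : E N × E N => p.2 - p.1 by fun_prop)
  have hm : ∀ h, MeasurePreserving (g h) volume volume := fun h =>
    measurePreserving_sub_right volume h
  have h1 := ((continuous_const (y := hv.toL1 v)).compMeasurePreservingLp hg hm
    ENNReal.one_ne_top).sub (continuous_const (y := hv.toL1 v))
  refine h1.norm.congr fun h => ?_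
  rw [L1.norm_eq_integral_norm]
  refine integral_congr_ae ?_
  filter_upwards [Lp.coeFn_sub (Lp.compMeasurePreserving (g h) (hm h) (hv.toL1 v)) (hv.toL1 v),
    Lp.coeFn_compMeasurePreserving (hv.toL1 v) (hm h), hv.coeFn_toL1,
    (hm h).quasiMeasurePreserving.ae hv.coeFn_toL1] with z a b c d
  rw [Pi.sub_apply, a, Pi.sub_apply, b, c, Function.comp_apply, d]
  rfl

theorem bd_apx {v : E N → ℝ} (hv : Integrable v) (h : E N) :
    ∫ z, |v (z - h) - v z| ≤ 2 * ∫ z, |v z| := by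
  have h1 := hv.comp_sub_right h
  refine (integral_mono (h1.sub hv).abs (h1.abs.add hv.abs) fun z => abs_sub _ _).trans_eq ?_
  simp only [Pi.add_apply]
  rw [integral_add h1.abs hv.abs, integral_sub_right_eq_self (fun z => |v z|) h, two_mul]

theorem conv_apx {v ψ : E N → ℝ} (hv : Integrable v) (hψ : Integrable ψ) (h0 : ∀ x, 0 ≤ ψ x)
    (h1 : ∫ x, ψ x = 1) : Integrable (fun z => |(∫ x, v x * ψ (z - x)) - v z|) ∧
    ∫ z, |(∫ x, v x * ψ (z - x)) - v z| ≤ ∫ y, ψ y * ∫ z, |v (z - y) - v z| := by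
  have a : Integrable (fun p : E N × E N => ψ p.2 * v (p.1 - p.2)) (volume.prod volume) :=
    hψ.convolution_integrand (ContinuousLinearMap.mul ℝ ℝ) hv
  have b : Integrable (fun p : E N × E N => ψ p.2 * (v (p.1 - p.2) - v p.1))
      (volume.prod volume) :=
    (a.sub (hv.mul_prod hψ)).congr (ae_of_all _ fun p => by simp only [Pi.sub_apply]; ring)
  have e : (fun z => |∫ y, ψ y * (v (z - y) - v z)|) =ᵐ[volume]
      fun z => |(∫ x, v x * ψ (z - x)) - v z| := by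
    filter_upwards [a.prod_right_ae] with z hz
    simp only [mul_sub]
    rw [integral_sub hz (hψ.mul_const _), integral_mul_const, h1, one_mul,
      ← integral_sub_left_eq_self (fun x => v x * ψ (z - x)) volume z]
    simp only [sub_sub_cancel, mul_comm]
  refine ⟨b.integral_prod_left.abs.congr e, ?_⟩
  rw [← integral_congr_ae e]
  refine (integral_mono b.integral_prod_left.abs b.integral_norm_prod_left fun z =>
    norm_integral_le_integral_norm (fun y => ψ y * (v (z - y) - v z))).trans_eq ?_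
  rw [integral_integral_swap (f := fun z y => ‖ψ y * (v (z - y) - v z)‖) b.norm]
  refine integral_congr_ae (ae_of_all _ fun y => ?_)
  simp only [Real.norm_eq_abs, abs_mul, abs_of_nonneg (h0 y), integral_const_mul]

theorem APX_pf : APX_st := by
  intro N Ω u φ hΩ hu hc hφ h0 h1
  have hv : Integrable (Ω.indicator u) := (integrable_indicator_iff hΩ).2 hu
  set v := Ω.indicator u with hvd
  set T : E N → ℝ := fun h => ∫ z, |v (z - h) - v z| with hT
  have Tc : Continuous T := cont_apx hv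
  have lim : Tendsto (fun ε : ℝ => ∫ y, φ y * T (ε • y)) (𝓝[>] 0) (𝓝 0) := by
    have := tendsto_integral_filter_of_dominated_convergence (μ := volume) (l := 𝓝[>] (0 : ℝ))
      (F := fun ε y => φ y * T (ε • y)) (f := fun _ => (0 : ℝ)) (fun y => φ y * (2 * ∫ z, |v z|))
      (Eventually.of_forall fun ε => Continuous.aestronglyMeasurable (by fun_prop))
      (Eventually.of_forall fun ε => ae_of_all _ fun y => by
        rw [Real.norm_eq_abs, abs_mul, abs_of_nonneg (h0 y),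
          abs_of_nonneg (integral_nonneg fun z => abs_nonneg _)]
        exact mul_le_mul_of_nonneg_left (bd_apx hv _) (h0 y))
      (hφ.mul_const _) (ae_of_all _ fun y => by
        have c : Continuous fun ε : ℝ => φ y * T (ε • y) := by fun_prop
        have := (c.tendsto 0).mono_left (nhdsWithin_le_nhds (s := Ioi (0 : ℝ)))
        simpa [hT] using this)
    simpa using this
  refine squeeze_zero' (Eventually.of_forall fun ε => integral_nonneg fun z => abs_nonneg _) ?_ lim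
  filter_upwards [self_mem_nhdsWithin] with ε (hε : 0 < ε)
  have hp : 0 < ε ^ N := pow_pos hε N
  have sc : ∀ f : E N → ℝ, ∫ x, (ε ^ N)⁻¹ * f (ε⁻¹ • x) = ∫ x, f x := fun f => by
    rw [integral_const_mul, Measure.integral_comp_inv_smul, finrank_euclideanSpace_fin,
      abs_of_pos hp, smul_eq_mul, inv_mul_cancel_left₀ hp.ne']
  obtain ⟨a, b⟩ := conv_apx (ψ := fun x => (ε ^ N)⁻¹ * φ (ε⁻¹ • x)) hv
    ((hφ.comp_smul (inv_ne_zero hε.ne')).const_mul _)
    (fun x => mul_nonneg (inv_nonneg.2 hp.le) (h0 _)) ((sc φ).trans h1)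
  calc _ = ∫ z in Ω, |(∫ x, v x * ((ε ^ N)⁻¹ * φ (ε⁻¹ • (z - x)))) - v z| := by
        refine setIntegral_congr_fun hΩ fun z hz => ?_
        simp only [hvd, indicator_of_mem hz, ← integral_indicator hΩ, indicator_mul_left]
    _ ≤ _ := setIntegral_le_integral a (ae_of_all _ fun z => abs_nonneg _)
    _ ≤ _ := b
    _ = _ := by
        rw [← sc fun y => φ y * T (ε • y)]
        simp only [smul_inv_smul₀ hε.ne', mul_assoc, hT]

end Pool.Agent.MP_7504ef_an

end

section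

/-!
Kernels in a boundary layer are negligible.
-/

set_option autoImplicit false

open MeasureTheory Filter Set Topology Bornology Metric
open scoped ContDiff ENNReal

namespace Pool.Agent.MP_7504ef_an

theorem lim_tail {N : ℕ} {Ω : Set (E N)} {u r : E N → ℝ} (hΩ : MeasurableSet Ω)
    (hr : Continuous r) (hp : ∀ x ∈ Ω, 0 < r x) (hu : IntegrableOn u Ω) (D : ℝ) :
    Tendsto (fun ε : ℝ => ∫⁻ x in Ω, {x | r x ≤ D * ε}.indicator (fun x => ‖u x‖ₑ) x)
      (𝓝[>] 0) (𝓝 0) := by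
  have h := tendsto_lintegral_filter_of_dominated_convergence' (μ := volume.restrict Ω)
    (l := 𝓝[>] (0 : ℝ)) (F := fun ε x => {x | r x ≤ D * ε}.indicator (fun x => ‖u x‖ₑ) x)
    (f := fun _ => 0) (fun x => ‖u x‖ₑ)
    (Eventually.of_forall fun ε =>
      hu.1.enorm.indicator (isClosed_le hr continuous_const).measurableSet)
    (Eventually.of_forall fun ε => Eventually.of_forall fun x => indicator_le_self _ _ x)
    hu.2.ne ?_
  · simpa using h
  · filter_upwards [ae_restrict_mem hΩ] with x hx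
    have h1 : Tendsto (fun ε : ℝ => D * ε) (𝓝[>] 0) (𝓝 0) := by
      have : Tendsto (fun ε : ℝ => D * ε) (𝓝 0) (𝓝 (D * 0)) :=
        (continuous_const.mul continuous_id).tendsto 0
      rw [mul_zero] at this
      exact this.mono_left nhdsWithin_le_nhds
    refine tendsto_const_nhds.congr' ?_
    filter_upwards [h1.eventually (gt_mem_nhds (hp x hx))] with ε hε
    rw [indicator_of_notMem]
    exact not_le.2 hε

theorem bd_tail {N : ℕ} {Ω : Set (E N)} {u r : E N → ℝ} (hΩ : MeasurableSet Ω)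
    (hr : Continuous r) (hu : IntegrableOn u Ω) {D ε : ℝ} (hD : 0 ≤ D) (hε : 0 < ε)
    {k : E N → E N → ℝ} (hk : ∀ x ∈ Ω, ∀ z ∈ Ω,
      |k x z| ≤ D * (ε ^ N)⁻¹ ∧ (k x z ≠ 0 → ‖x - z‖ ≤ ε ∧ r x ≤ D * ε)) :
    ‖∫ z in Ω, |∫ x in Ω, u x * k x z|‖ₑ ≤ ENNReal.ofReal D * volume (ball (0 : E N) 1) *
      ∫⁻ x in Ω, {x | r x ≤ D * ε}.indicator (fun x => ‖u x‖ₑ) x := by
  set g : E N → ℝ≥0∞ := {x | r x ≤ D * ε}.indicator (fun x => ‖u x‖ₑ) with hg
  set c : ℝ≥0∞ := ENNReal.ofReal (D * (ε ^ N)⁻¹) with hc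
  have hgm : AEMeasurable g (volume.restrict Ω) :=
    hu.1.enorm.indicator (isClosed_le hr continuous_const).measurableSet
  have hS : MeasurableSet {p : E N × E N | ‖p.2 - p.1‖ ≤ ε} :=
    (isClosed_le (by fun_prop) continuous_const).measurableSet
  have h1 : ∀ z ∈ Ω, ‖|∫ x in Ω, u x * k x z|‖ₑ ≤
      ∫⁻ x in Ω, g x * {p : E N × E N | ‖p.2 - p.1‖ ≤ ε}.indicator (fun _ => c) (z, x) := by
    intro z hz
    rw [Real.enorm_abs]
    refine (enorm_integral_le_lintegral_enorm _).trans (lintegral_mono_ae ?_)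
    filter_upwards [ae_restrict_mem hΩ] with x hx
    by_cases h0 : k x z = 0
    · simp [h0]
    · obtain ⟨a, b⟩ := (hk x hx z hz).2 h0
      rw [enorm_mul, hg, indicator_of_mem (show x ∈ {x | r x ≤ D * ε} from b),
        indicator_of_mem (show (z, x) ∈ {p : E N × E N | ‖p.2 - p.1‖ ≤ ε} from a)]
      gcongr
      rw [Real.enorm_eq_ofReal_abs, hc]
      exact ENNReal.ofReal_le_ofReal (hk x hx z hz).1
  have h2 : ∀ x : E N, ∫⁻ z in Ω,
      {p : E N × E N | ‖p.2 - p.1‖ ≤ ε}.indicator (fun _ => c) (z, x) ≤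
      ENNReal.ofReal D * volume (ball (0 : E N) 1) := by
    intro x
    have e : (fun z : E N => {p : E N × E N | ‖p.2 - p.1‖ ≤ ε}.indicator (fun _ => c) (z, x)) =
        (closedBall x ε).indicator fun _ => c := by
      funext z
      by_cases h : ‖x - z‖ ≤ ε
      · rw [indicator_of_mem (show (z, x) ∈ {p : E N × E N | ‖p.2 - p.1‖ ≤ ε} from h),
          indicator_of_mem (by rwa [mem_closedBall, dist_comm, dist_eq_norm])]
      · rw [indicator_of_notMem (show (z, x) ∉ {p : E N × E N | ‖p.2 - p.1‖ ≤ ε} from h),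
          indicator_of_notMem (by rwa [mem_closedBall, dist_comm, dist_eq_norm])]
    rw [e]
    refine (setLIntegral_le_lintegral _ _).trans (le_of_eq ?_)
    rw [lintegral_indicator_const measurableSet_closedBall, Measure.addHaar_closedBall _ _ hε.le,
      finrank_euclideanSpace_fin, hc, ← mul_assoc, ← ENNReal.ofReal_mul (by positivity),
      mul_assoc, inv_mul_cancel₀ (by positivity), mul_one]
  calc _ ≤ ∫⁻ z in Ω, ‖|∫ x in Ω, u x * k x z|‖ₑ := enorm_integral_le_lintegral_enorm _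
    _ ≤ ∫⁻ z in Ω, ∫⁻ x in Ω,
        g x * {p : E N × E N | ‖p.2 - p.1‖ ≤ ε}.indicator (fun _ => c) (z, x) :=
      lintegral_mono_ae ((ae_restrict_mem hΩ).mono h1)
    _ = ∫⁻ x in Ω, ∫⁻ z in Ω,
        g x * {p : E N × E N | ‖p.2 - p.1‖ ≤ ε}.indicator (fun _ => c) (z, x) :=
      lintegral_lintegral_swap
        (hgm.comp_snd.mul (measurable_const.indicator hS).aemeasurable)
    _ ≤ ∫⁻ x in Ω, ENNReal.ofReal D * volume (ball (0 : E N) 1) * g x := by
      refine lintegral_mono fun x => ?_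
      have hm : Measurable fun z : E N =>
          {p : E N × E N | ‖p.2 - p.1‖ ≤ ε}.indicator (fun _ => c) (z, x) :=
        (measurable_const.indicator hS).comp measurable_prodMk_right
      rw [lintegral_const_mul _ hm, mul_comm]
      gcongr
      exact h2 x
    _ = _ := lintegral_const_mul'' _ hgm

theorem TAIL_pf : TAIL_st := by
  intro N Ω u r κ hD hu _ ⟨C, hC⟩
  have hΩ := hD.op.measurableSet
  have hr := hD.sm.continuous
  rw [tendsto_zero_iff_enorm_tendsto_zero]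
  have h := ENNReal.Tendsto.const_mul
    (a := ENNReal.ofReal (max C 0) * volume (ball (0 : E N) 1))
    (lim_tail hΩ hr hD.pos hu (max C 0))
    (Or.inr (ENNReal.mul_ne_top ENNReal.ofReal_ne_top measure_ball_lt_top.ne))
  rw [mul_zero] at h
  refine tendsto_of_tendsto_of_tendsto_of_le_of_le' tendsto_const_nhds h
    (Eventually.of_forall fun _ => zero_le) ?_
  filter_upwards [Ioo_mem_nhdsGT (zero_lt_one' ℝ)] with ε hε
  refine bd_tail hΩ hr hu (le_max_right _ _) hε.1 fun x hx z hz => ?_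
  obtain ⟨a, b⟩ := hC ε hε x hx z hz
  have h0 := hε.1
  refine ⟨a.trans ?_, fun h => ⟨(b h).1, (b h).2.trans ?_⟩⟩
  · gcongr
    exact le_max_left _ _
  · gcongr
    exact le_max_left _ _

end Pool.Agent.MP_7504ef_an

end

section

/-!
Smoothing a measure.
-/

set_option autoImplicit false

open MeasureTheory Filter Set Topology Bornology Metric
open scoped ContDiff

namespace Pool.Agent.MP_7504ef_an

theorem one_muf {N : ℕ} {φ : E N → ℝ} (h1 : ∫ x, φ x = 1) {ε : ℝ} (hε : 0 < ε) (x : E N) :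
    ∫ z, (ε ^ N)⁻¹ * φ (ε⁻¹ • (z - x)) = 1 := by
  rw [integral_const_mul, integral_sub_right_eq_self (fun z => φ (ε⁻¹ • z)) x,
    Measure.integral_comp_inv_smul_of_nonneg _ _ hε.le, h1]
  simp [hε.ne']

theorem MUF_pf : MUF_st := by
  intro N Ω μ ζ φ ho hb hμ hζ h0 hφ hp hs h1
  obtain ⟨L, hL, hl⟩ := ex_lip hb hζ
  refine ⟨L * μ.real Ω, fun ε hε => ?_⟩
  have hc : Continuous fun p : E N × E N => ζ p.1 * ((ε ^ N)⁻¹ * φ (ε⁻¹ • (p.1 - p.2))) := by
    have := hζ.continuous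
    fun_prop
  have hi : Integrable (Function.uncurry fun z x : E N => ζ z * ((ε ^ N)⁻¹ * φ (ε⁻¹ • (z - x))))
      ((volume.restrict Ω).prod (μ.restrict Ω)) := by
    rw [Measure.prod_restrict]
    exact (hc.continuousOn.integrableOn_compact (hb.isCompact_closure.prod hb.isCompact_closure)
      ).mono_set (prod_mono subset_closure subset_closure)
  have e : (fun z => ζ z * ∫ x in Ω, (ε ^ N)⁻¹ * φ (ε⁻¹ • (z - x)) ∂μ) =
      fun z => ∫ x in Ω, ζ z * ((ε ^ N)⁻¹ * φ (ε⁻¹ • (z - x))) ∂μ := by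
    ext z
    rw [← integral_const_mul]
  rw [e]
  refine ⟨hi.integral_prod_left, ?_⟩
  rw [integral_integral_swap hi]
  have iz : IntegrableOn ζ Ω μ := int_cont hb hζ.continuous
  have e2 : ∫ x in Ω, ζ x ∂μ + L * μ.real Ω * ε = ∫ x in Ω, (ζ x + L * ε) ∂μ := by
    rw [integral_add iz (integrable_const _), setIntegral_const, smul_eq_mul]
    ring
  rw [e2]
  refine setIntegral_mono_on hi.integral_prod_right (iz.add (integrable_const _)) ho.measurableSet
    fun x hx => ?_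
  have k0 : ∀ z, 0 ≤ (ε ^ N)⁻¹ * φ (ε⁻¹ • (z - x)) := fun z =>
    mul_nonneg (inv_nonneg.2 (pow_nonneg hε.1.le _)) (hp _)
  have k1 := one_muf h1 hε.1 x
  have ki : Integrable fun z => (ε ^ N)⁻¹ * φ (ε⁻¹ • (z - x)) :=
    .of_integral_ne_zero (by rw [k1]; exact one_ne_zero)
  have c0 : 0 ≤ ζ x + L * ε := add_nonneg (h0 x hx) (mul_pos hL hε.1).le
  calc ∫ z in Ω, ζ z * ((ε ^ N)⁻¹ * φ (ε⁻¹ • (z - x)))
      ≤ ∫ z in Ω, (ζ x + L * ε) * ((ε ^ N)⁻¹ * φ (ε⁻¹ • (z - x))) := by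
        refine setIntegral_mono_on (int_cont hb (hc.comp (Continuous.prodMk_left x)))
          (ki.const_mul _).integrableOn ho.measurableSet fun z hz => ?_
        by_cases h : 1 ≤ ‖ε⁻¹ • (z - x)‖
        · simp [hs _ h]
        · refine mul_le_mul_of_nonneg_right ?_ (k0 z)
          rw [norm_smul, norm_inv, Real.norm_of_nonneg hε.1.le, not_le, inv_mul_lt_iff₀ hε.1,
            mul_one] at h
          have := (le_abs_self _).trans (hl z hz x hx)
          nlinarith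
    _ ≤ ∫ z, (ζ x + L * ε) * ((ε ^ N)⁻¹ * φ (ε⁻¹ • (z - x))) :=
        setIntegral_le_integral (ki.const_mul _) (.of_forall fun z => mul_nonneg c0 (k0 z))
    _ = ζ x + L * ε := by rw [integral_const_mul, k1, mul_one]

end Pool.Agent.MP_7504ef_an

end

section

/-!
The commutator estimate for the reflected kernel.
-/

set_option autoImplicit false

open MeasureTheory Filter Set Topology Bornology Metric
open scoped ContDiff

namespace Pool.Agent.MP_7504ef_an

variable {N : ℕ}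

theorem symm_com (η : ℝ → ℝ) (r : E N → ℝ) (ε : ℝ) (z : E N) :
    (fun y => kern η r ε y z) = kern η r ε z := by
  ext y
  rw [kern, kern, norm_sub_rev, mul_right_comm 4 (r y)]

theorem lap_kern_com {η : ℝ → ℝ} {r : E N → ℝ} (hη : ContDiff ℝ ∞ η) (hr : ContDiff ℝ ∞ r) (ε : ℝ)
    (x z : E N) : lap (kern η r ε x) z = (ε ^ N)⁻¹ *
      (deriv η ((‖x - z‖ ^ 2 + 4 * r x * r z) / ε ^ 2) * ((ε ^ 2)⁻¹ * (2 * N + 4 * r x * lap r z)) +
        deriv (deriv η) ((‖x - z‖ ^ 2 + 4 * r x * r z) / ε ^ 2) * ((ε ^ 2)⁻¹ ^ 2 * (4 * ‖x - z‖ ^ 2 +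
          16 * r x * (∑ j, (z j - x j) * pd j r z) + 16 * r x ^ 2 * gam r r z))) := by
  have h1 : ContDiff ℝ ∞ fun y => 4 * r x * r y := contDiff_const.mul hr
  have h2 : ContDiff ℝ ∞ fun y => ‖y - x‖ ^ 2 + 4 * r x * r y := (sm_nsq x).add h1
  have h3 : ContDiff ℝ ∞ fun y => (ε ^ 2)⁻¹ * (‖y - x‖ ^ 2 + 4 * r x * r y) := contDiff_const.mul h2
  have e : kern η r ε x =
      fun y => (ε ^ N)⁻¹ * η ((ε ^ 2)⁻¹ * (‖y - x‖ ^ 2 + 4 * r x * r y)) := by
    ext y
    rw [kern, norm_sub_rev, div_eq_inv_mul]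
  have p : ∀ i, pd i (fun y => (ε ^ 2)⁻¹ * (‖y - x‖ ^ 2 + 4 * r x * r y)) z =
      (ε ^ 2)⁻¹ * (2 * (z i - x i) + 4 * r x * pd i r z) := fun i => by
    rw [pd_cmul _ (sm_d h2 z), pd_add (sm_d (sm_nsq x) z) (sm_d h1 z), pd_nsq,
      pd_cmul _ (sm_d hr z)]
  have g : gam (fun y => (ε ^ 2)⁻¹ * (‖y - x‖ ^ 2 + 4 * r x * r y))
      (fun y => (ε ^ 2)⁻¹ * (‖y - x‖ ^ 2 + 4 * r x * r y)) z = (ε ^ 2)⁻¹ ^ 2 * (4 * ‖x - z‖ ^ 2 +
        16 * r x * (∑ j, (z j - x j) * pd j r z) + 16 * r x ^ 2 * gam r r z) := by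
    simp only [gam, p]
    rw [nsq_eq]
    simp only [Finset.mul_sum, ← Finset.sum_add_distrib]
    exact Finset.sum_congr rfl fun j _ => by rw [PiLp.sub_apply]; ring
  have h4 : ContDiff ℝ ∞ fun y => η ((ε ^ 2)⁻¹ * (‖y - x‖ ^ 2 + 4 * r x * r y)) := hη.comp h3
  rw [e, lap_cmul _ (sm_c2 h4 z), lap_comp' hη (sm_c2 h3 z), g, lap_cmul _ (sm_c2 h2 z),
    lap_add (sm_c2 (sm_nsq x) z) (sm_c2 h1 z), lap_nsq, lap_cmul _ (sm_c2 hr z), norm_sub_rev z x,
    div_eq_inv_mul]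

theorem bd_com {h : ℝ → ℝ} (hc : Continuous h) (h0 : ∀ s, 1 < s → h s = 0) :
    ∃ B, 0 < B ∧ ∀ s, 0 ≤ s → |h s| ≤ B := by
  obtain ⟨M, hM⟩ := (isCompact_Icc (a := (0 : ℝ)) (b := 1)).exists_bound_of_continuousOn
    hc.continuousOn
  refine ⟨|M| + 1, by positivity, fun s hs => ?_⟩
  rcases le_or_gt s 1 with h1 | h1
  · exact (hM s ⟨hs, h1⟩).trans (by linarith [le_abs_self M])
  · rw [h0 s h1, abs_zero]
    positivity

theorem dz_com {h : ℝ → ℝ} (h0 : ∀ s, 1 < s → h s = 0) (s : ℝ) (hs : 1 < s) : deriv h s = 0 := by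
  have : h =ᶠ[𝓝 s] fun _ => 0 := Filter.mem_of_superset (Ioi_mem_nhds hs) fun t ht => h0 t ht
  rw [this.deriv_eq, deriv_const]

theorem loc_com {d a b L ε : ℝ} (hε : 0 < ε) (ha : 0 < a) (hb : 0 < b) (hL : 0 < L)
    (h1 : |a - b| ≤ L * d) (h2 : (d ^ 2 + 4 * a * b) / ε ^ 2 ≤ 1) :
    d ≤ ε ∧ a ≤ (L + 1) * ε ∧ b ≤ (L + 1) * ε := by
  rw [div_le_one (by positivity)] at h2
  have hab : 0 < a * b := mul_pos ha hb
  have h3 : d ≤ ε := abs_le_of_sq_le_sq' (by linarith) hε.le |>.2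
  have h4 : L * d ≤ L * ε := mul_le_mul_of_nonneg_left h3 hL.le
  have h5 : 0 < L * ε := mul_pos hL hε
  obtain ⟨h6, h7⟩ := abs_le.1 h1
  refine ⟨h3, ?_, ?_⟩
  · by_contra h
    have : ε * ε < a * b := mul_lt_mul'' (by linarith) (by linarith) hε.le hε.le
    nlinarith [sq_nonneg d]
  · by_contra h
    have : ε * ε < a * b := mul_lt_mul'' (by linarith) (by linarith) hε.le hε.le
    nlinarith [sq_nonneg d]

theorem mul_com {a b A B : ℝ} (h : |a| ≤ A) (h' : |b| ≤ B) : |a * b| ≤ A * B := by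
  rw [abs_mul]
  exact mul_le_mul h h' (abs_nonneg _) ((abs_nonneg _).trans h)

theorem real_com {ε e n d a b P Q gx gz lx lz η1 η2 ζ K M B : ℝ} (hε : 0 < ε) (he : 0 < e)
    (ha : |a| ≤ K * ε) (hb : |b| ≤ K * ε) (hP : |P - (b - a)| ≤ M * ε ^ 2)
    (hQ : |Q - (a - b)| ≤ M * ε ^ 2) (hx : |gx - 1| ≤ M * ε) (hz : |gz - 1| ≤ M * ε)
    (hlx : |lx| ≤ M) (hlz : |lz| ≤ M) (h1 : |η1| ≤ B) (h2 : |η2| ≤ B) (hζ : |ζ| ≤ M * ε) :
    |ζ * (e * (η1 * ((ε ^ 2)⁻¹ * (n + 4 * a * lz)) +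
        η2 * ((ε ^ 2)⁻¹ ^ 2 * (4 * d + 16 * a * P + 16 * a ^ 2 * gz))) -
      e * (η1 * ((ε ^ 2)⁻¹ * (n + 4 * b * lx)) +
        η2 * ((ε ^ 2)⁻¹ ^ 2 * (4 * d + 16 * b * Q + 16 * b ^ 2 * gx))))| ≤
      M * B * (8 * K * M + 32 * (K * M + K ^ 2 * M)) * e := by
  have t1 : |a * lz - b * lx| ≤ 2 * K * M * ε :=
    (abs_sub _ _).trans (by linarith [mul_com ha hlz, mul_com hb hlx])
  have t2 : |a * (P - (b - a)) - b * (Q - (a - b)) + (a * a * (gz - 1) - b * b * (gx - 1))| ≤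
      2 * (K * M + K ^ 2 * M) * ε ^ 3 := by
    refine (abs_add_le _ _).trans ((add_le_add (abs_sub _ _) (abs_sub _ _)).trans ?_)
    linarith [mul_com ha hP, mul_com hb hQ, mul_com (mul_com ha ha) hz, mul_com (mul_com hb hb) hx]
  have c1 : |4 * (ε ^ 2)⁻¹| ≤ 4 * (ε ^ 2)⁻¹ := (abs_of_pos (by positivity)).le
  have c2 : |16 * (ε ^ 2)⁻¹ ^ 2| ≤ 16 * (ε ^ 2)⁻¹ ^ 2 := (abs_of_pos (by positivity)).le
  have t3 := (abs_add_le _ _).trans
    (add_le_add (mul_com h1 (mul_com c1 t1)) (mul_com h2 (mul_com c2 t2)))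
  have t4 := mul_com hζ (mul_com (abs_of_pos he).le t3)
  refine le_trans (le_of_eq ?_) (t4.trans (le_of_eq ?_))
  · congr 1
    ring
  · field_simp
    ring

theorem COM_pf : COM_st := by
  intro N Ω η r ζ C hr hη h0 hζ
  have hη1 : ContDiff ℝ ∞ (deriv η) := (contDiff_infty_iff_deriv.1 hη).2
  have hη2 : ContDiff ℝ ∞ (deriv (deriv η)) := (contDiff_infty_iff_deriv.1 hη1).2
  have z0 : ∀ s, 1 < s → η s = 0 := fun s hs => h0 s hs.le
  have z1 := dz_com z0
  have z2 := dz_com z1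
  obtain ⟨B0, b0, hB0⟩ := bd_com hη.continuous z0
  obtain ⟨B1, b1, hB1⟩ := bd_com hη1.continuous z1
  obtain ⟨B2, b2, hB2⟩ := bd_com hη2.continuous z2
  obtain ⟨L, l0, hL⟩ := ex_lip hr.bd hr.sm
  obtain ⟨L1, l1, hL1⟩ := ex_lip hr.bd (sm_gam hr.sm hr.sm)
  obtain ⟨M1, m1, hM1⟩ := ex_taylor hr.bd hr.sm
  obtain ⟨M2, m2, hM2⟩ := ex_bd hr.bd (sm_lap hr.sm).continuous
  have nn : ∀ (ε : ℝ), ∀ x ∈ Ω, ∀ z ∈ Ω, 0 ≤ (‖x - z‖ ^ 2 + 4 * r x * r z) / ε ^ 2 :=
    fun ε x hx z hz => by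
      have := hr.pos x hx
      have := hr.pos z hz
      positivity
  have loc : ∀ ε ∈ Ioo (0 : ℝ) 1, ∀ x ∈ Ω, ∀ z ∈ Ω, (‖x - z‖ ^ 2 + 4 * r x * r z) / ε ^ 2 ≤ 1 →
      ‖x - z‖ ≤ ε ∧ r x ≤ (L + 1) * ε ∧ r z ≤ (L + 1) * ε := fun ε hε x hx z hz h =>
    loc_com hε.1 (hr.pos x hx) (hr.pos z hz) l0 (hL x hx z hz) h
  refine ⟨fun ε x z => ?_, ⟨B0 + (L + 1), fun ε hε x hx z hz => ⟨?_, fun h => ?_⟩⟩, ?_⟩
  · rw [symm_com, lap_kern_com hη contDiff_const, lap_kern_com hη contDiff_const, norm_sub_rev z x]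
    simp
  · have he : 0 < (ε ^ N)⁻¹ := inv_pos.2 (pow_pos hε.1 _)
    rw [kern, mul_comm]
    exact (mul_com (hB0 _ (nn ε x hx z hz)) (abs_of_pos he).le).trans
      (mul_le_mul_of_nonneg_right (by linarith) he.le)
  · have := loc ε hε x hx z hz (not_lt.1 fun h' => h (by rw [kern, z0 _ h', mul_zero]))
    exact ⟨this.1, this.2.1.trans (mul_le_mul_of_nonneg_right (by linarith) hε.1.le)⟩
  · obtain ⟨M, hM⟩ : ∃ M, M = |C| * (L + 1) + L1 + M1 + M2 := ⟨_, rfl⟩
    have c0 : 0 ≤ |C| * (L + 1) := by positivity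
    have m0 : 0 < M := by linarith
    refine ⟨M * (B1 + B2) * (8 * (L + 1) * M + 32 * ((L + 1) * M + (L + 1) ^ 2 * M)) + (L + 1),
      fun ε hε x hx z hz => ?_⟩
    have he : 0 < (ε ^ N)⁻¹ := inv_pos.2 (pow_pos hε.1 _)
    have k0 : 0 ≤ M * (B1 + B2) * (8 * (L + 1) * M + 32 * ((L + 1) * M + (L + 1) ^ 2 * M)) := by
      positivity
    have ε0 := hε.1
    simp only [symm_com]
    rw [lap_kern_com hη hr.sm, lap_kern_com hη hr.sm, norm_sub_rev z x, mul_right_comm 4 (r z)]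
    rcases lt_or_ge 1 ((‖x - z‖ ^ 2 + 4 * r x * r z) / ε ^ 2) with h | h
    · rw [z1 _ h, z2 _ h]
      simp only [zero_mul, add_zero, mul_zero, sub_zero, abs_zero, ne_eq, not_true_eq_false,
        false_imp_iff, and_true]
      positivity
    obtain ⟨d1, a1, a2⟩ := loc ε hε x hx z hz h
    refine ⟨?_, fun _ => ⟨d1, a1.trans (mul_le_mul_of_nonneg_right (by linarith) ε0.le)⟩⟩
    by_cases hz0 : ζ z = 0
    · rw [hz0, zero_mul, abs_zero]
      positivity
    obtain ⟨q0, q1, q2⟩ := hζ z hz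
    have cz : C * r z ≤ |C| * (L + 1) * ε := by
      rw [mul_assoc]
      exact mul_le_mul (le_abs_self C) a2 (hr.pos z hz).le (abs_nonneg C)
    have up : ∀ {t : ℝ}, t ≤ M → t * ε ≤ M * ε := fun h => mul_le_mul_of_nonneg_right h ε0.le
    have d2 : ‖x - z‖ ^ 2 ≤ ε ^ 2 := pow_le_pow_left₀ (norm_nonneg _) d1 2
    have t2 : M1 * ‖x - z‖ ^ 2 ≤ M * ε ^ 2 := mul_le_mul (by linarith) d2 (by positivity) m0.le
    have neg : ∀ u v : E N, ∑ j, (u j - v j) * pd j r u = -∑ j, (v j - u j) * pd j r u :=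
      fun u v => by
        rw [← Finset.sum_neg_distrib]
        exact Finset.sum_congr rfl fun _ _ => by ring
    refine (real_com (K := L + 1) (M := M) (B := B1 + B2) ε0 he
      ((abs_of_pos (hr.pos x hx)).le.trans a1) ((abs_of_pos (hr.pos z hz)).le.trans a2) ?_ ?_ ?_
      ((q2 hz0).trans (cz.trans (up (by linarith)))) ((hM2 x hx).trans (by linarith))
      ((hM2 z hz).trans (by linarith)) ((hB1 _ (nn ε x hx z hz)).trans (by linarith))
      ((hB2 _ (nn ε x hx z hz)).trans (by linarith))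
      ((abs_of_nonneg q0).le.trans (q1.trans (cz.trans (up (by linarith)))))).trans
      (mul_le_mul_of_nonneg_right (by linarith) he.le)
    · refine le_trans (le_of_eq ?_) ((hM1 z hz x hx).trans t2)
      rw [neg]
      congr 1
      ring
    · refine le_trans (le_of_eq ?_) ((hM1 x hx z hz).trans (by rwa [norm_sub_rev]))
      rw [neg]
      congr 1
      ring
    · have s1 := hL1 x hx z hz
      have s2 : L1 * ‖x - z‖ ≤ L1 * ε := mul_le_mul_of_nonneg_left d1 l1.le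
      have s3 := up (t := |C| * (L + 1) + L1) (by linarith)
      rw [Real.norm_eq_abs] at s1
      have s4 := abs_sub_le (gam r r x) (gam r r z) 1
      linarith [q2 hz0]

end Pool.Agent.MP_7504ef_an

end

section

/-!
The inequality of Kato up to the boundary.
-/

set_option autoImplicit false

open MeasureTheory Filter Set Topology Bornology Metric
open scoped ContDiff

namespace Pool.Agent.MP_7504ef_an

variable {N : ℕ} {Ω : Set (E N)} {ρ : E N → ℝ}

theorem qq_k1 (h : Df Ω ρ) : ∃ M, 0 < M ∧ ∀ x ∈ Ω,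
    gam (fun y => ρ y + gam ρ ρ y) (fun y => ρ y + gam ρ ρ y) x ≤ M * gam ρ ρ x := by
  let c : Fin N → Fin N → E N → ℝ := fun i j x => (if j = i then 1 else 0) + 2 * pd i (pd j ρ) x
  obtain ⟨M, m, hM⟩ := ex_bd (f := fun x => ∑ i, ∑ j, c i j x ^ 2) h.bd
    (continuous_finsetSum _ fun i _ => continuous_finsetSum _ fun j _ => (continuous_const.add
      (continuous_const.mul (sm_pd (sm_pd h.sm j) i).continuous)).pow 2)
  refine ⟨M, m, fun x hx => le_trans ?_
    (mul_le_mul_of_nonneg_right (le_of_abs_le (hM x hx)) (gam_nonneg ρ x))⟩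
  rw [gam, Finset.sum_mul]
  refine Finset.sum_le_sum fun i _ => ?_
  have d := fun j => sm_d (sm_pd h.sm j) x
  have e : pd i (fun y => ρ y + gam ρ ρ y) x = ∑ j, c i j x * pd j ρ x := by
    rw [pd_add (sm_d h.sm x) (sm_d (sm_gam h.sm h.sm) x), show gam ρ ρ = fun y =>
      ∑ j, pd j ρ y * pd j ρ y from rfl, pd_sum _ fun j _ => (d j).fun_mul (d j)]
    simp only [c, add_mul, Finset.sum_add_distrib, pd_mul (d _) (d _)]
    simp only [ite_mul, one_mul, zero_mul, Finset.sum_ite_eq', Finset.mem_univ, if_true,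
      ← Finset.sum_add_distrib]
    exact congrArg _ (Finset.sum_congr rfl fun _ _ => by ring)
  rw [e, ← sq]
  simpa only [gam, sq] using Finset.sum_mul_sq_le_sq_mul_sq Finset.univ (c i · x) (pd · ρ x)

theorem w_k1 {d : ℝ} (hd : 0 < d) : ∃ w : ℝ → ℝ, ContDiff ℝ ∞ w ∧ (∀ s, 0 < w s) ∧
    ∀ s, d ≤ s → w s ^ 2 * s = 1 := by
  let m : ℝ → ℝ := fun s => d + Real.smoothTransition (2 * s / d - 1) * (s - d)
  have m0 : ∀ s, 0 < m s := fun s => by
    have a := Real.smoothTransition.nonneg (2 * s / d - 1)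
    have b := Real.smoothTransition.le_one (2 * s / d - 1)
    rcases le_total (2 * s) d with e | e
    · simp only [m]
      rw [Real.smoothTransition.zero_of_nonpos (sub_nonpos.2 ((div_le_one hd).2 e))]
      simpa using hd
    · simp only [m]
      nlinarith [mul_nonneg a (sub_nonneg.2 e)]
  have ms : ContDiff ℝ ∞ m := contDiff_const.add ((Real.smoothTransition.contDiff.comp
    (((contDiff_const.mul contDiff_id).div_const d).sub contDiff_const)).mul
      (contDiff_id.sub contDiff_const))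
  refine ⟨fun s => (√(m s))⁻¹, (ms.sqrt fun s => (m0 s).ne').inv fun s =>
    (Real.sqrt_pos.2 (m0 s)).ne', fun s => inv_pos.2 (Real.sqrt_pos.2 (m0 s)), fun s hs => ?_⟩
  have e : m s = s := by
    simp only [m]
    rw [Real.smoothTransition.one_of_one_le (by
      rw [le_sub_iff_add_le, le_div_iff₀ hd]; linarith)]
    ring
  simp only [e]
  rw [inv_pow, Real.sq_sqrt (hd.le.trans hs), inv_mul_cancel₀ (hd.trans_le hs).ne']

theorem K1_pf (h0 : K0_st) (hc : CUT_st) : K1_st := by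
  intro N Ω μ u ρ h hμ s ζ C z hz
  obtain ⟨M, m, hM⟩ := qq_k1 h
  have qs : ContDiff ℝ ∞ fun y => ρ y + gam ρ ρ y := h.sm.add (sm_gam h.sm h.sm)
  refine le_of_tendsto (hc N Ω _ _ ζ (|C| + M) h.op h.bd s.1.pos_part qs z fun x hx => ?_).neg
    (mem_of_superset self_mem_nhdsWithin fun d (hd : 0 < d) => ?_)
  · have a := h.pos x hx
    have b := gam_nonneg ρ x
    have c := le_abs_self C
    have c0 := abs_nonneg C
    obtain ⟨z0, z1, z2⟩ := hz x hx
    refine ⟨by linarith, ?_, by nlinarith, by nlinarith [hM x hx]⟩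
    rw [abs_of_nonneg z0]
    nlinarith
  obtain ⟨w, ws, w0, w1⟩ := w_k1 hd
  set W : E N → ℝ := fun y => w (ρ y + gam ρ ρ y) with hW
  have Ws : ContDiff ℝ ∞ W := ws.comp qs
  have W0 : ∀ y, 0 < W y := fun y => w0 _
  have zs : ContDiff ℝ ∞ fun y => ζ y * Real.smoothTransition ((ρ y + gam ρ ρ y) / d - 1) :=
    z.mul (Real.smoothTransition.contDiff.comp ((qs.div_const d).sub contDiff_const))
  have zl : ∀ x ∈ Ω, ζ x * Real.smoothTransition ((ρ x + gam ρ ρ x) / d - 1) ≤ ζ x := fun x hx =>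
    mul_le_of_le_one_right (hz x hx).1 (Real.smoothTransition.le_one _)
  obtain ⟨A, a0, hA⟩ := ex_bd (f := fun x => C / W x) h.bd
    (continuous_const.div Ws.continuous fun x => (W0 x).ne')
  obtain ⟨B, b0, hB⟩ := ex_bd (f := fun x => (ρ x * gam W W x + 2 * W x * gam ρ W x - W x ^ 2) / W x)
    h.bd ((((h.sm.mul (sm_gam Ws Ws)).add ((contDiff_const.mul Ws).mul (sm_gam h.sm Ws))).sub
      (Ws.pow 2)).continuous.div Ws.continuous fun x => (W0 x).ne')
  refine (h0 N Ω μ u (fun y => ρ y * W y) _ (A + B) ⟨h.op, h.bd, h.sm.mul Ws,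
    fun x hx => by simp [h.fr x hx], fun x hx => mul_pos (h.pos x hx) (W0 x)⟩ hμ s zs
    fun x hx => ?_).trans (setIntegral_mono_on (int_cont h.bd zs.continuous)
      (int_cont h.bd z.continuous) h.op.measurableSet zl)
  have r0 := mul_pos (h.pos x hx) (W0 x)
  have wx := (W0 x).ne'
  refine ⟨mul_nonneg (hz x hx).1 (Real.smoothTransition.nonneg _), (zl x hx).trans
    ((hz x hx).2.1.trans ?_), fun n => ?_⟩
  · rw [show C * ρ x = C / W x * (ρ x * W x) by field_simp]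
    exact mul_le_mul_of_nonneg_right (by linarith [le_of_abs_le (hA x hx)]) r0.le
  · have e : W x ^ 2 * (ρ x + gam ρ ρ x) = 1 := w1 _ (le_of_not_gt fun k => n (by
      rw [Real.smoothTransition.zero_of_nonpos (sub_nonpos.2 ((div_le_one hd).2 k.le)), mul_zero]))
    have g := fun k => gam_mul (k := k) (sm_d h.sm x) (sm_d Ws x)
    rw [g, gam_comm _ W, gam_comm _ ρ, g, g, gam_comm W ρ, show ρ x * (ρ x * gam W W x +
      W x * gam ρ W x) + W x * (ρ x * gam ρ W x + W x * gam ρ ρ x) - 1 = (ρ x * gam W W x +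
      2 * W x * gam ρ W x - W x ^ 2) / W x * (ρ x * W x) by field_simp; linear_combination e,
      abs_mul, abs_of_pos r0]
    exact mul_le_mul_of_nonneg_right (by linarith [hB x hx]) r0.le

end Pool.Agent.MP_7504ef_an

end

section

/-!
The measure: a positive functional on smooth functions is given by a finite measure.
-/

set_option autoImplicit false

open MeasureTheory Filter Set Topology Bornology Metric
open scoped ContDiff CompactlySupported

namespace Pool.Agent.MP_7504ef_an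

variable {N : ℕ}

/-- smooth elements of the space of continuous functions -/
def smo_rmk (N : ℕ) : Submodule ℝ C(E N, ℝ) where
  carrier := {f | ContDiff ℝ ∞ (fun x => f x)}
  add_mem' := fun {f g} hf hg => by
    have : ContDiff ℝ ∞ (fun x => f x + g x) := ContDiff.add hf hg
    exact this
  zero_mem' := by
    have : ContDiff ℝ ∞ (fun _ : E N => (0 : ℝ)) := contDiff_const
    exact this
  smul_mem' := fun c f hf => by
    have : ContDiff ℝ ∞ (fun x => c * f x) := contDiff_const.mul hf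
    exact this

/-- continuous functions that are nonnegative on a set -/
def cone_rmk (Ω : Set (E N)) : PointedCone ℝ C(E N, ℝ) where
  carrier := {f | ∀ x ∈ Ω, 0 ≤ f x}
  add_mem' := fun hf hg x hx => add_nonneg (hf x hx) (hg x hx)
  zero_mem' := fun _ _ => le_rfl
  smul_mem' := fun c _ hf x hx => mul_nonneg c.2 (hf x hx)

/-- extension of the functional to all continuous functions -/
theorem ext_rmk {Ω : Set (E N)} {μ : Measure (E N)} {w : E N → ℝ} (hΩ : IsOpen Ω)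
    (hb : IsBounded Ω) [IsFiniteMeasure μ] (hw : IntegrableOn w Ω) (hG : Glob Ω μ w) :
    ∃ g : C(E N, ℝ) →ₗ[ℝ] ℝ, (∀ f : C(E N, ℝ), (∀ x ∈ Ω, 0 ≤ f x) → 0 ≤ g f) ∧
      ∀ f : C(E N, ℝ), ContDiff ℝ ∞ (fun x => f x) →
        g f = (∫ x in Ω, w x * lap (fun y => f y) x) + ∫ x in Ω, f x ∂μ := by
  have i1 : ∀ f : smo_rmk N, IntegrableOn (fun x => w x * lap (fun y => f.1 y) x) Ω := fun f =>
    int_mul hb hΩ.measurableSet hw (sm_lap f.2).continuous
  have i2 : ∀ f : smo_rmk N, IntegrableOn (fun x => f.1 x) Ω μ := fun f =>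
    int_cont hb f.1.continuous
  let L : smo_rmk N →ₗ[ℝ] ℝ :=
    { toFun := fun f => (∫ x in Ω, w x * lap (fun y => f.1 y) x) + ∫ x in Ω, f.1 x ∂μ
      map_add' := fun f g => by
        have e1 : ∀ x, w x * lap (fun y => (f + g).1 y) x =
            w x * lap (fun y => f.1 y) x + w x * lap (fun y => g.1 y) x := fun x => by
          rw [← mul_add, ← lap_add (sm_c2 f.2 x) (sm_c2 g.2 x)]
          rfl
        have e2 : ∀ x, (f + g).1 x = f.1 x + g.1 x := fun _ => rfl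
        simp only [e1]
        simp only [e2]
        rw [integral_add (i1 f) (i1 g), integral_add (i2 f) (i2 g)]
        ring
      map_smul' := fun c f => by
        have e1 : ∀ x, w x * lap (fun y => (c • f).1 y) x =
            c * (w x * lap (fun y => f.1 y) x) := fun x => by
          rw [mul_left_comm, ← lap_cmul c (sm_c2 f.2 x)]
          rfl
        have e2 : ∀ x, (c • f).1 x = c * f.1 x := fun _ => rfl
        simp only [e1]
        simp only [e2]
        rw [integral_const_mul, integral_const_mul, RingHom.id_apply, smul_eq_mul]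
        ring }
  obtain ⟨g, hg, hp⟩ := riesz_extension (cone_rmk Ω) ⟨smo_rmk N, L⟩
    (fun f hf => by
      have := hG (fun y => f.1 y) f.2 hf
      change 0 ≤ (∫ x in Ω, w x * lap (fun y => f.1 y) x) + ∫ x in Ω, f.1 x ∂μ
      linarith)
    (fun y => by
      obtain ⟨M, -, hM⟩ := ex_bd hb y.continuous
      refine ⟨⟨ContinuousMap.const _ M, (contDiff_const : ContDiff ℝ ∞ fun _ : E N => M)⟩,
        fun x hx => ?_⟩
      have := (abs_le.1 (hM x hx)).1
      change 0 ≤ M + y x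
      linarith)
  exact ⟨g, hp, fun f hf => hg ⟨f, hf⟩⟩

theorem RMK_pf : RMK_st := by
  intro N Ω μ w hΩ hb hμ hw hG
  obtain ⟨g, hp, hg⟩ := ext_rmk hΩ hb hw hG
  have hz : ∀ f f' : C(E N, ℝ), (∀ x ∈ Ω, f x = f' x) → g f = g f' := fun f f' h => by
    have a := hp (f - f') fun x hx => by simp [h x hx]
    have b := hp (f' - f) fun x hx => by simp [h x hx]
    rw [map_sub] at a b
    linarith
  let T : C_c(E N, ℝ) →ₗ[ℝ] C(E N, ℝ) :=
    { toFun := fun f => f.toContinuousMap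
      map_add' := fun _ _ => rfl
      map_smul' := fun _ _ => rfl }
  let Λ : C_c(E N, ℝ) →ₚ[ℝ] ℝ :=
    PositiveLinearMap.mk₀ (g.comp T) fun f hf => hp _ fun x _ => hf x
  obtain ⟨r, hr0, hr⟩ := hb.subset_closedBall_lt 0 0
  let b : ContDiffBump (0 : E N) := ⟨r, r + 1, hr0, by linarith⟩
  have hbi : Integrable (fun x => b x) (RealRMK.rieszMeasure Λ) :=
    b.continuous.integrable_of_hasCompactSupport b.hasCompactSupport
  have hbm : Measurable fun x => ENNReal.ofReal (b x) :=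
    b.continuous.measurable.ennreal_ofReal
  refine ⟨(RealRMK.rieszMeasure Λ).withDensity fun x => ENNReal.ofReal (b x), r + 1,
    isFiniteMeasure_withDensity_ofReal hbi.2, ?_, fun φ hφ => ?_⟩
  · rw [withDensity_apply _ measurableSet_ball.compl]
    refine setLIntegral_eq_zero measurableSet_ball.compl fun x hx => ?_
    have : b x = 0 := b.zero_of_le_dist (by simpa using hx)
    simp [this]
  · rw [integral_withDensity_eq_integral_toReal_smul hbm (.of_forall fun _ => ENNReal.ofReal_lt_top)]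
    let F : C_c(E N, ℝ) := ⟨⟨fun x => b x * φ x, b.continuous.mul hφ.continuous⟩,
      b.hasCompactSupport.mul_right⟩
    have e1 : ∫ x, (ENNReal.ofReal (b x)).toReal • φ x ∂(RealRMK.rieszMeasure Λ) = Λ F := by
      rw [← RealRMK.integral_rieszMeasure]
      refine integral_congr_ae (.of_forall fun x => ?_)
      simp only [ENNReal.toReal_ofReal b.nonneg, smul_eq_mul]
      rfl
    have e2 : Λ F = g ⟨φ, hφ.continuous⟩ := hz _ _ fun x hx => by
      have : b x = 1 := b.one_of_mem_closedBall (hr hx)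
      change b x * φ x = φ x
      rw [this, one_mul]
    have e3 := hg ⟨φ, hφ.continuous⟩ hφ
    rw [e1, e2, e3]
    change _ = (∫ x in Ω, w x * lap φ x) + (∫ x in Ω, φ x ∂μ) - ∫ x in Ω, φ x ∂μ
    ring

end Pool.Agent.MP_7504ef_an

end

section

/-!
Directions with prescribed derivatives.
-/

set_option autoImplicit false

open MeasureTheory Filter Set Topology
open scoped ContDiff

namespace Pool.Agent.MP_7504ef_an

theorem SUR0_pf : SUR_st := by
  intro N m ρ y h hy p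
  have li := h.li y hy
  obtain ⟨g, hg⟩ := ((Module.Basis.span li).constr ℝ fun k => p k).exists_extend
  refine ⟨(InnerProductSpace.toDual ℝ (E N)).symm (LinearMap.toContinuousLinearMap g),
    fun k hk => ?_⟩
  have := LinearMap.congr_fun hg (Module.Basis.span li ⟨k, hk⟩)
  rw [Module.Basis.constr_basis, LinearMap.comp_apply, Submodule.subtype_apply,
    Module.Basis.span_apply] at this
  rw [← InnerProductSpace.toDual_symm_apply, real_inner_comm, InnerProductSpace.toDual_symm_apply]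
  exact this

end Pool.Agent.MP_7504ef_an

end

section

/-!
The angles near the faces.
-/

set_option autoImplicit false

open MeasureTheory Filter Set Topology Bornology Metric
open scoped ContDiff NNReal

namespace Pool.Agent.MP_7504ef_an

/-- quantitative local surjectivity -/
theorem sur_mr {N : ℕ} {ι : Type} [Fintype ι] {F : E N → ι → ℝ} {F' : E N →L[ℝ] ι → ℝ} {y : E N}
    (hF : HasStrictFDerivAt F F' y) (h : F'.range = ⊤) :
    ∃ c : ℝ, 0 < c ∧ ∃ s ∈ 𝓝 y, ∀ x e t, 0 ≤ e → closedBall x (c * e) ⊆ s → dist t (F x) ≤ e →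
      ∃ z, dist z x ≤ c * e ∧ F z = t := by
  obtain ⟨R, hR⟩ := F'.exists_nonlinearRightInverse_of_surjective h
  obtain ⟨s, hs, ha⟩ := hF.approximates_deriv_on_nhds (c := R.nnnorm⁻¹ / 2)
    (Or.inr (half_pos (inv_pos.2 hR)))
  have h0 : (0 : ℝ) < R.nnnorm := hR
  refine ⟨2 * R.nnnorm, by positivity, s, hs, fun x e t he hb ht => ?_⟩
  have := ha.surjOn_closedBall_of_nonlinearRightInverse R (by positivity) hb (a := t) (by
    rw [mem_closedBall]
    refine ht.trans (le_of_eq ?_)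
    push_cast
    field_simp
    ring)
  obtain ⟨z, hz, e1⟩ := this
  exact ⟨z, hz, e1⟩

theorem loc_mr (hs : SUR_st) {N m : ℕ} {ρ : Fin m → E N → ℝ} (hc : Cor ρ) (hn : NO ρ) {y : E N}
    (hy : ∀ k, 0 ≤ ρ k y) {i j : Fin m} (hij : i ≠ j) :
    ∃ C : ℝ, 0 ≤ C ∧ ∀ᶠ x in 𝓝 y, (∀ k, 0 < ρ k x) →
      gam (ρ i) (ρ j) x ≤ C * (ρ i x + ρ j x) := by
  classical
  have hco : ∀ k, Continuous (ρ k) := fun k => (hc.sm k).continuous
  have hg := sm_gam (hc.sm i) (hc.sm j)
  have hsum : ContinuousAt (fun x => ρ i x + ρ j x) y := ((hco i).add (hco j)).continuousAt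
  rcases (add_nonneg (hy i) (hy j)).lt_or_eq with h0 | h0
  · refine ⟨(|gam (ρ i) (ρ j) y| + 1) / ((ρ i y + ρ j y) / 2), by positivity, ?_⟩
    have h1 : ∀ᶠ x in 𝓝 y, (ρ i y + ρ j y) / 2 < ρ i x + ρ j x :=
      hsum.eventually (lt_mem_nhds (half_lt_self h0))
    have h2 : ∀ᶠ x in 𝓝 y, gam (ρ i) (ρ j) x < |gam (ρ i) (ρ j) y| + 1 :=
      hg.continuous.continuousAt.eventually (gt_mem_nhds (by linarith [le_abs_self (gam (ρ i) (ρ j) y)]))
    filter_upwards [h1, h2] with x a b _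
    refine b.le.trans ?_
    rw [div_mul_eq_mul_div, le_div_iff₀ (half_pos h0)]
    exact mul_le_mul_of_nonneg_left a.le (by positivity)
  have hi : ρ i y = 0 := by linarith [hy i, hy j]
  have hj : ρ j y = 0 := by linarith [hy i, hy j]
  have hF : HasStrictFDerivAt (fun x (k : {k // ρ k y = 0}) => ρ k x)
      (ContinuousLinearMap.pi fun k : {k // ρ k y = 0} => fderiv ℝ (ρ k) y) y :=
    hasStrictFDerivAt_pi.2 fun k => (hc.sm k).contDiffAt.hasStrictFDerivAt (by simp)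
  have hr : (ContinuousLinearMap.pi fun k : {k // ρ k y = 0} => fderiv ℝ (ρ k) y).range = ⊤ := by
    rw [LinearMap.range_eq_top]
    intro p
    obtain ⟨v, hv⟩ := hs N m ρ y hc hy fun k => if h : ρ k y = 0 then p ⟨k, h⟩ else 0
    refine ⟨v, funext fun k => ?_⟩
    have := hv k k.2
    rw [dif_pos k.2] at this
    exact this
  obtain ⟨c, c0, s, hsy, hz⟩ := sur_mr hF hr
  have hU : ∀ᶠ x in 𝓝 y, x ∈ s ∧ ∀ k, ρ k y ≠ 0 → 0 < ρ k x := by
    refine Eventually.and hsy (eventually_all.2 fun k => ?_)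
    by_cases hk : ρ k y = 0
    · exact .of_forall fun _ h => absurd hk h
    · exact ((hco k).continuousAt.eventually
        (lt_mem_nhds ((hy k).lt_of_ne (Ne.symm hk)))).mono fun _ h _ => h
  obtain ⟨r, r0, hU⟩ := Metric.eventually_nhds_iff.1 hU
  obtain ⟨M, M0, hM⟩ := ex_lip (isBounded_ball (x := y) (r := r)) hg
  refine ⟨M * c, by positivity, ?_⟩
  have h1 : ∀ᶠ x in 𝓝 y, c * (ρ i x + ρ j x) < r / 2 :=
    (continuousAt_const.mul hsum).eventually (gt_mem_nhds (by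
      show c * (ρ i y + ρ j y) < r / 2
      rw [← h0, mul_zero]
      exact half_pos r0))
  filter_upwards [h1, ball_mem_nhds y (half_pos r0)] with x a b hx
  rw [mem_ball] at b
  have he : 0 ≤ ρ i x + ρ j x := add_nonneg (hx i).le (hx j).le
  have hin : ∀ z, dist z x ≤ c * (ρ i x + ρ j x) → dist z y < r := fun z h => by
    linarith [dist_triangle z x y]
  obtain ⟨z, hd, hz⟩ := hz x (ρ i x + ρ j x)
    (fun k => if k.1 = i ∨ k.1 = j then 0 else ρ k x) he (fun z h => (hU (hin z h)).1) (by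
      rw [dist_pi_le_iff he]
      intro k
      split_ifs with h
      · rw [Real.dist_eq, zero_sub, abs_neg, abs_of_pos (hx _)]
        rcases h with h | h <;> rw [h] <;> linarith [hx i, hx j]
      · rwa [dist_self])
  have hK : ∀ k, 0 ≤ ρ k z := fun k => by
    by_cases hk : ρ k y = 0
    · have := congrFun hz ⟨k, hk⟩
      simp only at this
      rw [this]
      split_ifs
      · exact le_rfl
      · exact (hx k).le
    · exact ((hU (hin z hd)).2 k hk).le
  have h2 : gam (ρ i) (ρ j) z ≤ 0 :=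
    hn z hK i j hij (by simpa using congrFun hz ⟨i, hi⟩) (by simpa using congrFun hz ⟨j, hj⟩)
  have h3 := hM x (by rw [mem_ball]; linarith) z (hin z hd)
  rw [← dist_eq_norm x z, dist_comm, Real.norm_eq_abs] at h3
  have h4 := mul_le_mul_of_nonneg_left hd M0.le
  rw [mul_assoc]
  linarith [le_abs_self (gam (ρ i) (ρ j) x - gam (ρ i) (ρ j) z)]

theorem MR_pf (hs : SUR_st) : MR_st := by
  intro N m ρ hc hn
  have hK : IsCompact {x | ∀ k, 0 ≤ ρ k x} := by
    refine isCompact_of_isClosed_isBounded ?_ hc.bd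
    rw [ofPred_forall]
    exact isClosed_iInter fun k => isClosed_le continuous_const (hc.sm k).continuous
  have := hK.induction_on (p := fun s => ∃ C : ℝ, ∀ x ∈ s, (∀ k, 0 < ρ k x) → ∀ i j, i ≠ j →
      gam (ρ i) (ρ j) x ≤ C * (ρ i x + ρ j x)) ⟨0, fun _ h => h.elim⟩
    (fun _ _ hst ⟨C, h⟩ => ⟨C, fun x hx => h x (hst hx)⟩)
    (fun _ _ ⟨C, h⟩ ⟨C', h'⟩ => ⟨max C C', fun x hx hp i j hij => by
      have he : 0 ≤ ρ i x + ρ j x := add_nonneg (hp i).le (hp j).le
      rcases hx with hx | hx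
      · exact (h x hx hp i j hij).trans (mul_le_mul_of_nonneg_right (le_max_left _ _) he)
      · exact (h' x hx hp i j hij).trans (mul_le_mul_of_nonneg_right (le_max_right _ _) he)⟩)
    (fun y hy => by
      have : ∀ q : Fin m × Fin m, ∃ C : ℝ, 0 ≤ C ∧ ∀ᶠ x in 𝓝 y, q.1 ≠ q.2 → (∀ k, 0 < ρ k x) →
          gam (ρ q.1) (ρ q.2) x ≤ C * (ρ q.1 x + ρ q.2 x) := fun q => by
        by_cases h : q.1 = q.2
        · exact ⟨0, le_rfl, .of_forall fun _ h' => absurd h h'⟩
        · obtain ⟨C, c0, hC⟩ := loc_mr hs hc hn hy h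
          exact ⟨C, c0, hC.mono fun _ h _ => h⟩
      choose C c0 hC using this
      refine ⟨_, mem_nhdsWithin_of_mem_nhds (eventually_all.2 hC), ∑ q, C q,
        fun x hx hp i j hij => (hx (i, j) hij hp).trans ?_⟩
      exact mul_le_mul_of_nonneg_right
        (Finset.single_le_sum (fun q _ => c0 q) (Finset.mem_univ (i, j)))
        (add_nonneg (hp i).le (hp j).le))
  obtain ⟨C, h⟩ := this
  exact ⟨C, fun x hx => h x (fun k => (hx k).le) hx⟩

end Pool.Agent.MP_7504ef_an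

end

section

/-!
The Laplacian of the product of the defining functions.
-/

set_option autoImplicit false

open MeasureTheory Filter Set Topology Bornology Metric
open scoped ContDiff

namespace Pool.Agent.MP_7504ef_an

variable {N m : ℕ} {ρ : Fin m → E N → ℝ}

theorem sm_hh (h : ∀ k, ContDiff ℝ ∞ (ρ k)) (s : Finset (Fin m)) :
    ContDiff ℝ ∞ fun y => ∏ k ∈ s, ρ k y := contDiff_prod fun k _ => h k

theorem fd_hh (h : ∀ k, ContDiff ℝ ∞ (ρ k)) {x : E N} (hx : ∀ k, 0 < ρ k x) (v : E N)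
    (s : Finset (Fin m)) : fderiv ℝ (fun y => ∏ k ∈ s, ρ k y) x v =
      (∏ k ∈ s, ρ k x) * ∑ k ∈ s, fderiv ℝ (ρ k) x v / ρ k x := by
  induction s using Finset.induction_on with
  | empty => simp
  | insert a s ha ih =>
    simp only [Finset.prod_insert ha, Finset.sum_insert ha]
    rw [fderiv_fun_mul (sm_d (h a) x) (sm_d (sm_hh h s) x)]
    simp only [add_apply, smul_apply, smul_eq_mul, ih]
    have := (hx a).ne'
    field_simp
    ring

theorem gam_hh (h : ∀ k, ContDiff ℝ ∞ (ρ k)) {x : E N} (hx : ∀ k, 0 < ρ k x) (f : E N → ℝ)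
    (s : Finset (Fin m)) : gam f (fun y => ∏ k ∈ s, ρ k y) x =
      (∏ k ∈ s, ρ k x) * ∑ k ∈ s, gam f (ρ k) x / ρ k x := by
  induction s using Finset.induction_on with
  | empty => simp [gam, pd_const]
  | insert a s ha ih =>
    simp only [Finset.prod_insert ha, Finset.sum_insert ha]
    rw [gam_mul (sm_d (h a) x) (sm_d (sm_hh h s) x), ih]
    have := (hx a).ne'
    field_simp
    ring

theorem lap_hh (h : ∀ k, ContDiff ℝ ∞ (ρ k)) {x : E N} (hx : ∀ k, 0 < ρ k x) {L c : ℝ}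
    (hc : 0 ≤ c) (hL : ∀ k, lap (ρ k) x ≤ L)
    (hg : ∀ i j, i ≠ j → gam (ρ i) (ρ j) x ≤ c * (ρ i x + ρ j x)) (s : Finset (Fin m)) :
    lap (fun y => ∏ k ∈ s, ρ k y) x ≤
      (L + 2 * c * s.card) * ((∏ k ∈ s, ρ k x) * ∑ k ∈ s, (ρ k x)⁻¹) := by
  induction s using Finset.induction_on with
  | empty => simp [lap_const]
  | insert a s ha ih =>
    simp only [Finset.prod_insert ha, Finset.sum_insert ha, Finset.card_insert_of_notMem ha]
    rw [lap_mul (sm_c2 (h a) x) (sm_c2 (sm_hh h s) x), gam_hh h hx]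
    have hP : 0 < ∏ k ∈ s, ρ k x := Finset.prod_pos fun k _ => hx k
    have h1 : ∑ k ∈ s, gam (ρ a) (ρ k) x / ρ k x ≤
        c * (ρ a x * ∑ k ∈ s, (ρ k x)⁻¹ + s.card) := by
      rw [Finset.mul_sum, Finset.card_eq_sum_ones, Nat.cast_sum, ← Finset.sum_add_distrib,
        Finset.mul_sum]
      refine Finset.sum_le_sum fun k hk => ?_
      rw [div_le_iff₀ (hx k)]
      refine (hg a k fun e => ha (e ▸ hk)).trans (le_of_eq ?_)
      have := (hx k).ne'
      field_simp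
      simp
    set P := ∏ k ∈ s, ρ k x
    set S := ∑ k ∈ s, (ρ k x)⁻¹
    have e : ρ a x * P * ((ρ a x)⁻¹ + S) = P + ρ a x * (P * S) := by
      have := (hx a).ne'
      field_simp
    rw [e]
    push_cast
    have h2 := mul_le_mul_of_nonneg_left ih (hx a).le
    have h3 := mul_le_mul_of_nonneg_left h1 hP.le
    have h4 := mul_le_mul_of_nonneg_left (hL a) hP.le
    have h5 := mul_nonneg hc hP.le
    nlinarith

theorem one_hh {f : E N → ℝ} (h : ContDiff ℝ ∞ f) {y v : E N}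
    (hv : f y = 0 → fderiv ℝ f y v = 1) :
    ∃ B, 0 ≤ B ∧ ∀ᶠ x in 𝓝 y, 0 < f x → (f x)⁻¹ / 2 - B ≤ fderiv ℝ f x v / f x := by
  have hd : Continuous fun x => fderiv ℝ f x v :=
    (h.continuous_fderiv (by simp)).clm_apply continuous_const
  by_cases h0 : f y = 0
  · refine ⟨0, le_rfl, ?_⟩
    have : ∀ᶠ x in 𝓝 y, 1 / 2 < fderiv ℝ f x v :=
      hd.continuousAt.eventually (lt_mem_nhds (by simp only [hv h0]; norm_num))
    filter_upwards [this] with x hx hp
    rw [sub_zero, le_div_iff₀ hp]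
    have : (f x)⁻¹ / 2 * f x = 1 / 2 := by field_simp
    linarith
  · have hc : ContinuousAt (fun x => (f x)⁻¹ / 2 - fderiv ℝ f x v / f x) y :=
      ((h.continuous.continuousAt.inv₀ h0).div_const 2).sub
        (hd.continuousAt.div h.continuous.continuousAt h0)
    refine ⟨|(f y)⁻¹ / 2 - fderiv ℝ f y v / f y| + 1, by positivity, ?_⟩
    filter_upwards [hc.eventually (gt_mem_nhds ((le_abs_self _).trans_lt (lt_add_one _)))]
      with x hx _
    linarith

theorem loc_hh (hs : SUR_st) (h : Cor ρ) {y : E N} (hy : ∀ k, 0 ≤ ρ k y) :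
    ∃ D : ℝ, ∀ᶠ x in 𝓝 y, (∀ k, 0 < ρ k x) → (∏ k, ρ k x) * ∑ k, (ρ k x)⁻¹ ≤
      D * (∏ k, ρ k x + ∑ i, |pd i (fun y => ∏ k, ρ k y) x|) := by
  obtain ⟨v, hv⟩ := hs N m ρ y h hy fun _ => 1
  choose B hB0 hB using fun k => one_hh (h.sm k) (hv k)
  refine ⟨2 * (∑ k, B k + ‖v‖), ?_⟩
  filter_upwards [eventually_all.2 hB] with x hx hp
  have h1 : (∑ k, (ρ k x)⁻¹) / 2 - ∑ k, B k ≤ ∑ k, fderiv ℝ (ρ k) x v / ρ k x := by
    rw [Finset.sum_div, ← Finset.sum_sub_distrib]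
    exact Finset.sum_le_sum fun k _ => hx k (hp k)
  have hP : 0 < ∏ k, ρ k x := Finset.prod_pos fun k _ => hp k
  have h2 := mul_le_mul_of_nonneg_left h1 hP.le
  rw [← fd_hh h.sm hp, fderiv_eq_sum] at h2
  have h3 : ∑ j, v j * pd j (fun y => ∏ k, ρ k y) x ≤
      ‖v‖ * ∑ i, |pd i (fun y => ∏ k, ρ k y) x| := by
    rw [Finset.mul_sum]
    refine Finset.sum_le_sum fun j _ => (le_abs_self _).trans ?_
    rw [abs_mul]
    exact mul_le_mul_of_nonneg_right (PiLp.norm_apply_le v j) (abs_nonneg _)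
  have h4 : 0 ≤ ∑ i, |pd i (fun y => ∏ k, ρ k y) x| := Finset.sum_nonneg fun _ _ => abs_nonneg _
  have h5 : 0 ≤ ∑ k, B k := Finset.sum_nonneg fun k _ => hB0 k
  have h6 := mul_nonneg h5 h4
  have h7 := mul_nonneg (norm_nonneg v) hP.le
  nlinarith

theorem HH_pf (hs : SUR_st) : HH_st := by
  intro N m ρ C h hg
  have hK : IsCompact {x | ∀ k, 0 ≤ ρ k x} := by
    refine Metric.isCompact_of_isClosed_isBounded ?_ h.bd
    rw [Set.ofPred_forall]
    exact isClosed_iInter fun k => isClosed_le continuous_const (h.sm k).continuous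
  have hnn : ∀ x, (∀ k, 0 < ρ k x) →
      0 ≤ ∏ k, ρ k x + ∑ i, |pd i (fun y => ∏ k, ρ k y) x| := fun x hx =>
    add_nonneg (Finset.prod_pos fun k _ => hx k).le (Finset.sum_nonneg fun _ _ => abs_nonneg _)
  obtain ⟨D, hD⟩ : ∃ D : ℝ, ∀ x ∈ {x | ∀ k, 0 ≤ ρ k x}, (∀ k, 0 < ρ k x) →
      (∏ k, ρ k x) * ∑ k, (ρ k x)⁻¹ ≤
        D * (∏ k, ρ k x + ∑ i, |pd i (fun y => ∏ k, ρ k y) x|) := by
    refine hK.induction_on (p := fun T => ∃ D : ℝ, ∀ x ∈ T, (∀ k, 0 < ρ k x) →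
      (∏ k, ρ k x) * ∑ k, (ρ k x)⁻¹ ≤
        D * (∏ k, ρ k x + ∑ i, |pd i (fun y => ∏ k, ρ k y) x|)) ⟨0, fun _ hx => hx.elim⟩
      (fun _ _ hst ⟨D, hD⟩ => ⟨D, fun x hx => hD x (hst hx)⟩) ?_ ?_
    · rintro _ _ ⟨D, hD⟩ ⟨D', hD'⟩
      refine ⟨max D D', fun x hx hp => hx.elim (fun hx => (hD x hx hp).trans ?_)
        fun hx => (hD' x hx hp).trans ?_⟩
      · exact mul_le_mul_of_nonneg_right (le_max_left _ _) (hnn x hp)
      · exact mul_le_mul_of_nonneg_right (le_max_right _ _) (hnn x hp)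
    · intro y hy
      obtain ⟨D, hD⟩ := loc_hh hs h hy
      exact ⟨_, mem_nhdsWithin_of_mem_nhds hD, D, fun x hx => hx⟩
  choose M hM0 hM using fun k => ex_bd h.bd (sm_lap (h.sm k)).continuous
  have hS : 0 ≤ ∑ k, M k := Finset.sum_nonneg fun k _ => (hM0 k).le
  refine ⟨(∑ k, M k + 2 * max C 0 * (Finset.univ : Finset (Fin m)).card) * D, fun x hx => ?_⟩
  have hx' : x ∈ {x | ∀ k, 0 ≤ ρ k x} := fun k => (hx k).le
  refine (lap_hh h.sm hx (le_max_right C 0) (L := ∑ k, M k) (fun k => ?_) (fun i j hij => ?_)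
    Finset.univ).trans ?_
  · exact ((le_abs_self _).trans (hM k x hx')).trans
      (Finset.single_le_sum (f := M) (fun k _ => (hM0 k).le) (Finset.mem_univ k))
  · exact (hg x hx i j hij).trans
      (mul_le_mul_of_nonneg_right (le_max_left _ _) (add_pos (hx i) (hx j)).le)
  · rw [mul_assoc _ D]
    have := le_max_right C 0
    exact mul_le_mul_of_nonneg_left (hD x hx' hx) (by positivity)

end Pool.Agent.MP_7504ef_an

end

section

/-!
The function of the obtuse wedge is a subsolution.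
-/

set_option autoImplicit false

open MeasureTheory Filter Set Topology Bornology Metric
open scoped ContDiff

namespace Pool.Agent.MP_7504ef_an

/-- a smooth function that vanishes to first order at `y` -/
theorem flat_sbs {N : ℕ} {Ω : Set (E N)} {y : E N} {ζ : E N → ℝ} (hb : IsBounded Ω)
    (hζ : ContDiff ℝ ∞ ζ) (h0 : ζ y = 0) (h1 : fderiv ℝ ζ y = 0) :
    ∃ C : ℝ, 4 ≤ C ∧ ∀ x ∈ Ω, |ζ x| ≤ C * ‖x - y‖ ^ 2 ∧ gam ζ ζ x ≤ C * ‖x - y‖ ^ 2 := by
  obtain ⟨M, hM0, hM⟩ := ex_taylor (hb.insert y) hζ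
  obtain ⟨L, hL0, hL⟩ := ex_lip (hb.insert y) (hζ.fderiv_right (m := ∞) (by simp))
  have hN : 0 ≤ (N : ℝ) * L ^ 2 := by positivity
  refine ⟨M + N * L ^ 2 + 4, by linarith, fun x hx => ⟨?_, ?_⟩⟩
  · have := hM y (mem_insert _ _) x (mem_insert_of_mem _ hx)
    simp only [pd, h0, h1, zero_apply, mul_zero, Finset.sum_const_zero,
      sub_zero] at this
    exact this.trans (mul_le_mul_of_nonneg_right (by linarith) (sq_nonneg _))
  · have a := hL x (mem_insert_of_mem _ hx) y (mem_insert _ _)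
    rw [h1, sub_zero] at a
    have b : ∀ i, pd i ζ x * pd i ζ x ≤ L ^ 2 * ‖x - y‖ ^ 2 := fun i => by
      have c : |pd i ζ x| ≤ L * ‖x - y‖ := by
        have d := (fderiv ℝ ζ x).le_opNorm (EuclideanSpace.single i (1 : ℝ))
        rw [EuclideanSpace.norm_single, norm_one, mul_one] at d
        exact d.trans a
      rw [← mul_pow, ← sq, ← sq_abs]
      exact pow_le_pow_left₀ (abs_nonneg _) c 2
    have c : gam ζ ζ x ≤ N * (L ^ 2 * ‖x - y‖ ^ 2) := by
      simpa [gam] using Finset.sum_le_card_nsmul Finset.univ _ _ fun i _ => b i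
    refine c.trans ?_
    rw [← mul_assoc]
    exact mul_le_mul_of_nonneg_right (by linarith) (sq_nonneg _)

theorem SBS_pf (hc : CUT_st) : SBS_st := by
  intro N Ω y a b u ho hb hw hi hu hf
  refine ⟨hi, fun ζ hζ hz hp => ?_⟩
  obtain ⟨h0, h1⟩ := hw.flat ζ hζ hz
  obtain ⟨C, hC, hB⟩ := flat_sbs hb hζ h0 h1
  have hq := sm_nsq y
  have t := hc N Ω u (fun x => ‖x - y‖ ^ 2) ζ C ho hb hi hq hζ fun x hx =>
    ⟨pow_pos (norm_pos_iff.2 (sub_ne_zero.2 fun e : x = y => hw.out (e ▸ hx))) 2, (hB x hx).1, (hB x hx).2,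
      (gam_nsq y x).le.trans (mul_le_mul_of_nonneg_right hC (sq_nonneg _))⟩
  have p : 0 ≤ ∫ x in Ω, u x * lap ζ x := by
    refine ge_of_tendsto t (eventually_nhdsWithin_of_forall fun δ (hδ : 0 < δ) => ?_)
    have hg : ContDiff ℝ ∞ fun x => ζ x * Real.smoothTransition (‖x - y‖ ^ 2 / δ - 1) :=
      hζ.mul (Real.smoothTransition.contDiff.comp ((hq.div_const δ).sub contDiff_const))
    have hK : IsCompact (closure Ω ∩ ({x | δ ≤ ‖x - y‖ ^ 2} ∩ tsupport u)) :=
      hb.isCompact_closure.inter_right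
        ((isClosed_le continuous_const hq.continuous).inter (isClosed_tsupport u))
    rw [green ho hK ?_ (fun x hx => (hu x hx).1) (fun x _ => sm_c2 hg x) ?_]
    · exact setIntegral_nonneg ho.measurableSet fun x hx =>
        mul_nonneg (mul_nonneg (hp x hx) (Real.smoothTransition.nonneg _)) (hu x hx).2
    · rintro x ⟨x1, x2, x3⟩
      by_contra hx
      refine notMem_tsupport_iff_eventuallyEq.2 (hf x ?_ ?_) x3
      · rw [ho.frontier_eq]
        exact ⟨x1, hx⟩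
      · rintro rfl
        simp only [mem_ofPred_eq, sub_self, norm_zero] at x2
        linarith
    · intro x hx hx'
      by_cases e : x ∈ tsupport u
      · right
        have e' : ‖x - y‖ ^ 2 < δ := not_le.1 fun e' => hx' ⟨subset_closure hx, e', e⟩
        filter_upwards [(isOpen_lt hq.continuous continuous_const).mem_nhds e'] with z hz'
        rw [Real.smoothTransition.zero_of_nonpos
          (sub_nonpos.2 ((div_le_one hδ).2 (le_of_lt hz'))), mul_zero]
      · exact Or.inl (notMem_tsupport_iff_eventuallyEq.1 e)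
  simpa using p

end Pool.Agent.MP_7504ef_an

end

section

/-!
Both conclusions fail for a function that is large near a point.
-/

set_option autoImplicit false

open MeasureTheory Filter Set Topology Bornology Metric
open scoped ContDiff

namespace Pool.Agent.MP_7504ef_an

variable {N : ℕ}

theorem cpos_neg (N : ℕ) : 0 < volume.real (closedBall (0 : E N) 1) :=
  ENNReal.toReal_pos (measure_closedBall_pos _ _ one_pos).ne' measure_closedBall_lt_top.ne

/-- a lower bound from a ball -/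
theorem low_neg {Ω : Set (E N)} {F : E N → ℝ} {p : E N} {k δ A : ℝ} (hΩ : MeasurableSet Ω)
    (hk : 0 < k) (hδ : 0 < δ) (hB : closedBall p (k * δ) ⊆ Ω) (hF : IntegrableOn F Ω)
    (h0 : ∀ x ∈ Ω, 0 ≤ F x) (ha : ∀ x ∈ closedBall p (k * δ), A ≤ δ ^ N * F x) :
    A * (k ^ N * volume.real (closedBall (0 : E N) 1)) ≤ ∫ x in Ω, F x := by
  have hd : 0 < δ ^ N := pow_pos hδ N
  have h1 := setIntegral_ge_of_const_le_real (μ := volume) (c := A / δ ^ N) measurableSet_closedBall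
    measure_closedBall_lt_top.ne (fun x hx => by
      rw [div_le_iff₀ hd, mul_comm]
      exact ha x hx) (hF.mono_set hB)
  rw [Measure.addHaar_real_closedBall' _ _ (mul_pos hk hδ).le, finrank_euclideanSpace_fin,
    mul_pow] at h1
  refine le_trans (le_of_eq ?_) (h1.trans (setIntegral_mono_set hF
    ((ae_restrict_mem hΩ).mono h0) hB.eventuallyLE))
  field_simp

theorem lapc_neg {u : E N → ℝ} {x : E N} (h : ContDiffAt ℝ 2 u x) : ContinuousAt (lap u) x :=
  (ContDiffAt.sum (n := 0) (s := Finset.univ) (f := fun i => pd i (pd i u)) fun i _ =>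
    ((c2_pd h i).fderiv_right (m := 0) (by norm_num)).clm_apply contDiffAt_const).continuousAt

theorem lapfin_neg {Ω : Set (E N)} {y : E N} {u : E N → ℝ} (hΩ : IsOpen Ω)
    (hu : ∀ x ∈ Ω, ContDiffAt ℝ 2 u x ∧ 0 ≤ lap u x) (hb : Blow Ω u y) : ¬ LapFin Ω u := by
  rintro ⟨ν₁, ν₂, f₁, f₂, hν⟩
  obtain ⟨κ, hκ, hb⟩ := hb
  have hc : 0 < (κ / 2) ^ N * volume.real (closedBall (0 : E N) 1) :=
    mul_pos (by positivity) (cpos_neg N)
  obtain ⟨δ, hδ, p, hp, hM⟩ :=
    hb ((ν₁.real univ + 1) / ((κ / 2) ^ N * volume.real (closedBall (0 : E N) 1)))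
  have hkd := mul_pos hκ hδ
  let b : ContDiffBump p := ⟨κ / 2 * δ, κ * δ, by positivity, by linarith⟩
  have ts : tsupport b = closedBall p (κ * δ) := b.tsupport_eq
  have hz : ∀ x, x ∉ closedBall p (κ * δ) → (b : E N → ℝ) =ᶠ[𝓝 x] fun _ => 0 := fun x hx =>
    notMem_tsupport_iff_eventuallyEq.1 (ts ▸ hx)
  have e1 := hν b ⟨b.contDiff, b.hasCompactSupport, ts ▸ hp⟩
  rw [green hΩ (isCompact_closedBall p (κ * δ)) hp (fun x hx => (hu x hx).1)
    (fun x _ => sm_c2 b.contDiff x) fun x _ hx => Or.inr (hz x hx)] at e1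
  have i1 : IntegrableOn (fun x => b x * lap u x) Ω := by
    refine IntegrableOn.of_forall_sdiff_eq_zero (s := closedBall p (κ * δ))
      (ContinuousOn.integrableOn_compact (isCompact_closedBall _ _) fun x hx =>
        (b.continuous.continuousAt.mul (lapc_neg (hu x (hp hx)).1)).continuousWithinAt)
      hΩ.measurableSet fun x hx => ?_
    rw [(hz x hx.2).self_of_nhds, zero_mul]
  have hs : closedBall p (κ / 2 * δ) ⊆ closedBall p (κ * δ) :=
    closedBall_subset_closedBall (by linarith)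
  have l1 := low_neg hΩ.measurableSet (half_pos hκ) hδ (hs.trans hp) i1
    (fun x hx => mul_nonneg b.nonneg (hu x hx).2) fun x hx => by
      rw [b.one_of_mem_closedBall hx, one_mul]
      exact (hM x (hs hx)).2.1
  rw [div_mul_cancel₀ _ hc.ne', e1] at l1
  have u1 : ∫ x in Ω, b x ∂ν₁ ≤ ν₁.real univ := by
    have := norm_setIntegral_le_of_norm_le_const (μ := ν₁) (s := Ω) (f := fun x => b x) (C := 1)
      (measure_lt_top _ _) fun x _ => by
        rw [Real.norm_of_nonneg b.nonneg]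
        exact b.le_one
    rw [one_mul] at this
    exact (le_abs_self _).trans (this.trans (measureReal_mono (subset_univ _)))
  have u2 : 0 ≤ ∫ x in Ω, b x ∂ν₂ := integral_nonneg fun x => b.nonneg
  linarith

/-- the smoothed distance -/
theorem hd_neg (y : E N) {δ : ℝ} (hδ : 0 < δ) (hN : 2 ≤ N) : ∃ h : E N → ℝ, ContDiff ℝ ∞ h ∧
    ∀ x, (∀ i, |pd i h x| ≤ 1) ∧ 0 ≤ lap h x ∧ lap h x ≤ N / δ ∧
      (‖x - y‖ ≤ δ → 1 ≤ 2 * δ * lap h x) := by
  have hp : ∀ x : E N, 0 < ‖x - y‖ ^ 2 + δ ^ 2 := fun x => by positivity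
  refine ⟨fun x => √(‖x - y‖ ^ 2 + δ ^ 2),
    ((sm_nsq y).add contDiff_const).sqrt fun x => (hp x).ne', fun x => ?_⟩
  have d1 : ∀ t : ℝ, 0 < t + δ ^ 2 →
      HasDerivAt (fun t => √(t + δ ^ 2)) (1 / (2 * √(t + δ ^ 2))) t := fun t ht =>
    ((hasDerivAt_id' t).add_const (δ ^ 2)).sqrt ht.ne'
  obtain ⟨w, hw⟩ : ∃ w, w = √(‖x - y‖ ^ 2 + δ ^ 2) := ⟨_, rfl⟩
  have w0 : 0 < w := hw ▸ Real.sqrt_pos.2 (hp x)
  have w2 : w ^ 2 = ‖x - y‖ ^ 2 + δ ^ 2 := hw ▸ Real.sq_sqrt (hp x).le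
  have d2 : HasDerivAt (fun t => 1 / (2 * √(t + δ ^ 2))) (-(1 / (4 * w ^ 3))) (‖x - y‖ ^ 2) := by
    have := (hasDerivAt_const (‖x - y‖ ^ 2) (1 : ℝ)).fun_div ((d1 _ (hp x)).const_mul 2)
      (by rw [← hw]; positivity)
    rw [← hw] at this
    refine this.congr_deriv ?_
    field_simp
    ring
  have el : lap (fun x => √(‖x - y‖ ^ 2 + δ ^ 2)) x = (N - ‖x - y‖ ^ 2 / w ^ 2) / w := by
    have := lap_comp (f := fun z => ‖z - y‖ ^ 2) (x := x) (Φ := fun t => √(t + δ ^ 2))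
      (Φ' := fun t => 1 / (2 * √(t + δ ^ 2)))
      (((continuous_add_const (δ ^ 2)).continuousAt.eventually (lt_mem_nhds (hp x))).mono d1) d2
      (sm_c2 (sm_nsq y) x)
    rw [this, lap_nsq, gam_nsq, ← hw]
    field_simp
    ring
  have q0 : 0 ≤ ‖x - y‖ ^ 2 / w ^ 2 := by positivity
  have q1 : ‖x - y‖ ^ 2 / w ^ 2 ≤ 1 := by
    rw [div_le_one (by positivity)]
    nlinarith [sq_nonneg δ]
  have hN' : (2 : ℝ) ≤ N := by exact_mod_cast hN
  have wd : δ ≤ w := by
    refine abs_le_of_sq_le_sq' ?_ w0.le |>.2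
    nlinarith [sq_nonneg ‖x - y‖]
  refine ⟨fun i => ?_, ?_, ?_, fun hx => ?_⟩
  · rw [pd_comp (f := fun z => ‖z - y‖ ^ 2) (d1 _ (hp x)) (sm_d (sm_nsq y) x), pd_nsq, ← hw]
    have a1 : |x i - y i| ≤ w := by
      have := PiLp.norm_apply_le (x - y) i
      rw [PiLp.sub_apply, Real.norm_eq_abs] at this
      refine this.trans (abs_le_of_sq_le_sq' ?_ w0.le).2
      nlinarith [sq_nonneg δ]
    have : 1 / (2 * w) * (2 * (x i - y i)) = (x i - y i) / w := by field_simp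
    rw [this, abs_div, abs_of_pos w0, div_le_one w0]
    exact a1
  · rw [el]
    exact div_nonneg (by linarith) w0.le
  · rw [el]
    exact div_le_div₀ (by linarith) (by linarith) hδ wd
  · have w3 : w ≤ 2 * δ := by
      refine abs_le_of_sq_le_sq' ?_ (by linarith) |>.2
      nlinarith [norm_nonneg (x - y)]
    rw [el, ← mul_div_assoc, le_div_iff₀ w0]
    nlinarith

theorem parts_neg {Ω : Set (E N)} {φ h : E N → ℝ} (hΩ : IsOpen Ω) (hb : IsBounded Ω)
    (hφ : Test Ω φ) (hh : ContDiff ℝ ∞ h) (h1 : ∀ x i, |pd i h x| ≤ 1) :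
    ∫ x in Ω, φ x * lap h x ≤ ∑ i, ∫ x in Ω, |pd i φ x| := by
  have e : ∀ i, ∫ x in Ω, φ x * pd i (pd i h) x ≤ ∫ x in Ω, |pd i φ x| := fun i => by
    have a := (int_pd (f := fun x => φ x * pd i h x) hΩ hφ.2.1 hφ.2.2
      (fun x _ => ((hφ.1.mul (sm_pd hh i)).of_le (by simp)).contDiffAt)
      (fun x _ hx => by rw [image_eq_zero_of_notMem_tsupport hx, zero_mul]) i).2
    have c1 : Continuous fun x => φ x * pd i (pd i h) x :=
      hφ.1.continuous.mul (sm_pd (sm_pd hh i) i).continuous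
    have c2 : Continuous fun x => pd i h x * pd i φ x :=
      (sm_pd hh i).continuous.mul (sm_pd hφ.1 i).continuous
    simp only [fun x => pd_mul (i := i) (sm_d hφ.1 x) (sm_d (sm_pd hh i) x)] at a
    rw [integral_add (int_cont hb c1) (int_cont hb c2)] at a
    rw [eq_neg_of_add_eq_zero_left a, ← integral_neg]
    refine integral_mono (int_cont hb c2.neg) (int_cont hb (sm_pd hφ.1 i).continuous.abs)
      fun x => (neg_le_abs _).trans ?_
    rw [abs_mul]
    exact mul_le_of_le_one_left (abs_nonneg _) (h1 x i)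
  simp only [lap, Finset.mul_sum]
  rw [integral_finsetSum (f := fun i x => φ x * pd i (pd i h) x) _ fun i _ => int_cont hb
    (hφ.1.continuous.mul (sm_pd (sm_pd hh i) i).continuous)]
  exact Finset.sum_le_sum fun i _ => e i

theorem w011_neg {Ω : Set (E N)} {y : E N} {u : E N → ℝ} (hN : 2 ≤ N) (hΩ : IsOpen Ω)
    (hbd : IsBounded Ω) (h0 : ∀ x, 0 ≤ u x) (hb : Blow Ω u y) : ¬ W011 Ω u := by
  rintro ⟨iu, G, iG, hG⟩
  obtain ⟨κ, hκ, hb⟩ := hb
  obtain ⟨B, hB⟩ : ∃ B, B = ∑ i, ∫ x in Ω, |G i x| := ⟨_, rfl⟩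
  have hc : 0 < κ ^ N * volume.real (closedBall (0 : E N) 1) := mul_pos (by positivity) (cpos_neg N)
  obtain ⟨δ, hδ, p, hp, hM⟩ := hb (2 * ((|B| + 2) / (κ ^ N * volume.real (closedBall (0 : E N) 1))))
  obtain ⟨h, hh, hx⟩ := hd_neg y hδ hN
  have cl := (sm_lap hh).continuous
  have i1 := int_mul hbd hΩ.measurableSet iu cl
  have l1 := low_neg (A := (|B| + 2) / (κ ^ N * volume.real (closedBall (0 : E N) 1)))
    hΩ.measurableSet hκ hδ hp i1 (fun x _ => mul_nonneg (h0 x) (hx x).2.1) fun x hx' => by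
      obtain ⟨m1, -, m3⟩ := hM x hx'
      have m4 := (hx x).2.2.2 m1
      have m5 : 0 ≤ δ ^ N * u x := mul_nonneg (pow_pos hδ N).le (h0 x)
      refine le_of_mul_le_mul_left ?_ (mul_pos two_pos hδ)
      nlinarith [mul_le_mul_of_nonneg_left m4 m5]
  rw [div_mul_cancel₀ _ hc.ne'] at l1
  have hN0 : (0 : ℝ) < N := by exact_mod_cast (by omega : 0 < N)
  have hs : 0 < N + N / δ := by positivity
  obtain ⟨φ, hφ, e1, e2⟩ := hG (1 / (N + N / δ)) (by positivity)
  have iφ : IntegrableOn φ Ω := int_cont hbd hφ.1.continuous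
  have p1 := parts_neg hΩ hbd hφ hh fun x i => (hx x).1 i
  have p2 : ∀ i, ∫ x in Ω, |pd i φ x| ≤ (∫ x in Ω, |G i x|) + 1 / (N + N / δ) := fun i => by
    have ip : IntegrableOn (pd i φ) Ω := int_cont hbd (sm_pd hφ.1 i).continuous
    refine le_trans ?_ (add_le_add le_rfl (e2 i))
    have i3 : IntegrableOn (fun x => |pd i φ x - G i x|) Ω := (ip.sub (iG i)).abs
    rw [← integral_add (iG i).abs i3]
    refine integral_mono ip.abs ((iG i).abs.add i3) fun x => ?_
    have := abs_add_le (G i x) (pd i φ x - G i x)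
    rwa [add_sub_cancel] at this
  have p3 : ∑ i, ∫ x in Ω, |pd i φ x| ≤ B + N * (1 / (N + N / δ)) := by
    refine (Finset.sum_le_sum fun i _ => p2 i).trans (le_of_eq ?_)
    rw [Finset.sum_add_distrib, ← hB]
    simp
  have p4 : ∫ x in Ω, u x * lap h x ≤
      (∫ x in Ω, φ x * lap h x) + N / δ * (1 / (N + N / δ)) := by
    have i2 := int_mul hbd hΩ.measurableSet iφ cl
    refine le_trans ?_ (add_le_add le_rfl (mul_le_mul_of_nonneg_left e1 (div_pos hN0 hδ).le))
    have i3 : IntegrableOn (fun x => N / δ * |φ x - u x|) Ω := (iφ.sub iu).abs.const_mul _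
    rw [← integral_const_mul, ← integral_add i2 i3]
    refine integral_mono i1 (i2.add i3) fun x => ?_
    have a1 := mul_le_mul_of_nonneg_right (hx x).2.2.1 (abs_nonneg (φ x - u x))
    have a2 := mul_le_mul_of_nonneg_left (neg_le_abs (φ x - u x)) (hx x).2.1
    show u x * lap h x ≤ φ x * lap h x + N / δ * |φ x - u x|
    linarith
  have p5 : N * (1 / (N + N / δ)) + N / δ * (1 / (N + N / δ)) = 1 := by
    rw [← add_mul, mul_one_div_cancel hs.ne']
  linarith [le_abs_self B]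

theorem NEG_pf : NEG_st := fun _ _ _ _ hN hΩ hbd _ h0 hu hb =>
  ⟨lapfin_neg hΩ hu hb, w011_neg hN hΩ hbd h0 hb⟩

end Pool.Agent.MP_7504ef_an

end

section

/-!
Assembly of the steps.
-/

set_option autoImplicit false

open MeasureTheory Filter Set Topology Bornology Metric
open scoped ContDiff

namespace Pool.Agent.MP_7504ef_an

theorem df_asm {N m : ℕ} {ρ : Fin m → E N → ℝ} (h : Cor ρ) :
    Df {x | ∀ k, 0 < ρ k x} fun y => ∏ k, ρ k y := by
  have o : IsOpen {x | ∀ k, 0 < ρ k x} := by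
    rw [ofPred_forall]
    exact isOpen_iInter_of_finite fun k => isOpen_lt continuous_const (h.sm k).continuous
  refine ⟨o, h.bd.subset fun x hx k => (hx k).le, contDiff_prod fun k _ => h.sm k,
    fun x hx => ?_, fun x hx => Finset.prod_pos fun k _ => hx k⟩
  rw [o.frontier_eq] at hx
  obtain ⟨k, hk⟩ := not_forall.1 hx.2
  exact Finset.prod_eq_zero (Finset.mem_univ k) (le_antisymm (not_lt.1 hk)
    (closure_minimal (fun y hy => (hy k).le) (isClosed_le continuous_const (h.sm k).continuous)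
      hx.1))

theorem pos_asm (h1 : K1_st) (he : EXP_st) (hr : RMK_st) (hg : GRD_st) (hw : WCT_st) (hm : MR_st)
    (hh : HH_st) {N m : ℕ} (hN : 0 < N) {ρ : Fin m → E N → ℝ} (h : Cor ρ) (hn : NO ρ) :
    AllSub {x | ∀ k, 0 < ρ k x} LapFin ∧ AllSub {x | ∀ k, 0 < ρ k x} W011 := by
  have D := df_asm h
  obtain ⟨C, hC⟩ := hm N m ρ h hn
  obtain ⟨C', hC'⟩ := hh N m ρ C h hC
  have key : ∀ (μ₁ μ₂ : Measure (E N)) (u : E N → ℝ), IsFiniteMeasure μ₁ →
      Sub {x | ∀ k, 0 < ρ k x} μ₁ μ₂ u → LapFin {x | ∀ k, 0 < ρ k x} (fun x => max (u x) 0) ∧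
      W011 {x | ∀ k, 0 < ρ k x} fun x => max (u x) 0 := fun μ μ₂ u hμ hs => by
    have s : Sub {x | ∀ k, 0 < ρ k x} μ 0 u := ⟨hs.1, fun ζ a b c => (hs.2 ζ a b c).trans <| by
      simpa using setIntegral_nonneg D.op.measurableSet c⟩
    have i : IntegrableOn (fun x => max (u x) 0) {x | ∀ k, 0 < ρ k x} := hs.1.pos_part
    obtain ⟨g, t⟩ := he N _ μ _ _ C' D hμ i (fun x => le_max_right _ _) hC' (h1 N _ μ u _ D hμ s)
    obtain ⟨ν, R, hν, z, e⟩ := hr N _ μ _ D.op D.bd hμ i g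
    obtain ⟨R', hR'⟩ := D.bd.subset_ball 0
    refine ⟨⟨ν, μ, hν, hμ, fun φ hφ => ?_⟩, hw N _ _ _ D i (fun x => le_max_right _ _) t
      (hg N _ ν (μ.restrict _) _ (max R R') hN D.op D.bd hν inferInstance
        (measure_mono_null (compl_subset_compl.2 (ball_subset_ball (le_max_left _ _))) z) ?_ i e)⟩
    · rw [e φ hφ.1, setIntegral_eq_integral_of_forall_compl_eq_zero (μ := ν)
        fun x hx => image_eq_zero_of_notMem_tsupport fun a => hx (hφ.2.2 a)]
    · rw [Measure.restrict_apply measurableSet_ball.compl, inter_comm, ← sdiff_eq,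
        sdiff_eq_empty.2 (hR'.trans (ball_subset_ball (le_max_right _ _))), measure_empty]
  exact ⟨fun μ₁ μ₂ u a _ b => (key μ₁ μ₂ u a b).1, fun μ₁ μ₂ u a _ b => (key μ₁ μ₂ u a b).2⟩

theorem neg_asm (hg : GEO_st) (hf : FUN_st) (hs : SBS_st) (hn : NEG_st) {N m : ℕ}
    {ρ : Fin m → E N → ℝ} (h : Cor ρ) (ho : ¬ NO ρ) :
    ¬ AllSub {x | ∀ k, 0 < ρ k x} LapFin ∧ ¬ AllSub {x | ∀ k, 0 < ρ k x} W011 := by
  have D := df_asm h
  obtain ⟨y, a, b, W⟩ := hg N m ρ h ho
  obtain ⟨u, i, p, c, f, B⟩ := hf N _ y a b D.op D.bd W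
  have s := hs N _ y a b u D.op D.bd W i c f
  have n := hn N _ y u W.two D.op D.bd i p c B
  have e : (fun x => max (u x) 0) = u := funext fun x => max_eq_left (p x)
  exact ⟨fun A => n.1 (e ▸ A 0 0 u inferInstance inferInstance s),
    fun A => n.2 (e ▸ A 0 0 u inferInstance inferInstance s)⟩

theorem tfae_asm (h1 : K1_st) (he : EXP_st) (hr : RMK_st) (hg : GRD_st) (hw : WCT_st) (hm : MR_st)
    (hh : HH_st) (hg' : GEO_st) (hf : FUN_st) (hs : SBS_st) (hn : NEG_st) {N m : ℕ} (hN : 0 < N)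
    {ρ : Fin m → E N → ℝ} (h : Cor ρ) : List.TFAE
      [NO ρ, AllSub {x | ∀ k, 0 < ρ k x} LapFin, AllSub {x | ∀ k, 0 < ρ k x} W011] := by
  tfae_have 1 → 2 := fun a => (pos_asm h1 he hr hg hw hm hh hN h a).1
  tfae_have 1 → 3 := fun a => (pos_asm h1 he hr hg hw hm hh hN h a).2
  tfae_have 2 → 1 := fun a => by_contra fun o => (neg_asm hg' hf hs hn h o).1 a
  tfae_have 3 → 1 := fun a => by_contra fun o => (neg_asm hg' hf hs hn h o).2 a
  tfae_finish

end Pool.Agent.MP_7504ef_an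

end
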